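import Pool.Agent.V5helper16.KR.DicB

/-! The data structure in the memory, and the trade-off. -/

open Classical

namespace Pool.Agent.V5helper16.KR

/-- the graph with loops, on the natural numbers -/
def gE {n : ℕ} (G : Fin n → Fin n → Prop) (x y : ℕ) : Prop :=
  ∃ (hx : x < n) (hy : y < n), x = y ∨ G ⟨x, hx⟩ ⟨y, hy⟩

theorem sum_dg_eq {n : ℕ} (E : ℕ → ℕ → Prop) :
    ∑ x ∈ Finset.range n, dg n E x =
      (((Finset.range n) ×ˢ (Finset.range n)).filter fun p => E p.1 p.2).card := by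
  rw [Finset.card_filter, Finset.sum_product]
  refine Finset.sum_congr rfl fun x _ => ?_
  rw [dg, nb, Finset.card_filter]

theorem sum_dg_eq' {n : ℕ} (E : ℕ → ℕ → Prop) :
    ∑ x ∈ Finset.range n, dg n (fun a b => E b a) x =
      (((Finset.range n) ×ˢ (Finset.range n)).filter fun p => E p.1 p.2).card := by
  rw [Finset.card_filter, Finset.sum_product_right]
  refine Finset.sum_congr rfl fun x _ => ?_
  rw [dg, nb, Finset.card_filter]

theorem card_gE {n C : ℕ} (G : Fin n → Fin n → Prop) (hG : edges G ≤ C * n) :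
    (((Finset.range n) ×ˢ (Finset.range n)).filter fun p => gE G p.1 p.2).card ≤ (C + 1) * n := by
  have h1 : (((Finset.range n) ×ˢ (Finset.range n)).filter fun p => gE G p.1 p.2) ⊆
      (Finset.range n).image (fun x => (x, x)) ∪
        ((Finset.univ : Finset (Fin n × Fin n)).filter fun e => G e.1 e.2).image
          (fun e => (e.1.val, e.2.val)) := by
    rintro ⟨x, y⟩ hp
    rw [Finset.mem_filter] at hp
    obtain ⟨_, hx, hy, h⟩ := hp
    rw [Finset.mem_union]
    rcases h with h | h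
    · left
      rw [Finset.mem_image]
      refine ⟨x, Finset.mem_range.2 hx, ?_⟩
      have h' : x = y := h
      rw [h']
    · right
      rw [Finset.mem_image]
      exact ⟨(⟨x, hx⟩, ⟨y, hy⟩), Finset.mem_filter.2 ⟨Finset.mem_univ _, h⟩, rfl⟩
  have h2 : ((Finset.univ : Finset (Fin n × Fin n)).filter fun e => G e.1 e.2).card = edges G := by
    rw [edges, Nat.card_eq_fintype_card, Fintype.card_subtype]
  refine (Finset.card_le_card h1).trans ((Finset.card_union_le _ _).trans ?_)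
  have h3 := Finset.card_image_le (s := Finset.range n) (f := fun x => (x, x))
  have h4 := Finset.card_image_le
    (s := (Finset.univ : Finset (Fin n × Fin n)).filter fun e => G e.1 e.2)
    (f := fun e => (e.1.val, e.2.val))
  rw [Finset.card_range] at h3
  rw [h2] at h4
  have h5 : (C + 1) * n = C * n + n := by ring
  omega

theorem walk_wk {n : ℕ} (G : Fin n → Fin n → Prop) : ∀ (j : ℕ) (u v : Fin n), Walk G j u v →
    Wk (gE G) j u v := by
  intro j
  induction j with
  | zero =>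
    intro u v h
    exact congrArg Fin.val h
  | succ j ih =>
    intro u v h
    obtain ⟨x, h1, h2⟩ := h
    exact ⟨x, ⟨u.2, x.2, Or.inr h1⟩, ih x v h2⟩

theorem wk_reach {n : ℕ} (G : Fin n → Fin n → Prop) : ∀ (j : ℕ) (u v : Fin n),
    Wk (gE G) j u v → Reach G j u v := by
  intro j
  induction j with
  | zero =>
    intro u v h
    exact ⟨0, le_rfl, Fin.ext h⟩
  | succ j ih =>
    intro u v h
    obtain ⟨x, ⟨hx, hy, h1⟩, h2⟩ := h
    obtain ⟨i, hi, h3⟩ := ih ⟨x, hy⟩ v h2
    rcases h1 with h1 | h1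
    · refine ⟨i, by omega, ?_⟩
      have h4 : (⟨x, hy⟩ : Fin n) = u := Fin.ext h1.symm
      rw [h4] at h3
      exact h3
    · exact ⟨i + 1, by omega, ⟨x, hy⟩, h1, h3⟩

theorem reach_iff {n : ℕ} (G : Fin n → Fin n → Prop) (k : ℕ) (u v : Fin n) :
    Reach G k u v ↔ Wk (gE G) k u v := by
  constructor
  · rintro ⟨j, hj, h⟩
    exact (walk_wk G j u v h).mono ⟨u.2, u.2, Or.inl rfl⟩ hj
  · exact wk_reach G k u v

/-- the reversed graph -/
abbrev rv (E : ℕ → ℕ → Prop) : ℕ → ℕ → Prop := fun a b => E b a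

theorem good_of {n w S k D : ℕ} {m : ℕ → ℕ} (E : ℕ → ℕ → Prop) (hR : ∀ x < n, E x x)
    (hn : ∀ x y, E x y → y < n) (F B : Blk n w S m) (hFd : F.deg = dg n E)
    (hFc : F.cnt = ct n D E (rv E)) (hFn : F.nbr = nbrs n E) (hFt : F.tab = tb n k E (rv E))
    (hBd : B.deg = dg n (rv E)) (hBr : B.rank = rk n (rv E)) : Good E k D F B where
  nbr := fun x _ y => by
    rw [hFd, hFn, nbrs_iff]
    exact ⟨fun h => h.2, fun h => ⟨hn x y h, h⟩⟩
  known := fun x _ t ht h => by
    rw [hBr, hFc]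
    rw [hFd, hBd] at h
    exact rk_lt_ct n D E (rv E) ht h
  tab := fun x hx t ht _ j hj => by
    rw [hFt, hBr]
    exact tb_iff n k E (rv E) (hR x hx) ht hj

/-- low vertices -/
def low (n D : ℕ) (E : ℕ → ℕ → Prop) (z : ℕ) : Prop := dg n E z < D ∧ dg n (rv E) z < D

theorem solves_of {k C n M w S : ℕ} (hk : 1 ≤ k) (hM : 1 ≤ M) (hn : 1 ≤ n)
    (hSw : S < 2 ^ w) (h8 : 8 ≤ 2 ^ w) (hkw : k + 2 < 2 ^ w)
    (hbud : M ^ (k ^ 2 / 4) * n < 2 ^ w)
    (hSize : ∀ sF sB cF cB L, sF ≤ (C + 1) * n → sB ≤ (C + 1) * n →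
      M ^ k * cF ≤ (C + 1) * n * ((C + 1) * n) + n * ((C + 1) * n) →
      M ^ k * cB ≤ (C + 1) * n * ((C + 1) * n) + n * ((C + 1) * n) →
      L ≤ M ^ k * ((C + 1) * n * (M ^ k) ^ (k - 1)) →
      6 + 5 * n + 5 * n + 2 * n + sF + sB + cF + cB + n * (n / M ^ k + 1) + M ^ k + L ≤ S) :
    Solves k C n w S (29 + tF (M ^ (k ^ 2 / 4)) k 1) (query k) := by
  intro G hG
  obtain ⟨E, hEdef⟩ : ∃ E, E = gE G := ⟨_, rfl⟩
  obtain ⟨D, hD⟩ : ∃ D, D = M ^ k := ⟨_, rfl⟩
  obtain ⟨bud, hbuddef⟩ : ∃ bud, bud = M ^ (k ^ 2 / 4) := ⟨_, rfl⟩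
  have hDpos : 0 < D := by rw [hD]; exact Nat.pow_pos hM
  have hER : ∀ x < n, E x x := fun x hx => by rw [hEdef]; exact ⟨hx, hx, Or.inl rfl⟩
  have hEn1 : ∀ x y, E x y → x < n := fun x y h => by
    rw [hEdef] at h
    exact h.1
  have hEn2 : ∀ x y, E x y → y < n := fun x y h => by
    rw [hEdef] at h
    obtain ⟨_, h, _⟩ := h
    exact h
  obtain ⟨N₁, hN₁⟩ : ∃ N₁, N₁ = (C + 1) * n := ⟨_, rfl⟩
  have hsF : ∑ x ∈ Finset.range n, dg n E x ≤ N₁ := by
    rw [sum_dg_eq, hN₁, hEdef]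
    exact card_gE G hG
  have hsB : ∑ x ∈ Finset.range n, dg n (rv E) x ≤ N₁ := by
    rw [sum_dg_eq', hN₁, hEdef]
    exact card_gE G hG
  have hcF := sum_ct n D N₁ E (rv E) hsF hsB
  have hcB := sum_ct n D N₁ (rv E) E hsB hsF
  -- the dictionary
  obtain ⟨Low, hLow⟩ : ∃ Low : ℕ → ℕ → Prop, Low = Lw E (low n D E) (k - 1) := ⟨_, rfl⟩
  obtain ⟨W, hW⟩ : ∃ W, W = n / D + 1 := ⟨_, rfl⟩
  have hWpos : 0 < W := by rw [hW]; exact Nat.succ_pos _
  have hL : ∑ c ∈ Finset.range (n * W), len n D W Low c ≤ D * (N₁ * D ^ (k - 1)) := by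
    refine (sum_len n D W Low hWpos).trans (Nat.mul_le_mul_left _ ?_)
    rw [hLow]
    refine (Finset.sum_le_sum fun s _ => card_Lw n D E (low n D E) hEn2
      (fun z hz => hz.1.le) (k - 1) s).trans ?_
    rw [← Finset.sum_mul]
    exact Nat.mul_le_mul_right _ hsF
  obtain ⟨sF, hsFd⟩ : ∃ sF, sF = ∑ x ∈ Finset.range n, dg n E x := ⟨_, rfl⟩
  obtain ⟨sB, hsBd⟩ : ∃ sB, sB = ∑ x ∈ Finset.range n, dg n (rv E) x := ⟨_, rfl⟩
  obtain ⟨cF, hcFd⟩ : ∃ cF, cF = ∑ x ∈ Finset.range n, ct n D E (rv E) x := ⟨_, rfl⟩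
  obtain ⟨cB, hcBd⟩ : ∃ cB, cB = ∑ x ∈ Finset.range n, ct n D (rv E) E x := ⟨_, rfl⟩
  obtain ⟨L, hLd⟩ : ∃ L, L = ∑ c ∈ Finset.range (n * W), len n D W Low c := ⟨_, rfl⟩
  have hsize : 6 + 5 * n + 5 * n + 2 * n + sF + sB + cF + cB + n * W + D + L ≤ S := by
    rw [hW, hD]
    apply hSize
    · rw [hsFd, ← hN₁]; exact hsF
    · rw [hsBd, ← hN₁]; exact hsB
    · rw [hcFd, ← hN₁, ← hD]; exact hcF
    · rw [hcBd, ← hN₁, ← hD]; exact hcB
    · rw [hLd, ← hN₁, ← hD]; exact hL
  obtain ⟨nW, hnW⟩ : ∃ nW, nW = n * W := ⟨_, rfl⟩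
  rw [← hnW] at hsize hLd
  -- addresses
  obtain ⟨o2, ho2⟩ : ∃ o2, o2 = 6 + 5 * n := ⟨_, rfl⟩
  obtain ⟨o3, ho3⟩ : ∃ o3, o3 = o2 + 5 * n := ⟨_, rfl⟩
  obtain ⟨o4, ho4⟩ : ∃ o4, o4 = o3 + 2 * n := ⟨_, rfl⟩
  obtain ⟨o5, ho5⟩ : ∃ o5, o5 = o4 + sF := ⟨_, rfl⟩
  obtain ⟨o6, ho6⟩ : ∃ o6, o6 = o5 + sB := ⟨_, rfl⟩
  obtain ⟨o7, ho7⟩ : ∃ o7, o7 = o6 + cF := ⟨_, rfl⟩
  obtain ⟨o8, ho8⟩ : ∃ o8, o8 = o7 + cB := ⟨_, rfl⟩
  obtain ⟨o9, ho9⟩ : ∃ o9, o9 = o8 + nW := ⟨_, rfl⟩
  obtain ⟨o10, ho10⟩ : ∃ o10, o10 = o9 + D := ⟨_, rfl⟩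
  have hend : o10 + L ≤ S := by omega
  have hnS : n ≤ S := by omega
  -- lists
  obtain ⟨gF, gF1, -, gF3⟩ := exists_concat (dg n E) (nbrs n E) (2 ^ w) (by omega) n
    (fun x hx i hi => by
      have := ((nbrs_iff n E x _).1 ⟨i, hi, rfl⟩).1
      omega)
  obtain ⟨gB, gB1, -, gB3⟩ := exists_concat (dg n (rv E)) (nbrs n (rv E)) (2 ^ w) (by omega) n
    (fun x hx i hi => by
      have := ((nbrs_iff n (rv E) x _).1 ⟨i, hi, rfl⟩).1
      omega)
  obtain ⟨tF', tF1, -, tF3⟩ := exists_concat (ct n D E (rv E)) (tb n k E (rv E)) (2 ^ w)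
    (by omega) n (fun x hx i hi => by
      have := tb_le n k E (rv E) x i
      omega)
  obtain ⟨tB', tB1, -, tB3⟩ := exists_concat (ct n D (rv E) E) (tb n k (rv E) E) (2 ^ w)
    (by omega) n (fun x hx i hi => by
      have := tb_le n k (rv E) E x i
      omega)
  obtain ⟨gL, gL1, -, gL3⟩ := exists_concat (len n D W Low) (bit D W Low) (2 ^ w)
    (by omega) nW (fun x hx i hi => by
      unfold bit
      split_ifs <;> omega)
  -- the regions
  obtain ⟨lens, hlens⟩ : ∃ lens : ℕ → ℕ, lens = fun c => match c with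
    | 0 => 6
    | 1 => 5 * n
    | 2 => 5 * n
    | 3 => 2 * n
    | 4 => sF
    | 5 => sB
    | 6 => cF
    | 7 => cB
    | 8 => nW
    | 9 => D
    | 10 => L
    | _ => 0 := ⟨_, rfl⟩
  obtain ⟨f, hf⟩ : ∃ f : ℕ → ℕ → ℕ, f = fun c i => match c with
    | 0 => if i = 0 then bud else if i = 1 then 6 else if i = 2 then o2 else if i = 3 then o3
        else if i = 4 then W else o8
    | 1 => (datOf n k D E (rv E) hER).rcd o4 o6 (i / 5) (i % 5)
    | 2 => (datOf n k D (rv E) E hER).rcd o5 o7 (i / 5) (i % 5)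
    | 3 => if i % 2 = 0 then (i / 2) / D else (i / 2) % D
    | 4 => gF i
    | 5 => gB i
    | 6 => tF' i
    | 7 => tB' i
    | 8 => ptrv n D W Low o9 o10 i
    | 9 => 0
    | 10 => gL i
    | _ => 0 := ⟨_, rfl⟩
  have hbud' : bud ≤ bud * n := Nat.le_mul_of_pos_right _ hn
  have hbud'' : bud < 2 ^ w := by
    rw [← hbuddef] at hbud
    omega
  have hWS : W ≤ nW := by rw [hnW]; exact Nat.le_mul_of_pos_left _ hn
  have hrcd : ∀ (d : Dat n) (O T x c : ℕ), x < n → O + ∑ y ∈ Finset.range n, d.deg y ≤ S →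
      T + ∑ y ∈ Finset.range n, d.cnt y ≤ S → d.cnt x ≤ n → d.rank x ≤ n →
      d.rcd O T x c < 2 ^ w := by
    intro d O T x c hx h1 h2 h3 h4
    have h5 := prefix_le d.deg hx
    have h6 := prefix_le d.cnt hx
    have h7 := d.small x hx
    unfold Dat.rcd
    split_ifs <;> omega
  have hfb : ∀ c < 11, ∀ i < lens c, f c i < 2 ^ w := by
    intro c hc i hi
    rw [hlens] at hi
    rw [hf]
    interval_cases c
    · show (if i = 0 then bud else if i = 1 then 6 else if i = 2 then o2 else if i = 3 then o3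
        else if i = 4 then W else o8) < 2 ^ w
      split_ifs <;> omega
    · have hi' : i < 5 * n := hi
      exact hrcd _ _ _ _ _ (by omega)
        (by show o4 + ∑ y ∈ Finset.range n, dg n E y ≤ S; omega)
        (by show o6 + ∑ y ∈ Finset.range n, ct n D E (rv E) y ≤ S; omega)
        (ct_le n D E (rv E) _) (rk_lt n E (by omega)).le
    · have hi' : i < 5 * n := hi
      exact hrcd _ _ _ _ _ (by omega)
        (by show o5 + ∑ y ∈ Finset.range n, dg n (rv E) y ≤ S; omega)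
        (by show o7 + ∑ y ∈ Finset.range n, ct n D (rv E) E y ≤ S; omega)
        (ct_le n D (rv E) E _) (rk_lt n (rv E) (by omega)).le
    · have hi' : i < 2 * n := hi
      show (if i % 2 = 0 then (i / 2) / D else (i / 2) % D) < 2 ^ w
      split_ifs
      · have := Nat.div_le_self (i / 2) D
        omega
      · have := Nat.mod_le (i / 2) D
        omega
    · exact gF1 i
    · exact gB1 i
    · exact tF1 i
    · exact tB1 i
    · have hi' : i < nW := hi
      show ptrv n D W Low o9 o10 i < 2 ^ w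
      have := prefix_le (len n D W Low) hi'
      unfold ptrv
      split_ifs <;> omega
    · show 0 < 2 ^ w
      omega
    · exact gL1 i
  obtain ⟨m, hm1, hm2, hm3⟩ := exists_concat lens f (2 ^ w) (by omega) 11 hfb
  have p0 : ∑ y ∈ Finset.range 0, lens y = 0 := by simp
  have l0 : lens 0 = 6 := congrFun hlens 0
  have l1 : lens 1 = 5 * n := congrFun hlens 1
  have l2 : lens 2 = 5 * n := congrFun hlens 2
  have l3 : lens 3 = 2 * n := congrFun hlens 3
  have l4 : lens 4 = sF := congrFun hlens 4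
  have l5 : lens 5 = sB := congrFun hlens 5
  have l6 : lens 6 = cF := congrFun hlens 6
  have l7 : lens 7 = cB := congrFun hlens 7
  have l8 : lens 8 = nW := congrFun hlens 8
  have l9 : lens 9 = D := congrFun hlens 9
  have l10 : lens 10 = L := congrFun hlens 10
  have p1 : ∑ y ∈ Finset.range 1, lens y = 6 :=
    (Finset.sum_range_succ lens 0).trans (by omega)
  have p2 : ∑ y ∈ Finset.range 2, lens y = o2 :=
    (Finset.sum_range_succ lens 1).trans (by omega)
  have p3 : ∑ y ∈ Finset.range 3, lens y = o3 :=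
    (Finset.sum_range_succ lens 2).trans (by omega)
  have p4 : ∑ y ∈ Finset.range 4, lens y = o4 :=
    (Finset.sum_range_succ lens 3).trans (by omega)
  have p5 : ∑ y ∈ Finset.range 5, lens y = o5 :=
    (Finset.sum_range_succ lens 4).trans (by omega)
  have p6 : ∑ y ∈ Finset.range 6, lens y = o6 :=
    (Finset.sum_range_succ lens 5).trans (by omega)
  have p7 : ∑ y ∈ Finset.range 7, lens y = o7 :=
    (Finset.sum_range_succ lens 6).trans (by omega)
  have p8 : ∑ y ∈ Finset.range 8, lens y = o8 :=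
    (Finset.sum_range_succ lens 7).trans (by omega)
  have p9 : ∑ y ∈ Finset.range 9, lens y = o9 :=
    (Finset.sum_range_succ lens 8).trans (by omega)
  have p10 : ∑ y ∈ Finset.range 10, lens y = o10 :=
    (Finset.sum_range_succ lens 9).trans (by omega)
  have p11 : ∑ y ∈ Finset.range 11, lens y = o10 + L :=
    (Finset.sum_range_succ lens 10).trans (by omega)
  have q0 : ∀ i < 6, m i = f 0 i := by
    intro i hi
    have := hm3 0 (by norm_num) i (by rw [hlens]; exact hi)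
    rwa [p0, Nat.zero_add] at this
  have q1 : ∀ i < 5 * n, m (6 + i) = f 1 i := by
    intro i hi
    have := hm3 1 (by norm_num) i (by rw [hlens]; exact hi)
    rwa [p1] at this
  have q2 : ∀ i < 5 * n, m (o2 + i) = f 2 i := by
    intro i hi
    have := hm3 2 (by norm_num) i (by rw [hlens]; exact hi)
    rwa [p2] at this
  have q3 : ∀ i < 2 * n, m (o3 + i) = f 3 i := by
    intro i hi
    have := hm3 3 (by norm_num) i (by rw [hlens]; exact hi)
    rwa [p3] at this
  have q4 : ∀ i < sF, m (o4 + i) = gF i := by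
    intro i hi
    have := hm3 4 (by norm_num) i (by rw [hlens]; exact hi)
    rw [p4, hf] at this
    exact this
  have q5 : ∀ i < sB, m (o5 + i) = gB i := by
    intro i hi
    have := hm3 5 (by norm_num) i (by rw [hlens]; exact hi)
    rw [p5, hf] at this
    exact this
  have q6 : ∀ i < cF, m (o6 + i) = tF' i := by
    intro i hi
    have := hm3 6 (by norm_num) i (by rw [hlens]; exact hi)
    rw [p6, hf] at this
    exact this
  have q7 : ∀ i < cB, m (o7 + i) = tB' i := by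
    intro i hi
    have := hm3 7 (by norm_num) i (by rw [hlens]; exact hi)
    rw [p7, hf] at this
    exact this
  have q8 : ∀ i < nW, m (o8 + i) = ptrv n D W Low o9 o10 i := by
    intro i hi
    have := hm3 8 (by norm_num) i (by rw [hlens]; exact hi)
    rw [p8, hf] at this
    exact this
  have q9 : ∀ i < D, m (o9 + i) = 0 := by
    intro i hi
    have := hm3 9 (by norm_num) i (by rw [hlens]; exact hi)
    rw [p9, hf] at this
    exact this
  have q10 : ∀ i < L, m (o10 + i) = gL i := by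
    intro i hi
    have := hm3 10 (by norm_num) i (by rw [hlens]; exact hi)
    rw [p10, hf] at this
    exact this
  -- the blocks
  obtain ⟨F, hFA, hFd, hFc, hFn, hFt, hFr⟩ : ∃ F : Blk n w S m, F.A = 6 ∧ F.deg = dg n E ∧
      F.cnt = ct n D E (rv E) ∧ F.nbr = nbrs n E ∧ F.tab = tb n k E (rv E) ∧
      F.rank = rk n E := by
    refine ⟨mkBlk (datOf n k D E (rv E) hER) 6 o4 o6 hSw (by omega)
      (by show o4 + ∑ y ∈ Finset.range n, dg n E y ≤ S; omega)
      (by show o6 + ∑ y ∈ Finset.range n, ct n D E (rv E) y ≤ S; omega) ?_ ?_ ?_,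
      rfl, rfl, rfl, rfl, rfl, rfl⟩
    · intro i hi
      exact (q1 i hi).trans (congrFun (congrFun hf 1) i)
    · intro x hx i hi
      have h1 : ∑ y ∈ Finset.range x, dg n E y + i < sF := by
        rw [hsFd]
        exact prefix_lt (dg n E) hx hi
      exact (q4 _ h1).trans (gF3 x hx i hi)
    · intro x hx i hi
      have h1 : ∑ y ∈ Finset.range x, ct n D E (rv E) y + i < cF := by
        rw [hcFd]
        exact prefix_lt (ct n D E (rv E)) hx hi
      exact (q6 _ h1).trans (tF3 x hx i hi)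
  obtain ⟨B, hBA, hBd, hBc, hBn, hBt, hBr⟩ : ∃ B : Blk n w S m, B.A = o2 ∧
      B.deg = dg n (rv E) ∧ B.cnt = ct n D (rv E) E ∧ B.nbr = nbrs n (rv E) ∧
      B.tab = tb n k (rv E) E ∧ B.rank = rk n (rv E) := by
    refine ⟨mkBlk (datOf n k D (rv E) E hER) o2 o5 o7 hSw (by omega)
      (by show o5 + ∑ y ∈ Finset.range n, dg n (rv E) y ≤ S; omega)
      (by show o7 + ∑ y ∈ Finset.range n, ct n D (rv E) E y ≤ S; omega) ?_ ?_ ?_,
      rfl, rfl, rfl, rfl, rfl, rfl⟩
    · intro i hi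
      exact (q2 i hi).trans (congrFun (congrFun hf 2) i)
    · intro x hx i hi
      have h1 : ∑ y ∈ Finset.range x, dg n (rv E) y + i < sB := by
        rw [hsBd]
        exact prefix_lt (dg n (rv E)) hx hi
      exact (q5 _ h1).trans (gB3 x hx i hi)
    · intro x hx i hi
      have h1 : ∑ y ∈ Finset.range x, ct n D (rv E) E y + i < cB := by
        rw [hcBd]
        exact prefix_lt (ct n D (rv E) E) hx hi
      exact (q7 _ h1).trans (tB3 x hx i hi)
  obtain ⟨d, hdZ, hdW, hdQ⟩ : ∃ d : Dic n w S m Low, d.Z = o3 ∧ d.W = W ∧ d.Q = o8 := by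
    refine ⟨mkDic Low D W o3 o8 o9 o10 hDpos (by omega) (by omega) (by omega) (by omega)
      (by rw [← hnW, ← hLd]; exact hend) ?_ ?_ q9 ?_, rfl, rfl, rfl⟩
    · intro i hi
      exact (q3 i hi).trans (congrFun (congrFun hf 3) i)
    · intro c hc
      rw [← hnW] at hc
      exact q8 c hc
    · intro c hc i hi
      rw [← hnW] at hc
      have h1 : ∑ y ∈ Finset.range c, len n D W Low y + i < L := by
        rw [hLd]
        exact prefix_lt (len n D W Low) hc hi
      exact (q10 _ h1).trans (gL3 c hc i hi)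
  have hgood : Good E k (M ^ k) F B := by
    rw [← hD]
    exact good_of E hER hEn2 F B hFd hFc hFn hFt hBd hBr
  have hgood' : Good (fun a b => E b a) k (M ^ k) B F := by
    rw [← hD]
    exact good_of (rv E) hER (fun x y h => hEn1 y x h) B F hBd hBc hBn hBt hFd hFr
  refine ⟨m, hm1, fun a ha => hm2 a (by rw [p11]; omega), ?_⟩
  intro u v
  obtain ⟨e, heF, heB, hebud, het⟩ : ∃ e : Env n w S m, e.F = F ∧ e.B = B ∧ e.bud = bud ∧
      e.t = v.val := by
    refine ⟨⟨F, B, bud, v.val, v.2, hSw.le, h8, ?_, ?_⟩, rfl, rfl, rfl, rfl⟩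
    · rw [hbuddef]
      exact hbud
    · rw [hbuddef]
      exact Nat.pow_pos hM
  have hq := exec_query e d k u.val u.2 (by omega)
    (by rw [q0 0 (by norm_num), hf, hebud]; rfl) (by rw [q0 1 (by norm_num), hf, heF, hFA]; rfl)
    (by rw [q0 2 (by norm_num), hf, heB, hBA]; rfl) (by rw [q0 3 (by norm_num), hf, hdZ]; rfl)
    (by rw [q0 4 (by norm_num), hf, hdW]; rfl) (by rw [q0 5 (by norm_num), hf, hdQ]; rfl)
    (by omega)
  obtain ⟨t, σ, ht, hrun, hmem, hans⟩ := hq
  rw [hebud, hbuddef] at ht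
  rw [het] at hrun hans
  refine ⟨t, σ, ht, hrun, hmem, ?_, ?_⟩
  · -- completeness
    intro hr
    rw [reach_iff, ← hEdef] at hr
    rw [hans, if_pos]
    obtain ⟨x, hx0, hxk, hxE⟩ := hr.seq
    by_cases hall : ∀ p, 0 < p → p < k → low n D E (x p)
    · right
      rw [hLow]
      have := Lw.of_seq x k hxE hall (k - 1) 0 (by omega)
      rw [show 0 + (k - 1) + 1 = k by omega, hx0, hxk] at this
      exact this
    · left
      push Not at hall
      obtain ⟨p, hp0, hpk, hp⟩ := hall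
      have hxn : ∀ i ≤ k, x i < n := by
        intro i hi
        rcases Nat.lt_or_ge i k with h1 | h1
        · exact hEn1 _ _ (hxE i h1)
        · have : i = k := by omega
          rw [this, hxk]
          exact v.2
      have hsup : M ^ k ≤ e.F.deg (x p) ∨ M ^ k ≤ e.B.deg (x p) := by
        rw [heF, heB, hFd, hBd, ← hD]
        unfold low at hp
        by_contra hc
        push Not at hc
        exact hp hc
      have hfd := found (E := E) (k := k) (M := M) e (by rw [heF, heB]; exact hgood)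
        (by rw [heF, heB]; exact hgood') hM (by rw [hebud, hbuddef]) x hxn hxE
        (by rw [hxk, het]) p hp0 hpk hsup
      rw [hx0] at hfd
      exact hfd
  · -- soundness
    intro hr
    rw [reach_iff, ← hEdef] at hr
    rw [hans, if_neg]
    rintro (h1 | h1)
    · apply hr
      have := Fh_sound e (by rw [heF, heB]; exact hgood) (by rw [heF, heB]; exact hgood') k
        u.val 1 u.2 le_rfl h1
      rw [het] at this
      exact this
    · apply hr
      rw [hLow] at h1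
      have := h1.wk
      rwa [show k - 1 + 1 = k by omega] at this

end Pool.Agent.V5helper16.KR
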