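import Pool.Agent.V5helper16.KR.Tradeoff

/-! Asymptotics. -/

open Classical Filter

namespace Pool.Agent.V5helper16.KR

/-- the parameter `M` -/
noncomputable def Mn (ε : ℝ) (n : ℕ) : ℕ := ⌊(n : ℝ) ^ ε⌋₊

theorem Mn_le (ε : ℝ) (n : ℕ) : (Mn ε n : ℝ) ≤ (n : ℝ) ^ ε :=
  Nat.floor_le (Real.rpow_nonneg (Nat.cast_nonneg n) ε)

theorem Mn_pos {ε : ℝ} (hε : 0 < ε) {n : ℕ} (hn : 1 ≤ n) : 1 ≤ Mn ε n := by
  unfold Mn
  rw [Nat.one_le_floor_iff]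
  exact Real.one_le_rpow (by exact_mod_cast hn) hε.le

theorem Mn_ge {ε : ℝ} (hε : 0 < ε) {n : ℕ} (hn : 1 ≤ n) : (n : ℝ) ^ ε ≤ 2 * Mn ε n := by
  have h1 : (n : ℝ) ^ ε < Mn ε n + 1 := Nat.lt_floor_add_one _
  have h2 : (1 : ℝ) ≤ Mn ε n := by exact_mod_cast Mn_pos hε hn
  linarith

/-- constants are absorbed by powers of `n` -/
theorem ev_const (A : ℝ) {ε : ℝ} (hε : 0 < ε) : ∀ᶠ n : ℕ in atTop, A ≤ (n : ℝ) ^ ε :=
  ((tendsto_rpow_atTop hε).comp tendsto_natCast_atTop_atTop).eventually_ge_atTop A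

theorem asym (k : ℕ) (hk : 3 ≤ k) (C : ℕ) (δ : ℝ) (hδ : 0 < δ) :
    ∃ (S T : ℕ → ℕ) (c η : ℝ), 0 < η ∧ ∀ᶠ n : ℕ in atTop,
      Solves k C n (4 * (Nat.log 2 n + 1)) (S n) (T n) (query k) ∧
      (T n : ℝ) ≤ (n : ℝ) ^ δ ∧
      (S n : ℝ) * (T n : ℝ) ^ ((k : ℝ) / ((k ^ 2 / 4 : ℕ) : ℝ)) ≤ c * (n : ℝ) ^ 2 ∧
      (S n : ℝ) * (T n : ℝ) ^ (2 / ((k : ℝ) - 1)) ≤ (n : ℝ) ^ (2 - η) := by
  obtain ⟨e, he⟩ : ∃ e, e = k ^ 2 / 4 := ⟨_, rfl⟩
  have he1 : 1 ≤ e := by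
    rw [he, Nat.le_div_iff_mul_le (by norm_num)]
    nlinarith
  have he2 : 2 * e < k * (k - 1) := by
    obtain ⟨j, rfl⟩ : ∃ j, k = j + 3 := ⟨k - 3, by omega⟩
    have h1 : e * 4 ≤ (j + 3) ^ 2 := by rw [he]; exact Nat.div_mul_le_self _ _
    have h2 : j + 3 - 1 = j + 2 := by omega
    rw [h2]
    nlinarith
  have heR : (1 : ℝ) ≤ e := by exact_mod_cast he1
  have hkR : (3 : ℝ) ≤ k := by exact_mod_cast hk
  have he2R : 2 * (e : ℝ) < k * ((k : ℝ) - 1) := by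
    have h1 : ((2 * e : ℕ) : ℝ) < ((k * (k - 1) : ℕ) : ℝ) := by exact_mod_cast he2
    rw [Nat.cast_mul, Nat.cast_mul, Nat.cast_sub (by omega)] at h1
    simpa using h1
  rw [← he]
  -- the exponent of `M`
  obtain ⟨ε, hεdef⟩ : ∃ ε : ℝ, ε = min (δ / (2 * e)) (1 / (k * (k + 1))) := ⟨_, rfl⟩
  have hε : 0 < ε := by
    rw [hεdef]
    apply lt_min <;> positivity
  have hε1 : ε * e ≤ δ / 2 := by
    have h1 : ε ≤ δ / (2 * e) := by rw [hεdef]; exact min_le_left _ _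
    calc ε * e ≤ δ / (2 * e) * e := mul_le_mul_of_nonneg_right h1 (by positivity)
      _ = δ / 2 := by field_simp
  have hε2 : ε * (k * (k + 1)) ≤ 1 := by
    have h1 : ε ≤ 1 / (k * (k + 1)) := by rw [hεdef]; exact min_le_right _ _
    calc ε * (k * (k + 1)) ≤ 1 / (k * (k + 1)) * (k * (k + 1)) :=
          mul_le_mul_of_nonneg_right h1 (by positivity)
      _ = 1 := by field_simp
  -- the gap of the exponents
  obtain ⟨γ, hγdef⟩ : ∃ γ : ℝ, γ = (k : ℝ) / e - 2 / ((k : ℝ) - 1) := ⟨_, rfl⟩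
  have hγ : 0 < γ := by
    rw [hγdef, sub_pos, div_lt_div_iff₀ (by linarith) (by linarith)]
    linarith
  obtain ⟨cS, hcS⟩ : ∃ cS : ℝ, cS = 32 * ((C : ℝ) + 1) ^ 2 := ⟨_, rfl⟩
  obtain ⟨cT, hcT⟩ : ∃ cT : ℝ, cT = 100 * ((k : ℝ) + 1) ^ 2 := ⟨_, rfl⟩
  have hcS1 : 1 ≤ cS := by
    rw [hcS]
    have : (0 : ℝ) ≤ C := Nat.cast_nonneg C
    nlinarith
  have hcT1 : 1 ≤ cT := by
    rw [hcT]
    nlinarith
  obtain ⟨c, hc⟩ : ∃ c : ℝ, c = cS * cT ^ ((k : ℝ) / e) := ⟨_, rfl⟩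
  have hcpos : 0 < c := by
    rw [hc]
    have : 0 < cT := by linarith
    positivity
  refine ⟨fun n => 32 * (C + 1) ^ 2 * (n ^ 2 / Mn ε n ^ k),
    fun n => 100 * (k + 1) ^ 2 * Mn ε n ^ e, c, γ * ε / 4, by positivity, ?_⟩
  filter_upwards [eventually_ge_atTop (6 * (C + 1) + k + 8), ev_const cT (half_pos hδ),
    ev_const 2 (half_pos hε), ev_const c (show 0 < γ * ε / 4 by positivity)]
    with n hn hnT hn2 hnc
  have hn1 : 1 ≤ n := by omega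
  have hn0 : (0 : ℝ) < n := by exact_mod_cast hn1
  have hn1R : (1 : ℝ) ≤ n := by exact_mod_cast hn1
  have hM1 := Mn_pos hε hn1
  have hM1R : (1 : ℝ) ≤ Mn ε n := by exact_mod_cast hM1
  have hMle := Mn_le ε n
  have hMge := Mn_ge hε hn1
  have hM0 : (0 : ℝ) < Mn ε n := by linarith
  obtain ⟨M, hM⟩ : ∃ M, M = Mn ε n := ⟨_, rfl⟩
  rw [← hM] at hM1 hM1R hMle hMge hM0 ⊢
  have hMn : M ^ (k * (k + 1)) ≤ n := by
    have h1 : ((M ^ (k * (k + 1)) : ℕ) : ℝ) ≤ n := by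
      rw [Nat.cast_pow]
      calc (M : ℝ) ^ (k * (k + 1)) ≤ ((n : ℝ) ^ ε) ^ (k * (k + 1)) :=
            pow_le_pow_left₀ hM0.le hMle _
        _ = (n : ℝ) ^ (ε * (k * (k + 1))) := by
            rw [← Real.rpow_natCast, ← Real.rpow_mul hn0.le]
            push_cast
            ring_nf
        _ ≤ (n : ℝ) ^ (1 : ℝ) := Real.rpow_le_rpow_of_exponent_le hn1R hε2
        _ = n := Real.rpow_one _
    exact_mod_cast h1
  have hT : ((100 * (k + 1) ^ 2 * M ^ e : ℕ) : ℝ) = cT * (M : ℝ) ^ e := by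
    rw [hcT]
    push_cast
    ring
  have hTpos : 0 < cT * (M : ℝ) ^ e := by
    have : 0 < cT := by linarith
    positivity
  have hSle : ((32 * (C + 1) ^ 2 * (n ^ 2 / M ^ k) : ℕ) : ℝ) ≤ cS * ((n : ℝ) ^ 2 / (M : ℝ) ^ k) := by
    rw [hcS]
    push_cast
    refine mul_le_mul_of_nonneg_left ?_ (by positivity)
    have := @Nat.cast_div_le ℝ _ _ _ (n ^ 2) (M ^ k)
    push_cast at this
    exact this
  have hkey : ((32 * (C + 1) ^ 2 * (n ^ 2 / M ^ k) : ℕ) : ℝ) *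
      ((100 * (k + 1) ^ 2 * M ^ e : ℕ) : ℝ) ^ ((k : ℝ) / (e : ℝ)) ≤ c * (n : ℝ) ^ 2 := by
    rw [hT, Real.mul_rpow (by linarith) (by positivity)]
    have h1 : ((M : ℝ) ^ e) ^ ((k : ℝ) / (e : ℝ)) = (M : ℝ) ^ k := by
      rw [← Real.rpow_natCast, ← Real.rpow_mul hM0.le, ← Real.rpow_natCast]
      congr 1
      field_simp
    rw [h1, hc]
    have h2 : (0 : ℝ) < (M : ℝ) ^ k := by positivity
    calc ((32 * (C + 1) ^ 2 * (n ^ 2 / M ^ k) : ℕ) : ℝ) * (cT ^ ((k : ℝ) / e) * (M : ℝ) ^ k) ≤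
          cS * ((n : ℝ) ^ 2 / (M : ℝ) ^ k) * (cT ^ ((k : ℝ) / e) * (M : ℝ) ^ k) := by
            refine mul_le_mul_of_nonneg_right hSle ?_
            have : 0 < cT := by linarith
            positivity
      _ = cS * cT ^ ((k : ℝ) / e) * (n : ℝ) ^ 2 := by
            field_simp
  refine ⟨?_, ?_, hkey, ?_⟩
  · have := tradeoff k C n M (by omega) hM1 hMn hn
    rw [← he] at this
    exact this
  · rw [hT]
    calc cT * (M : ℝ) ^ e ≤ (n : ℝ) ^ (δ / 2) * ((n : ℝ) ^ ε) ^ e := by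
          refine mul_le_mul hnT (pow_le_pow_left₀ hM0.le hMle _) (by positivity) (by positivity)
      _ = (n : ℝ) ^ (δ / 2) * (n : ℝ) ^ (ε * e) := by
          rw [← Real.rpow_natCast ((n : ℝ) ^ ε), ← Real.rpow_mul hn0.le]
      _ ≤ (n : ℝ) ^ (δ / 2) * (n : ℝ) ^ (δ / 2) :=
          mul_le_mul_of_nonneg_left (Real.rpow_le_rpow_of_exponent_le hn1R hε1) (by positivity)
      _ = (n : ℝ) ^ δ := by
          rw [← Real.rpow_add hn0]
          congr 1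
          ring
  · -- the conjectured bound fails
    obtain ⟨T, hTdef⟩ : ∃ T : ℝ, T = ((100 * (k + 1) ^ 2 * M ^ e : ℕ) : ℝ) := ⟨_, rfl⟩
    obtain ⟨S, hSdef⟩ : ∃ S : ℝ, S = ((32 * (C + 1) ^ 2 * (n ^ 2 / M ^ k) : ℕ) : ℝ) := ⟨_, rfl⟩
    rw [← hTdef, ← hSdef] at hkey ⊢
    have hS0 : 0 ≤ S := by rw [hSdef]; exact Nat.cast_nonneg _
    have hTge : (n : ℝ) ^ (ε / 2) ≤ T := by
      have h1 : (M : ℝ) ≤ T := by
        rw [hTdef, hT]
        calc (M : ℝ) = 1 * (M : ℝ) ^ 1 := by ring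
          _ ≤ cT * (M : ℝ) ^ e :=
            mul_le_mul hcT1 (pow_le_pow_right₀ hM1R he1) (by positivity) (by linarith)
      have h2 : (n : ℝ) ^ ε = (n : ℝ) ^ (ε / 2) * (n : ℝ) ^ (ε / 2) := by
        rw [← Real.rpow_add hn0]
        congr 1
        ring
      have h3 : 2 * (n : ℝ) ^ (ε / 2) ≤ (n : ℝ) ^ (ε / 2) * (n : ℝ) ^ (ε / 2) :=
        mul_le_mul_of_nonneg_right hn2 (by positivity)
      linarith
    have hT0 : 0 < T := by
      have : (0 : ℝ) < (n : ℝ) ^ (ε / 2) := by positivity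
      linarith
    have h1 : T ^ (2 / ((k : ℝ) - 1)) = T ^ ((k : ℝ) / e) * T ^ (-γ) := by
      rw [← Real.rpow_add hT0]
      congr 1
      rw [hγdef]
      ring
    have h2 : T ^ (-γ) ≤ (n : ℝ) ^ (-(γ * ε / 2)) := by
      calc T ^ (-γ) ≤ ((n : ℝ) ^ (ε / 2)) ^ (-γ) :=
            Real.rpow_le_rpow_of_nonpos (by positivity) hTge (by linarith)
        _ = (n : ℝ) ^ (-(γ * ε / 2)) := by
            rw [← Real.rpow_mul hn0.le]
            congr 1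
            ring
    calc S * T ^ (2 / ((k : ℝ) - 1)) = S * T ^ ((k : ℝ) / e) * T ^ (-γ) := by
          rw [h1]
          ring
      _ ≤ c * (n : ℝ) ^ 2 * (n : ℝ) ^ (-(γ * ε / 2)) :=
          mul_le_mul hkey h2 (by positivity) (by positivity)
      _ ≤ (n : ℝ) ^ (γ * ε / 4) * (n : ℝ) ^ 2 * (n : ℝ) ^ (-(γ * ε / 2)) := by
          refine mul_le_mul_of_nonneg_right (mul_le_mul_of_nonneg_right hnc (by positivity))
            (by positivity)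
      _ = (n : ℝ) ^ (2 - γ * ε / 4) := by
          rw [← Real.rpow_natCast (n : ℝ) 2, ← Real.rpow_add hn0, ← Real.rpow_add hn0]
          congr 1
          push_cast
          ring

end Pool.Agent.V5helper16.KR
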