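import Mathlib

/-! The staircase inequality. -/

namespace Pool.Agent.V5helper16.KR

/-- the length of the overlap of two intervals -/
noncomputable def ov (a b c d : ℝ) : ℝ := max 0 (min b d - max a c)

theorem ov_nonneg (a b c d : ℝ) : 0 ≤ ov a b c d := le_max_left _ _

theorem ov_eq (a b c d : ℝ) (hab : a ≤ b) (hcd : c ≤ d) :
    ov a b c d = max a (min b d) - max a (min b c) := by
  unfold ov
  rcases le_total b d with h1 | h1 <;> rcases le_total b c with h2 | h2 <;>
  rcases le_total a c with h3 | h3 <;> rcases le_total a d with h4 | h4 <;>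
  simp [h1, h2, h3, h4, hab, hcd] <;> linarith

theorem ov_symm (a b c d τ : ℝ) : ov a b (τ - d) (τ - c) = ov c d (τ - b) (τ - a) := by
  unfold ov
  congr 1
  rcases le_total b (τ - c) with h1 | h1 <;> rcases le_total a (τ - d) with h2 | h2
  · rw [min_eq_left h1, max_eq_right h2, min_eq_left (by linarith), max_eq_right (by linarith)]
    ring
  · rw [min_eq_left h1, max_eq_left h2, min_eq_right (by linarith), max_eq_right (by linarith)]
    ring
  · rw [min_eq_right h1, max_eq_right h2, min_eq_left (by linarith), max_eq_left (by linarith)]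
    ring
  · rw [min_eq_right h1, max_eq_left h2, min_eq_right (by linarith), max_eq_left (by linarith)]
    ring

theorem sum_ov (V : ℕ → ℝ) (hV : ∀ l, V l ≤ V (l + 1)) (h0 : V 0 = 0) (q : ℕ) (τ : ℝ)
    (hq : τ < V q) (a b : ℝ) (hab : a ≤ b) (ha : 0 ≤ a) :
    ∑ l ∈ Finset.range q, ov a b (τ - V (l + 1)) (τ - V l) = min b τ - min a τ := by
  have h1 : ∀ l ∈ Finset.range q, ov a b (τ - V (l + 1)) (τ - V l) =
      max a (min b (τ - V l)) - max a (min b (τ - V (l + 1))) := by
    intro l _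
    exact ov_eq a b _ _ hab (by linarith [hV l])
  rw [Finset.sum_congr rfl h1, Finset.sum_range_sub', h0, sub_zero]
  have h2 : max a (min b (τ - V q)) = a := by
    apply max_eq_left
    exact (min_le_right _ _).trans (by linarith)
  rw [h2]
  rcases le_total a τ with h3 | h3
  · rw [min_eq_left h3, max_eq_right (le_min hab h3)]
  · rw [min_eq_right h3, max_eq_left ((min_le_right _ _).trans h3), min_eq_right (h3.trans hab)]
    ring

theorem stair (p q : ℕ) (u v : ℕ → ℝ) (hu : ∀ i, 0 ≤ u i) (hv : ∀ l, 0 ≤ v l) (τ Δ : ℝ)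
    (hτ : 0 ≤ τ) (hU : τ < ∑ i ∈ Finset.range p, u i) (hV : τ < ∑ l ∈ Finset.range q, v l)
    (h : ∀ i < p, ∀ l < q, ∑ i' ∈ Finset.range i, u i' + ∑ l' ∈ Finset.range l, v l' ≤ τ →
      u i + v l < Δ) :
    τ * (p + q) < Δ * (p * q) := by
  obtain ⟨U, hUdef⟩ : ∃ U : ℕ → ℝ, U = fun i => ∑ i' ∈ Finset.range i, u i' := ⟨_, rfl⟩
  obtain ⟨V, hVdef⟩ : ∃ V : ℕ → ℝ, V = fun i => ∑ i' ∈ Finset.range i, v i' := ⟨_, rfl⟩
  have hUs : ∀ i, U (i + 1) = U i + u i := fun i => by rw [hUdef]; exact Finset.sum_range_succ _ _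
  have hVs : ∀ i, V (i + 1) = V i + v i := fun i => by rw [hVdef]; exact Finset.sum_range_succ _ _
  have hU0 : U 0 = 0 := by rw [hUdef]; simp
  have hV0 : V 0 = 0 := by rw [hVdef]; simp
  have hUp : τ < U p := by rw [hUdef]; exact hU
  have hVq : τ < V q := by rw [hVdef]; exact hV
  have hUm : ∀ i, U i ≤ U (i + 1) := fun i => by rw [hUs]; linarith [hu i]
  have hVm : ∀ i, V i ≤ V (i + 1) := fun i => by rw [hVs]; linarith [hv i]
  have hUn : ∀ i, 0 ≤ U i := fun i => by rw [hUdef]; exact Finset.sum_nonneg fun _ _ => hu _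
  have hVn : ∀ i, 0 ≤ V i := fun i => by rw [hVdef]; exact Finset.sum_nonneg fun _ _ => hv _
  have h' : ∀ i < p, ∀ l < q, U i + V l ≤ τ → u i + v l < Δ := by
    rw [hUdef, hVdef]
    exact h
  have hp : 0 < p := by
    rcases Nat.eq_zero_or_pos p with h1 | h1
    · rw [h1, hU0] at hUp
      linarith
    · exact h1
  have hq : 0 < q := by
    rcases Nat.eq_zero_or_pos q with h1 | h1
    · rw [h1, hV0] at hVq
      linarith
    · exact h1
  have hp' : (0 : ℝ) < p := by exact_mod_cast hp
  have hq' : (0 : ℝ) < q := by exact_mod_cast hq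
  rcases hτ.eq_or_lt with hτ0 | hτ0
  · have h1 := h' 0 hp 0 hq (by rw [hU0, hV0, ← hτ0]; norm_num)
    have h2 : 0 < Δ := by linarith [hu 0, hv 0]
    rw [← hτ0, zero_mul]
    positivity
  -- the weights
  obtain ⟨W, hW⟩ : ∃ W : ℕ → ℕ → ℝ, W = fun i l =>
    ov (U i) (U (i + 1)) (τ - V (l + 1)) (τ - V l) := ⟨_, rfl⟩
  have hWn : ∀ i l, 0 ≤ W i l := fun i l => by rw [hW]; exact ov_nonneg _ _ _ _
  have hWi : ∀ i, ∑ l ∈ Finset.range q, W i l = min (U (i + 1)) τ - min (U i) τ := by
    intro i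
    rw [hW]
    exact sum_ov V hVm hV0 q τ hVq (U i) (U (i + 1)) (hUm i) (hUn i)
  have hWl : ∀ l, ∑ i ∈ Finset.range p, W i l = min (V (l + 1)) τ - min (V l) τ := by
    intro l
    rw [← sum_ov U hUm hU0 p τ hUp (V l) (V (l + 1)) (hVm l) (hVn l), hW]
    exact Finset.sum_congr rfl fun i _ => ov_symm _ _ _ _ _
  have hWi' : ∀ i, ∑ l ∈ Finset.range q, W i l ≤ u i := by
    intro i
    rw [hWi]
    have := hUs i
    rcases le_total (U i) τ with h1 | h1
    · rw [min_eq_left h1]
      linarith [min_le_left (U (i + 1)) τ]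
    · rw [min_eq_right h1]
      linarith [min_le_right (U (i + 1)) τ, hu i]
  have hWl' : ∀ l, ∑ i ∈ Finset.range p, W i l ≤ v l := by
    intro l
    rw [hWl]
    have := hVs l
    rcases le_total (V l) τ with h1 | h1
    · rw [min_eq_left h1]
      linarith [min_le_left (V (l + 1)) τ]
    · rw [min_eq_right h1]
      linarith [min_le_right (V (l + 1)) τ, hv l]
  have hWtot : ∑ i ∈ Finset.range p, ∑ l ∈ Finset.range q, W i l = τ := by
    rw [Finset.sum_congr rfl fun i _ => hWi i, Finset.sum_range_sub (fun i => min (U i) τ), hU0,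
      min_eq_right hUp.le, min_eq_left hτ]
    ring
  have hWtot' : ∑ l ∈ Finset.range q, ∑ i ∈ Finset.range p, W i l = τ := by
    rw [Finset.sum_comm]
    exact hWtot
  -- the lower bound
  have hA : τ ^ 2 / p ≤ ∑ i ∈ Finset.range p, (∑ l ∈ Finset.range q, W i l) * u i := by
    have h1 : (∑ i ∈ Finset.range p, ∑ l ∈ Finset.range q, W i l) ^ 2 ≤
        p * ∑ i ∈ Finset.range p, (∑ l ∈ Finset.range q, W i l) ^ 2 := by
      have := sq_sum_le_card_mul_sum_sq (s := Finset.range p)
        (f := fun i => ∑ l ∈ Finset.range q, W i l)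
      simpa using this
    rw [hWtot] at h1
    rw [div_le_iff₀ hp', mul_comm]
    refine h1.trans (mul_le_mul_of_nonneg_left (Finset.sum_le_sum fun i _ => ?_) hp'.le)
    rw [sq]
    exact mul_le_mul_of_nonneg_left (hWi' i) (Finset.sum_nonneg fun l _ => hWn i l)
  have hB : τ ^ 2 / q ≤ ∑ l ∈ Finset.range q, (∑ i ∈ Finset.range p, W i l) * v l := by
    have h1 : (∑ l ∈ Finset.range q, ∑ i ∈ Finset.range p, W i l) ^ 2 ≤
        q * ∑ l ∈ Finset.range q, (∑ i ∈ Finset.range p, W i l) ^ 2 := by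
      have := sq_sum_le_card_mul_sum_sq (s := Finset.range q)
        (f := fun l => ∑ i ∈ Finset.range p, W i l)
      simpa using this
    rw [hWtot'] at h1
    rw [div_le_iff₀ hq', mul_comm]
    refine h1.trans (mul_le_mul_of_nonneg_left (Finset.sum_le_sum fun i _ => ?_) hq'.le)
    rw [sq]
    exact mul_le_mul_of_nonneg_left (hWl' i) (Finset.sum_nonneg fun l _ => hWn l i)
  -- the upper bound
  have hC : ∑ i ∈ Finset.range p, (∑ l ∈ Finset.range q, W i l) * u i +
      ∑ l ∈ Finset.range q, (∑ i ∈ Finset.range p, W i l) * v l =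
      ∑ i ∈ Finset.range p, ∑ l ∈ Finset.range q, W i l * (u i + v l) := by
    have e1 : ∑ i ∈ Finset.range p, (∑ l ∈ Finset.range q, W i l) * u i =
        ∑ i ∈ Finset.range p, ∑ l ∈ Finset.range q, W i l * u i :=
      Finset.sum_congr rfl fun i _ => by rw [Finset.sum_mul]
    have e2 : ∑ l ∈ Finset.range q, (∑ i ∈ Finset.range p, W i l) * v l =
        ∑ i ∈ Finset.range p, ∑ l ∈ Finset.range q, W i l * v l := by
      rw [Finset.sum_comm]
      exact Finset.sum_congr rfl fun i _ => by rw [Finset.sum_mul]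
    rw [e1, e2, ← Finset.sum_add_distrib]
    refine Finset.sum_congr rfl fun i _ => ?_
    rw [← Finset.sum_add_distrib]
    exact Finset.sum_congr rfl fun l _ => by ring
  have hterm : ∀ i ∈ Finset.range p, ∀ l ∈ Finset.range q,
      W i l * (u i + v l) ≤ W i l * Δ ∧ (0 < W i l → W i l * (u i + v l) < W i l * Δ) := by
    intro i hi l hl
    rw [Finset.mem_range] at hi hl
    have h3 : 0 < W i l → W i l * (u i + v l) < W i l * Δ := by
      intro h1
      have h2 : U i + V l ≤ τ := by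
        have h1' := h1
        rw [hW] at h1'
        simp only [ov, lt_max_iff, lt_irrefl, false_or] at h1'
        have h4 : max (U i) (τ - V (l + 1)) < min (U (i + 1)) (τ - V l) := by linarith
        have h5 : U i < τ - V l := (le_max_left _ _).trans_lt (h4.trans_le (min_le_right _ _))
        linarith
      exact mul_lt_mul_of_pos_left (h' i hi l hl h2) h1
    refine ⟨?_, h3⟩
    rcases (hWn i l).eq_or_lt with h1 | h1
    · rw [← h1]
      simp
    · exact (h3 h1).le
  have hD : ∑ i ∈ Finset.range p, ∑ l ∈ Finset.range q, W i l * (u i + v l) < τ * Δ := by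
    have e1 : τ * Δ = ∑ i ∈ Finset.range p, ∑ l ∈ Finset.range q, W i l * Δ := by
      rw [← hWtot, Finset.sum_mul]
      exact Finset.sum_congr rfl fun i _ => by rw [Finset.sum_mul]
    rw [e1]
    -- some weight is positive
    have h1 : ∃ i ∈ Finset.range p, 0 < ∑ l ∈ Finset.range q, W i l := by
      by_contra hc
      push Not at hc
      have := Finset.sum_nonpos hc
      linarith
    obtain ⟨i₀, hi₀, h2⟩ := h1
    have h3 : ∃ l ∈ Finset.range q, 0 < W i₀ l := by
      by_contra hc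
      push Not at hc
      have := Finset.sum_nonpos hc
      linarith
    obtain ⟨l₀, hl₀, h4⟩ := h3
    refine Finset.sum_lt_sum (fun i hi => Finset.sum_le_sum fun l hl => (hterm i hi l hl).1)
      ⟨i₀, hi₀, Finset.sum_lt_sum (fun l hl => (hterm i₀ hi₀ l hl).1)
        ⟨l₀, hl₀, (hterm i₀ hi₀ l₀ hl₀).2 h4⟩⟩
  have hE : τ ^ 2 / p + τ ^ 2 / q < τ * Δ := by linarith
  have hF : τ ^ 2 / p + τ ^ 2 / q = τ * (τ * (p + q)) / (p * q) := by
    field_simp
    ring
  rw [hF, div_lt_iff₀ (by positivity)] at hE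
  have hG : τ * (τ * (p + q)) < τ * (Δ * (p * q)) := by linarith
  exact lt_of_mul_lt_mul_left hG hτ

end Pool.Agent.V5helper16.KR
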