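import Pool.Agent.V5helper16.KR.PSpec
import Pool.Agent.V5helper16.KR.Stair

/-! Correctness of the exploration of the pairs. -/

open Classical

namespace Pool.Agent.V5helper16.KR

variable {n w S : ℕ} {m : ℕ → ℕ}

/-- walks with exactly `j` steps -/
def Wk (E : ℕ → ℕ → Prop) : ℕ → ℕ → ℕ → Prop
  | 0, x, y => x = y
  | j + 1, x, y => ∃ z, E x z ∧ Wk E j z y

theorem Wk.comp {E : ℕ → ℕ → Prop} : ∀ {i j x y z : ℕ}, Wk E i x y → Wk E j y z →
    Wk E (i + j) x z := by
  intro i
  induction i with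
  | zero =>
    intro j x y z h1 h2
    cases h1
    simpa using h2
  | succ i ih =>
    intro j x y z h1 h2
    obtain ⟨a, h3, h4⟩ := h1
    rw [show i + 1 + j = i + j + 1 by ring]
    exact ⟨a, h3, ih h4 h2⟩

theorem Wk.one {E : ℕ → ℕ → Prop} {x y : ℕ} : Wk E 1 x y ↔ E x y := by
  constructor
  · rintro ⟨z, h1, h2⟩
    cases h2
    exact h1
  · intro h
    exact ⟨y, h, rfl⟩

theorem Wk.flip {E : ℕ → ℕ → Prop} : ∀ {j x y : ℕ}, Wk E j x y →
    Wk (fun a b => E b a) j y x := by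
  intro j
  induction j with
  | zero =>
    intro x y h
    exact h.symm
  | succ j ih =>
    intro x y h
    obtain ⟨z, h1, h2⟩ := h
    exact Wk.comp (ih h2) (Wk.one.2 h1)

theorem Wk.flip_iff {E : ℕ → ℕ → Prop} {j x y : ℕ} :
    Wk (fun a b => E b a) j y x ↔ Wk E j x y :=
  ⟨fun h => Wk.flip h, fun h => Wk.flip h⟩

/-- a walk as a sequence -/
theorem Wk.seq {E : ℕ → ℕ → Prop} : ∀ {j x y : ℕ}, Wk E j x y →
    ∃ v : ℕ → ℕ, v 0 = x ∧ v j = y ∧ ∀ i < j, E (v i) (v (i + 1)) := by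
  intro j
  induction j with
  | zero =>
    intro x y h
    exact ⟨fun _ => x, rfl, h, fun i hi => by omega⟩
  | succ j ih =>
    intro x y h
    obtain ⟨z, h1, h2⟩ := h
    obtain ⟨v, h3, h4, h5⟩ := ih h2
    refine ⟨fun i => if i = 0 then x else v (i - 1), by simp, by simpa using h4, ?_⟩
    intro i hi
    rcases Nat.eq_zero_or_pos i with h6 | h6
    · subst h6
      simpa [h3] using h1
    · simp only [Nat.pos_iff_ne_zero.1 h6, if_false, Nat.succ_ne_zero]
      have := h5 (i - 1) (by omega)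
      rw [show i - 1 + 1 = i by omega] at this
      simpa using this

theorem Wk.of_seq {E : ℕ → ℕ → Prop} (v : ℕ → ℕ) (j : ℕ) (h : ∀ i < j, E (v i) (v (i + 1))) :
    ∀ d i, i + d ≤ j → Wk E d (v i) (v (i + d)) := by
  intro d
  induction d with
  | zero =>
    intro i _
    rfl
  | succ d ih =>
    intro i hi
    refine ⟨v (i + 1), h i (by omega), ?_⟩
    have := ih (i + 1) (by omega)
    rwa [show i + 1 + d = i + (d + 1) by ring] at this

/-- what the data structure knows about the graph -/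
structure Good (E : ℕ → ℕ → Prop) (k D : ℕ) (F B : Blk n w S m) : Prop where
  nbr : ∀ x < n, ∀ y, (∃ i < F.deg x, F.nbr x i = y) ↔ E x y
  known : ∀ x < n, ∀ t < n, D ≤ F.deg x * B.deg t ∨ D ≤ B.deg x → B.rank t < F.cnt x
  tab : ∀ x < n, ∀ t < n, B.rank t < F.cnt x → ∀ j ≤ k, (F.tab x (B.rank t) ≤ j ↔ Wk E j x t)

theorem Good.lt {E : ℕ → ℕ → Prop} {k D : ℕ} {F B : Blk n w S m} (h : Good E k D F B) {x y : ℕ}
    (hx : x < n) (hE : E x y) : y < n := by
  obtain ⟨i, h1, h2⟩ := (h.nbr x hx y).2 hE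
  rw [← h2]
  exact (F.hoff x hx i h1).2.2

theorem Bh_sound {E : ℕ → ℕ → Prop} {k D : ℕ} (e : Env n w S m) (h : Good E k D e.F e.B)
    (h' : Good (fun a b => E b a) k D e.B e.F) {x : ℕ} (hx : x < n) : ∀ (r y R : ℕ), y < n →
    r ≤ k → Bh e x r y R → Wk E r x y := by
  intro r
  induction r with
  | zero =>
    intro y R _ _ h1
    exact False.elim h1
  | succ r ih =>
    intro y R hy hr h1
    rcases h1 with ⟨h1, h2⟩ | ⟨h1, h2⟩ | ⟨h1, i, h2, h3⟩
    · exact (h.tab x hx y hy h1 (r + 1) hr).1 h2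
    · exact Wk.flip_iff.1 ((h'.tab y hy x hx h1 (r + 1) hr).1 h2)
    · have h4 : E (e.B.nbr y i) y := (h'.nbr y hy _).1 ⟨i, h2, rfl⟩
      have h5 : e.B.nbr y i < n := (e.B.hoff y hy i h2).2.2
      exact (ih _ _ h5 (by omega) h3).comp (Wk.one.2 h4)

theorem Fh_sound {E : ℕ → ℕ → Prop} {k D : ℕ} (e : Env n w S m) (h : Good E k D e.F e.B)
    (h' : Good (fun a b => E b a) k D e.B e.F) : ∀ (r x R : ℕ), x < n →
    r ≤ k → Fh e r x R → Wk E r x e.t := by
  intro r
  induction r with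
  | zero =>
    intro x R _ _ h1
    exact False.elim h1
  | succ r ih =>
    intro x R hx hr h1
    rcases h1 with h1 | ⟨h1, i, h2, h3⟩
    · exact Bh_sound e h h' hx _ _ _ e.ht hr h1
    · have h4 : E x (e.F.nbr x i) := (h.nbr x hx _).1 ⟨i, h2, rfl⟩
      exact ⟨_, h4, ih _ _ (h.lt hx h4) (by omega) h3⟩

/-- the forward exploration follows the walk `v` -/
theorem Fh_reach {E : ℕ → ℕ → Prop} {k D : ℕ} (e : Env n w S m) (h : Good E k D e.F e.B)
    (v : ℕ → ℕ) (hv : ∀ i ≤ k, v i < n) (hE : ∀ i < k, E (v i) (v (i + 1))) :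
    ∀ i ≤ k, ∏ j ∈ Finset.range i, e.F.deg (v j) ≤ e.bud →
      Fh e (k - i) (v i) (∏ j ∈ Finset.range i, e.F.deg (v j)) → Fh e k (v 0) 1 := by
  intro i
  induction i with
  | zero =>
    intro _ _ h1
    simpa using h1
  | succ i ih =>
    intro hi h1 h2
    have hvi := hv i (by omega)
    have h3 : ∏ j ∈ Finset.range i, e.F.deg (v j) ≤ e.bud := by
      refine le_trans ?_ h1
      rw [Finset.prod_range_succ]
      exact Nat.le_mul_of_pos_right _ (e.F.pos _ hvi)
    refine ih (by omega) h3 ?_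
    rw [show k - i = (k - (i + 1)) + 1 by omega]
    right
    rw [Finset.prod_range_succ] at h1 h2
    refine ⟨h1, ?_⟩
    obtain ⟨j, h4, h5⟩ := (h.nbr _ hvi _).2 (hE i (by omega))
    refine ⟨j, h4, ?_⟩
    rw [h5]
    exact h2

/-- the backward exploration follows the walk `v` -/
theorem Bh_reach {E : ℕ → ℕ → Prop} {k D : ℕ} (e : Env n w S m)
    (h' : Good (fun a b => E b a) k D e.B e.F) (v : ℕ → ℕ) (hv : ∀ i ≤ k, v i < n)
    (hE : ∀ i < k, E (v i) (v (i + 1))) (x i P : ℕ) :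
    ∀ l, i + l ≤ k → P * ∏ j ∈ Finset.range l, e.B.deg (v (k - j)) ≤ e.bud →
      Bh e x (k - i - l) (v (k - l)) (P * ∏ j ∈ Finset.range l, e.B.deg (v (k - j))) →
      Bh e x (k - i) (v k) P := by
  intro l
  induction l with
  | zero =>
    intro _ _ h1
    simpa using h1
  | succ l ih =>
    intro hl h1 h2
    have hvl := hv (k - l) (by omega)
    rw [Finset.prod_range_succ, ← Nat.mul_assoc] at h1 h2
    have h3 : P * ∏ j ∈ Finset.range l, e.B.deg (v (k - j)) ≤ e.bud :=
      (Nat.le_mul_of_pos_right _ (e.B.pos _ hvl)).trans h1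
    refine ih (by omega) h3 ?_
    rw [show k - i - l = (k - i - (l + 1)) + 1 by omega]
    right
    right
    refine ⟨h1, ?_⟩
    have h6 := hE (k - (l + 1)) (by omega)
    rw [show k - (l + 1) + 1 = k - l by omega] at h6
    obtain ⟨j, h4, h5⟩ := (h'.nbr _ hvl (v (k - (l + 1)))).2 h6
    refine ⟨j, h4, ?_⟩
    rw [h5]
    exact h2

/-- the key lemma: a walk through a super vertex is found -/
theorem found {E : ℕ → ℕ → Prop} {k M : ℕ} (e : Env n w S m)
    (h : Good E k (M ^ k) e.F e.B) (h' : Good (fun a b => E b a) k (M ^ k) e.B e.F)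
    (hM : 1 ≤ M) (hb : M ^ (k ^ 2 / 4) ≤ e.bud) (v : ℕ → ℕ) (hv : ∀ i ≤ k, v i < n)
    (hE : ∀ i < k, E (v i) (v (i + 1))) (hvk : v k = e.t) (p : ℕ) (hp0 : 0 < p) (hpk : p < k)
    (hsup : M ^ k ≤ e.F.deg (v p) ∨ M ^ k ≤ e.B.deg (v p)) :
    Fh e k (v 0) 1 := by
  by_contra hcon
  -- all pairs within the budget are unknown
  have hun : ∀ i l, i + l < k → (∏ j ∈ Finset.range i, e.F.deg (v j)) *
      ∏ j ∈ Finset.range l, e.B.deg (v (k - j)) ≤ e.bud →
      ¬ (M ^ k ≤ e.F.deg (v i) * e.B.deg (v (k - l))) ∧ ¬ (M ^ k ≤ e.B.deg (v i)) ∧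
      ¬ (M ^ k ≤ e.F.deg (v (k - l))) := by
    intro i l hil hbud
    have hvi := hv i (by omega)
    have hvl := hv (k - l) (by omega)
    have hwalk : Wk E (k - i - l) (v i) (v (k - l)) := by
      have := Wk.of_seq v k hE (k - i - l) i (by omega)
      rwa [show i + (k - i - l) = k - l by omega] at this
    have hPi : ∏ j ∈ Finset.range i, e.F.deg (v j) ≤ e.bud := by
      refine le_trans (Nat.le_mul_of_pos_right _ ?_) hbud
      refine Finset.prod_pos fun j hj => e.B.pos _ (hv _ (by omega))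
    have hnot : ¬ Bh e (v i) (k - i - l) (v (k - l)) ((∏ j ∈ Finset.range i, e.F.deg (v j)) *
        ∏ j ∈ Finset.range l, e.B.deg (v (k - j))) := by
      intro h1
      have h2 := Bh_reach e h' v hv hE (v i) i _ l (by omega) hbud h1
      refine hcon (Fh_reach e h v hv hE i (by omega) hPi ?_)
      rw [show k - i = (k - i - 1) + 1 by omega]
      left
      rw [show k - i - 1 + 1 = k - i by omega, ← hvk]
      exact h2
    rw [show k - i - l = (k - i - l - 1) + 1 by omega] at hnot hwalk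
    have hk1 : ¬ e.B.rank (v (k - l)) < e.F.cnt (v i) := by
      intro h1
      exact hnot (Or.inl ⟨h1, (h.tab _ hvi _ hvl h1 _ (by omega)).2 hwalk⟩)
    have hk2 : ¬ e.F.rank (v i) < e.B.cnt (v (k - l)) := by
      intro h1
      exact hnot (Or.inr (Or.inl ⟨h1, (h'.tab _ hvl _ hvi h1 _ (by omega)).2
        (Wk.flip_iff.2 hwalk)⟩))
    refine ⟨fun h1 => hk1 (h.known _ hvi _ hvl (Or.inl h1)),
      fun h1 => hk1 (h.known _ hvi _ hvl (Or.inr h1)),
      fun h1 => hk2 (h'.known _ hvl _ hvi (Or.inr h1))⟩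
  -- the products
  have hP : e.bud < ∏ j ∈ Finset.range p, e.F.deg (v j) := by
    by_contra hc
    rw [not_lt] at hc
    obtain ⟨h1, h2, _⟩ := hun p 0 (by omega) (by simpa using hc)
    rcases hsup with h3 | h3
    · exact h1 (h3.trans (Nat.le_mul_of_pos_right _ (e.B.pos _ (hv _ (by omega)))))
    · exact h2 h3
  have hQ : e.bud < ∏ j ∈ Finset.range (k - p), e.B.deg (v (k - j)) := by
    by_contra hc
    rw [not_lt] at hc
    obtain ⟨h1, _, h2⟩ := hun 0 (k - p) (by omega) (by simpa using hc)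
    rw [show k - (k - p) = p by omega] at h1 h2
    rcases hsup with h3 | h3
    · exact h2 h3
    · exact h1 (h3.trans (Nat.le_mul_of_pos_left _ (e.F.pos _ (hv _ (by omega)))))
  -- logarithms
  have hbud1 : 0 < e.bud := e.hbud1
  have hlogP : ∀ i, i ≤ k → ∑ j ∈ Finset.range i, Real.log (e.F.deg (v j)) =
      Real.log ((∏ j ∈ Finset.range i, e.F.deg (v j) : ℕ) : ℝ) := by
    intro i hi
    rw [Nat.cast_prod, Real.log_prod]
    intro j hj
    rw [Finset.mem_range] at hj
    have := e.F.pos (v j) (hv _ (by omega))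
    positivity
  have hlogQ : ∀ i, i ≤ k → ∑ j ∈ Finset.range i, Real.log (e.B.deg (v (k - j))) =
      Real.log ((∏ j ∈ Finset.range i, e.B.deg (v (k - j)) : ℕ) : ℝ) := by
    intro i hi
    rw [Nat.cast_prod, Real.log_prod]
    intro j hj
    rw [Finset.mem_range] at hj
    have := e.B.pos (v (k - j)) (hv _ (by omega))
    positivity
  have hPpos : ∀ i, i ≤ k → 0 < ∏ j ∈ Finset.range i, e.F.deg (v j) := fun i hi =>
    Finset.prod_pos fun j hj => e.F.pos _ (hv _ (by rw [Finset.mem_range] at hj; omega))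
  have hQpos : ∀ i, i ≤ k → 0 < ∏ j ∈ Finset.range i, e.B.deg (v (k - j)) := fun i hi =>
    Finset.prod_pos fun j hj => e.B.pos _ (hv _ (by omega))
  have hst := stair p (k - p) (fun i => Real.log (e.F.deg (v i)))
    (fun l => Real.log (e.B.deg (v (k - l)))) (fun i => Real.log_natCast_nonneg _)
    (fun i => Real.log_natCast_nonneg _) (Real.log e.bud) (Real.log ((M ^ k : ℕ) : ℝ))
    (Real.log_natCast_nonneg _) ?_ ?_ ?_
  · -- the contradiction
    have hkp : ((k - p : ℕ) : ℝ) = (k : ℝ) - p := by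
      rw [Nat.cast_sub (by omega)]
    have h1 : p * (k - p) ≤ k ^ 2 / 4 := by
      rw [Nat.le_div_iff_mul_le (by norm_num)]
      obtain ⟨c, rfl⟩ : ∃ c, k = p + c := ⟨k - p, by omega⟩
      rw [Nat.add_sub_cancel_left]
      have := four_mul_le_sq_add p c
      nlinarith [this]
    have h2 : Real.log ((M ^ (k ^ 2 / 4) : ℕ) : ℝ) ≤ Real.log e.bud := by
      apply Real.log_le_log
      · have : 0 < M ^ (k ^ 2 / 4) := Nat.pow_pos hM
        exact_mod_cast this
      · exact_mod_cast hb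
    rw [Nat.cast_pow, Real.log_pow] at h2 hst
    have h3 : 0 ≤ Real.log M := Real.log_natCast_nonneg _
    have h4 : ((p * (k - p) : ℕ) : ℝ) ≤ ((k ^ 2 / 4 : ℕ) : ℝ) := by exact_mod_cast h1
    rw [Nat.cast_mul] at h4
    have h5 : (p : ℝ) + ((k - p : ℕ) : ℝ) = k := by rw [hkp]; ring
    rw [h5] at hst
    have h6 : (k : ℝ) * ((p : ℝ) * ((k - p : ℕ) : ℝ) * Real.log M) ≤
        k * (((k ^ 2 / 4 : ℕ) : ℝ) * Real.log M) :=
      mul_le_mul_of_nonneg_left (mul_le_mul_of_nonneg_right h4 h3) (Nat.cast_nonneg k)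
    have h7 : (k : ℝ) * (((k ^ 2 / 4 : ℕ) : ℝ) * Real.log M) ≤ k * Real.log e.bud :=
      mul_le_mul_of_nonneg_left h2 (Nat.cast_nonneg k)
    have h8 : Real.log e.bud * k < (k : ℝ) * ((p : ℝ) * ((k - p : ℕ) : ℝ) * Real.log M) := by
      calc Real.log e.bud * k < ↑k * Real.log ↑M * (↑p * ↑(k - p)) := hst
        _ = _ := by ring
    linarith
  · rw [hlogP p hpk.le]
    apply Real.log_lt_log
    · exact_mod_cast hbud1
    · exact_mod_cast hP
  · rw [hlogQ (k - p) (by omega)]
    apply Real.log_lt_log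
    · exact_mod_cast hbud1
    · exact_mod_cast hQ
  · intro i hi l hl hle
    rw [hlogP i (by omega), hlogQ l (by omega), ← Real.log_mul, ← Nat.cast_mul] at hle
    · have h1 : (∏ j ∈ Finset.range i, e.F.deg (v j)) *
          ∏ j ∈ Finset.range l, e.B.deg (v (k - j)) ≤ e.bud := by
        rw [Real.log_le_log_iff] at hle
        · exact_mod_cast hle
        · have := Nat.mul_pos (hPpos i (by omega)) (hQpos l (by omega))
          exact_mod_cast this
        · exact_mod_cast hbud1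
      obtain ⟨h2, _, _⟩ := hun i l (by omega) h1
      rw [not_le] at h2
      have h3 := e.F.pos (v i) (hv _ (by omega))
      have h4 := e.B.pos (v (k - l)) (hv _ (by omega))
      have h5 : (0 : ℝ) < e.F.deg (v i) := by exact_mod_cast h3
      have h6 : (0 : ℝ) < e.B.deg (v (k - l)) := by exact_mod_cast h4
      show Real.log (e.F.deg (v i)) + Real.log (e.B.deg (v (k - l))) < _
      rw [← Real.log_mul h5.ne' h6.ne']
      apply Real.log_lt_log (mul_pos h5 h6)
      exact_mod_cast h2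
    · have := hPpos i (by omega)
      positivity
    · have := hQpos l (by omega)
      positivity

end Pool.Agent.V5helper16.KR
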