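import Mathlib

/-!
# Word RAM programs and data structures for `k`-reachability

Definitions for the disproof of the space/time conjecture for `k`-reachability (MP_a349b4_lc).
-/

namespace Pool.Agent.V5helper16.KR

/-- Names of registers.  A program uses only finitely many of them. -/
abbrev Reg := ℕ × ℕ

/-- Programs of a word RAM: basic instructions (constants, addition, subtraction, multiplication,
reading and writing the memory cell whose address is in a register), composition, and branches and
loops controlled by the comparison of two registers. -/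
inductive Prog : Type
  | imm (r : Reg) (c : ℕ) : Prog
  | add (r s t : Reg) : Prog
  | sub (r s t : Reg) : Prog
  | mul (r s t : Reg) : Prog
  | load (r a : Reg) : Prog
  | store (a s : Reg) : Prog
  | seq (p q : Prog) : Prog
  | ifLt (r s : Reg) (p q : Prog) : Prog
  | whileLt (r s : Reg) (p : Prog) : Prog

/-- A state of the machine: the contents of the registers and of the memory. -/
structure St where
  reg : Reg → ℕ
  mem : ℕ → ℕ

/-- Write `v` into the register `r`. -/
def St.set (σ : St) (r : Reg) (v : ℕ) : St := ⟨Function.update σ.reg r v, σ.mem⟩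

/-- Write `v` into the memory cell `a`. -/
def St.put (σ : St) (a v : ℕ) : St := ⟨σ.reg, Function.update σ.mem a v⟩

/-- `Run w S p σ t σ'`: with words of `w` bits and a memory of `S` words, the program `p` started
in the state `σ` stops after exactly `t` steps in the state `σ'`.  Each basic instruction and each
comparison costs one step, arithmetic is modulo `2 ^ w`, and only the cells with an address less
than `S` can be read and written. -/
inductive Run (w S : ℕ) : Prog → St → ℕ → St → Prop
  | imm (σ : St) (r : Reg) (c : ℕ) : Run w S (.imm r c) σ 1 (σ.set r (c % 2 ^ w))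
  | add (σ : St) (r s t : Reg) :
      Run w S (.add r s t) σ 1 (σ.set r ((σ.reg s + σ.reg t) % 2 ^ w))
  | sub (σ : St) (r s t : Reg) :
      Run w S (.sub r s t) σ 1 (σ.set r ((σ.reg s + (2 ^ w - σ.reg t)) % 2 ^ w))
  | mul (σ : St) (r s t : Reg) :
      Run w S (.mul r s t) σ 1 (σ.set r ((σ.reg s * σ.reg t) % 2 ^ w))
  | load (σ : St) (r a : Reg) (h : σ.reg a < S) :
      Run w S (.load r a) σ 1 (σ.set r (σ.mem (σ.reg a)))
  | store (σ : St) (a s : Reg) (h : σ.reg a < S) :
      Run w S (.store a s) σ 1 (σ.put (σ.reg a) (σ.reg s))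
  | seq (σ σ₁ σ₂ : St) (p q : Prog) (t₁ t₂ : ℕ) (h₁ : Run w S p σ t₁ σ₁)
      (h₂ : Run w S q σ₁ t₂ σ₂) : Run w S (.seq p q) σ (t₁ + t₂) σ₂
  | ifTrue (σ σ₁ : St) (r s : Reg) (p q : Prog) (t : ℕ) (h : σ.reg r < σ.reg s)
      (h₁ : Run w S p σ t σ₁) : Run w S (.ifLt r s p q) σ (t + 1) σ₁
  | ifFalse (σ σ₁ : St) (r s : Reg) (p q : Prog) (t : ℕ) (h : ¬ σ.reg r < σ.reg s)
      (h₁ : Run w S q σ t σ₁) : Run w S (.ifLt r s p q) σ (t + 1) σ₁
  | whileDone (σ : St) (r s : Reg) (p : Prog) (h : ¬ σ.reg r < σ.reg s) :
      Run w S (.whileLt r s p) σ 1 σ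
  | whileStep (σ σ₁ σ₂ : St) (r s : Reg) (p : Prog) (t₁ t₂ : ℕ) (h : σ.reg r < σ.reg s)
      (h₁ : Run w S p σ t₁ σ₁) (h₂ : Run w S (.whileLt r s p) σ₁ t₂ σ₂) :
      Run w S (.whileLt r s p) σ (t₁ + t₂ + 1) σ₂

/-- The state at the start of the query `(u, v)`: the memory holds the data structure `m`, `u` and
`v` are in the registers `(0, 0)` and `(0, 1)`, all other registers are zero. -/
def start (m : ℕ → ℕ) (u v : ℕ) : St :=
  ⟨fun r => if r = (0, 0) then u else if r = (0, 1) then v else 0, m⟩

/-- There is a walk with exactly `j` edges from `u` to `v` in the directed graph `G`. -/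
def Walk {n : ℕ} (G : Fin n → Fin n → Prop) : ℕ → Fin n → Fin n → Prop
  | 0, u, v => u = v
  | j + 1, u, v => ∃ x, G u x ∧ Walk G j x v

/-- `v` can be reached from `u` on a directed path with at most `k` edges. -/
def Reach {n : ℕ} (G : Fin n → Fin n → Prop) (k : ℕ) (u v : Fin n) : Prop :=
  ∃ j ≤ k, Walk G j u v

/-- The number of edges. -/
noncomputable def edges {n : ℕ} (G : Fin n → Fin n → Prop) : ℕ :=
  Nat.card {e : Fin n × Fin n // G e.1 e.2}

/-- The program `P` answers all `k`-reachability queries on all directed graphs with `n` vertices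
and at most `C n` edges in at most `T` steps, with words of `w` bits: for every such graph there is
a data structure `m` of `S` words such that `P`, started with `m` in the memory and a query
`(u, v)`, stops after at most `T` steps with the answer (`1` for yes, `0` for no) in the register
`(0, 0)` and with `m` unchanged in the memory. -/
def Solves (k C n w S T : ℕ) (P : Prog) : Prop :=
  ∀ G : Fin n → Fin n → Prop, edges G ≤ C * n →
    ∃ m : ℕ → ℕ, (∀ a, m a < 2 ^ w) ∧ (∀ a, S ≤ a → m a = 0) ∧
      ∀ u v : Fin n, ∃ (t : ℕ) (σ : St), t ≤ T ∧ Run w S P (start m u v) t σ ∧ σ.mem = m ∧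
        (Reach G k u v → σ.reg (0, 0) = 1) ∧ (¬ Reach G k u v → σ.reg (0, 0) = 0)

end Pool.Agent.V5helper16.KR
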