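import Pool.Agent.V5helper16.KR.Gr

/-! The dictionary. -/

open Classical

namespace Pool.Agent.V5helper16.KR

/-- the block with index `c` is not empty -/
def ne (n D W : ℕ) (Low : ℕ → ℕ → Prop) (c : ℕ) : Prop :=
  ∃ t < n, Low (c / W) t ∧ t / D = c % W

noncomputable def len (n D W : ℕ) (Low : ℕ → ℕ → Prop) (c : ℕ) : ℕ :=
  if ne n D W Low c then D else 0

noncomputable def ptrv (n D W : ℕ) (Low : ℕ → ℕ → Prop) (O P : ℕ) (c : ℕ) : ℕ :=
  if ne n D W Low c then P + ∑ c' ∈ Finset.range c, len n D W Low c' else O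

noncomputable def bit (D W : ℕ) (Low : ℕ → ℕ → Prop) (c i : ℕ) : ℕ :=
  if Low (c / W) (c % W * D + i) then 1 else 0

theorem sum_len (n D W : ℕ) (Low : ℕ → ℕ → Prop) (hW : 0 < W) :
    ∑ c ∈ Finset.range (n * W), len n D W Low c ≤
      D * ∑ s ∈ Finset.range n, ((Finset.range n).filter (Low s)).card := by
  have h1 : ∑ c ∈ Finset.range (n * W), len n D W Low c =
      D * ((Finset.range (n * W)).filter (ne n D W Low)).card := by
    rw [Finset.card_filter, Finset.mul_sum]
    refine Finset.sum_congr rfl fun c _ => ?_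
    unfold len
    split_ifs <;> simp
  rw [h1]
  refine Nat.mul_le_mul_left _ ?_
  have h2 : (Finset.range (n * W)).filter (ne n D W Low) ⊆
      (Finset.range n).biUnion fun s =>
        ((Finset.range n).filter (Low s)).image fun t => W * s + t / D := by
    intro c hc
    rw [Finset.mem_filter, Finset.mem_range] at hc
    obtain ⟨hc1, t, ht, h3, h4⟩ := hc
    rw [Finset.mem_biUnion]
    refine ⟨c / W, Finset.mem_range.2 ?_, ?_⟩
    · rw [Nat.div_lt_iff_lt_mul hW]
      exact hc1
    · rw [Finset.mem_image]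
      refine ⟨t, Finset.mem_filter.2 ⟨Finset.mem_range.2 ht, h3⟩, ?_⟩
      rw [h4]
      exact Nat.div_add_mod c W
  refine (Finset.card_le_card h2).trans (Finset.card_biUnion_le.trans ?_)
  exact Finset.sum_le_sum fun s _ => Finset.card_image_le

noncomputable def mkDic {n w S : ℕ} {m : ℕ → ℕ} (Low : ℕ → ℕ → Prop) (D W Z Q O P : ℕ)
    (hD : 0 < D) (hW : n / D < W) (hZ : Z + 2 * n ≤ S) (hQ : Q + n * W ≤ S) (hO : O + D ≤ S)
    (hP : P + ∑ c ∈ Finset.range (n * W), len n D W Low c ≤ S)
    (h1 : ∀ i < 2 * n, m (Z + i) = if i % 2 = 0 then (i / 2) / D else (i / 2) % D)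
    (h2 : ∀ c < n * W, m (Q + c) = ptrv n D W Low O P c)
    (h3 : ∀ i < D, m (O + i) = 0)
    (h4 : ∀ c < n * W, ∀ i < len n D W Low c,
      m (P + (∑ c' ∈ Finset.range c, len n D W Low c' + i)) = bit D W Low c i) :
    Dic n w S m Low where
  Z := Z
  W := W
  Q := Q
  qd := fun t => t / D
  rm := fun t => t % D
  ptr := fun s t => ptrv n D W Low O P (W * s + t / D)
  hZ := fun t ht => by omega
  hq := fun t ht => by
    rw [h1 (2 * t) (by omega), if_pos (by omega), show 2 * t / 2 = t by omega]
  hr := fun t ht => by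
    rw [Nat.add_assoc, h1 (2 * t + 1) (by omega), if_neg (by omega),
      show (2 * t + 1) / 2 = t by omega]
  hp := fun s hs t ht => by
    have h5 : t / D < W := lt_of_le_of_lt (Nat.div_le_div_right ht.le) hW
    have h6 : W * s + t / D < n * W := by
      have : (s + 1) * W ≤ n * W := Nat.mul_le_mul_right _ hs
      have h7 : (s + 1) * W = W * s + W := by ring
      omega
    exact ⟨lt_of_lt_of_le (Nat.add_lt_add_left h6 Q) hQ, h2 _ h6⟩
  hd := fun s hs t ht => by
    have h5 : t / D < W := lt_of_le_of_lt (Nat.div_le_div_right ht.le) hW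
    have h6 : W * s + t / D < n * W := by
      have : (s + 1) * W ≤ n * W := Nat.mul_le_mul_right _ hs
      have h7 : (s + 1) * W = W * s + W := by ring
      omega
    have hWpos : 0 < W := lt_of_le_of_lt (Nat.zero_le _) hW
    have h8 : (W * s + t / D) / W = s := by
      rw [Nat.mul_add_div hWpos, Nat.div_eq_of_lt h5, Nat.add_zero]
    have h9 : (W * s + t / D) % W = t / D := by
      rw [Nat.mul_add_mod, Nat.mod_eq_of_lt h5]
    have h10 : t % D < D := Nat.mod_lt _ hD
    have hiff : Low s t → ne n D W Low (W * s + t / D) := by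
      intro h
      refine ⟨t, ht, ?_, ?_⟩
      · rw [h8]
        exact h
      · rw [h9]
    obtain ⟨c, hc⟩ : ∃ c, c = W * s + t / D := ⟨_, rfl⟩
    rw [← hc] at h6 h8 h9 hiff ⊢
    by_cases hne : ne n D W Low c
    · have h11 : ptrv n D W Low O P c = P + ∑ c' ∈ Finset.range c, len n D W Low c' := by
        unfold ptrv
        rw [if_pos hne]
      have h12 : len n D W Low c = D := by
        unfold len
        rw [if_pos hne]
      have h13 := h4 c h6 (t % D) (by rw [h12]; exact h10)
      have h14 := prefix_lt (len n D W Low) h6 (i := t % D) (by rw [h12]; exact h10)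
      rw [h11]
      refine ⟨by omega, ?_⟩
      rw [Nat.add_assoc, h13]
      unfold bit
      rw [h8, h9, Nat.mul_comm (t / D) D, Nat.div_add_mod]
      split_ifs with h15
      · simp [h15]
      · simp [h15]
    · have h11 : ptrv n D W Low O P c = O := by
        unfold ptrv
        rw [if_neg hne]
      rw [h11, h3 _ h10]
      refine ⟨by omega, ?_⟩
      constructor
      · intro h
        omega
      · intro h
        exact absurd (hiff h) hne

end Pool.Agent.V5helper16.KR
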