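import Pool.Agent.V5helper16.KR.Defs

/-! Total correctness with a time bound. -/

namespace Pool.Agent.V5helper16.KR

variable {w S : ℕ}

/-- Started in `σ`, `p` stops within `T` steps in a state with `Q`. -/
def Exec (w S : ℕ) (p : Prog) (σ : St) (T : ℕ) (Q : St → Prop) : Prop :=
  ∃ t σ', t ≤ T ∧ Run w S p σ t σ' ∧ Q σ'

theorem Exec.mono {p : Prog} {σ : St} {T T' : ℕ} {Q Q' : St → Prop} (h : Exec w S p σ T Q)
    (hT : T ≤ T') (hQ : ∀ σ, Q σ → Q' σ) : Exec w S p σ T' Q' := by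
  obtain ⟨t, σ', h1, h2, h3⟩ := h
  exact ⟨t, σ', h1.trans hT, h2, hQ _ h3⟩

theorem exec_seq {p q : Prog} {σ : St} {T₁ T₂ T : ℕ} {Q R : St → Prop}
    (h₁ : Exec w S p σ T₁ Q) (h₂ : ∀ σ, Q σ → Exec w S q σ T₂ R) (hT : T₁ + T₂ ≤ T) :
    Exec w S (.seq p q) σ T R := by
  obtain ⟨t, σ', h1, h2, h3⟩ := h₁
  obtain ⟨t', σ'', h1', h2', h3'⟩ := h₂ _ h3
  exact ⟨t + t', σ'', by omega, .seq _ _ _ _ _ _ _ h2 h2', h3'⟩

theorem exec_imm {σ : St} {r : Reg} {c T : ℕ} {Q : St → Prop}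
    (h : Q (σ.set r (c % 2 ^ w))) (hT : 1 ≤ T) : Exec w S (.imm r c) σ T Q :=
  ⟨1, _, hT, .imm _ _ _, h⟩

theorem exec_add {σ : St} {r s t : Reg} {T : ℕ} {Q : St → Prop}
    (h : Q (σ.set r ((σ.reg s + σ.reg t) % 2 ^ w))) (hT : 1 ≤ T) :
    Exec w S (.add r s t) σ T Q :=
  ⟨1, _, hT, .add _ _ _ _, h⟩

theorem exec_mul {σ : St} {r s t : Reg} {T : ℕ} {Q : St → Prop}
    (h : Q (σ.set r ((σ.reg s * σ.reg t) % 2 ^ w))) (hT : 1 ≤ T) :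
    Exec w S (.mul r s t) σ T Q :=
  ⟨1, _, hT, .mul _ _ _ _, h⟩

theorem exec_load {σ : St} {r a : Reg} {T : ℕ} {Q : St → Prop} (ha : σ.reg a < S)
    (h : Q (σ.set r (σ.mem (σ.reg a)))) (hT : 1 ≤ T) : Exec w S (.load r a) σ T Q :=
  ⟨1, _, hT, .load _ _ _ ha, h⟩

theorem exec_store {σ : St} {a s : Reg} {T : ℕ} {Q : St → Prop} (ha : σ.reg a < S)
    (h : Q (σ.put (σ.reg a) (σ.reg s))) (hT : 1 ≤ T) : Exec w S (.store a s) σ T Q :=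
  ⟨1, _, hT, .store _ _ _ ha, h⟩

theorem exec_if {σ : St} {r s : Reg} {p q : Prog} {T T' : ℕ} {Q : St → Prop}
    (h₁ : σ.reg r < σ.reg s → Exec w S p σ T' Q)
    (h₂ : ¬ σ.reg r < σ.reg s → Exec w S q σ T' Q) (hT : T' + 1 ≤ T) :
    Exec w S (.ifLt r s p q) σ T Q := by
  by_cases h : σ.reg r < σ.reg s
  · obtain ⟨t, σ', h1, h2, h3⟩ := h₁ h
    exact ⟨t + 1, σ', by omega, .ifTrue _ _ _ _ _ _ _ h h2, h3⟩
  · obtain ⟨t, σ', h1, h2, h3⟩ := h₂ h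
    exact ⟨t + 1, σ', by omega, .ifFalse _ _ _ _ _ _ _ h h2, h3⟩

/-- A branch whose outcome may influence the bound. -/
theorem exec_if' {σ : St} {r s : Reg} {p q : Prog} {T₁ T₂ T : ℕ} {Q : St → Prop}
    (h₁ : σ.reg r < σ.reg s → Exec w S p σ T₁ Q ∧ T₁ + 1 ≤ T)
    (h₂ : ¬ σ.reg r < σ.reg s → Exec w S q σ T₂ Q ∧ T₂ + 1 ≤ T) :
    Exec w S (.ifLt r s p q) σ T Q := by
  by_cases h : σ.reg r < σ.reg s
  · obtain ⟨⟨t, σ', h1, h2, h3⟩, h4⟩ := h₁ h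
    exact ⟨t + 1, σ', by omega, .ifTrue _ _ _ _ _ _ _ h h2, h3⟩
  · obtain ⟨⟨t, σ', h1, h2, h3⟩, h4⟩ := h₂ h
    exact ⟨t + 1, σ', by omega, .ifFalse _ _ _ _ _ _ _ h h2, h3⟩

/-- Loops: `Inv j` holds before the `j`-th round, which takes at most `cost j` steps. -/
theorem exec_while {r s : Reg} {p : Prog} {Inv : ℕ → St → Prop} {cost : ℕ → ℕ} {hi : ℕ}
    (hlt : ∀ j σ, j ≤ hi → Inv j σ → (σ.reg r < σ.reg s ↔ j < hi))
    (hstep : ∀ j σ, j < hi → Inv j σ → Exec w S p σ (cost j) (Inv (j + 1))) :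
    ∀ (d j : ℕ), d = hi - j → j ≤ hi → ∀ σ, Inv j σ →
      Exec w S (.whileLt r s p) σ (1 + ∑ i ∈ Finset.Ico j hi, (cost i + 1)) (Inv hi) := by
  intro d
  induction d with
  | zero =>
    intro j hd hj σ hσ
    have hj' : j = hi := by omega
    subst hj'
    refine ⟨1, σ, by omega, .whileDone _ _ _ _ ?_, hσ⟩
    rw [hlt j σ le_rfl hσ]
    omega
  | succ d ih =>
    intro j hd hj σ hσ
    have hj' : j < hi := by omega
    obtain ⟨t₁, σ₁, h1, h2, h3⟩ := hstep j σ hj' hσ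
    obtain ⟨t₂, σ₂, h4, h5, h6⟩ := ih (j + 1) (by omega) hj' σ₁ h3
    refine ⟨t₁ + t₂ + 1, σ₂, ?_, .whileStep _ _ _ _ _ _ _ _ ((hlt j σ hj hσ).2 hj') h2 h5, h6⟩
    rw [Finset.sum_eq_sum_Ico_succ_bot hj']
    omega

theorem exec_while₀ {r s : Reg} {p : Prog} {Inv : ℕ → St → Prop} {cost : ℕ → ℕ} {hi T : ℕ}
    (hlt : ∀ j σ, j ≤ hi → Inv j σ → (σ.reg r < σ.reg s ↔ j < hi))
    (hstep : ∀ j σ, j < hi → Inv j σ → Exec w S p σ (cost j) (Inv (j + 1)))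
    {σ : St} (hσ : Inv 0 σ) (hT : 1 + ∑ i ∈ Finset.range hi, (cost i + 1) ≤ T) {Q : St → Prop}
    (hQ : ∀ σ, Inv hi σ → Q σ) :
    Exec w S (.whileLt r s p) σ T Q := by
  refine (exec_while hlt hstep (hi - 0) 0 rfl (Nat.zero_le _) σ hσ).mono ?_ hQ
  rw [Nat.Ico_zero_eq_range]
  exact hT

@[simp] theorem set_reg (σ : St) (r : Reg) (v : ℕ) (s : Reg) :
    (σ.set r v).reg s = if s = r then v else σ.reg s := by
  simp [St.set, Function.update_apply]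

@[simp] theorem set_mem (σ : St) (r : Reg) (v : ℕ) : (σ.set r v).mem = σ.mem := rfl

@[simp] theorem put_reg (σ : St) (a v : ℕ) : (σ.put a v).reg = σ.reg := rfl

@[simp] theorem put_mem (σ : St) (a v : ℕ) (b : ℕ) :
    (σ.put a v).mem b = if b = a then v else σ.mem b := by
  simp [St.put, Function.update_apply]

end Pool.Agent.V5helper16.KR
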