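import Pool.Agent.V5helper16.KR.Mem

/-! The data structure of a graph. -/

open Classical

namespace Pool.Agent.V5helper16.KR

/-- the neighbours of `x` -/
noncomputable def nb (n : ℕ) (R : ℕ → ℕ → Prop) (x : ℕ) : Finset ℕ :=
  (Finset.range n).filter (R x)

noncomputable def dg (n : ℕ) (R : ℕ → ℕ → Prop) (x : ℕ) : ℕ := (nb n R x).card

noncomputable def nbrs (n : ℕ) (R : ℕ → ℕ → Prop) (x i : ℕ) : ℕ := (nb n R x).toList.getD i 0

/-- `y` is before `x` -/
def pre (n : ℕ) (R : ℕ → ℕ → Prop) (y x : ℕ) : Prop :=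
  dg n R x < dg n R y ∨ (dg n R y = dg n R x ∧ y < x)

noncomputable def rk (n : ℕ) (R : ℕ → ℕ → Prop) (x : ℕ) : ℕ :=
  ((Finset.range n).filter fun y => pre n R y x).card

noncomputable def ct (n D : ℕ) (R R' : ℕ → ℕ → Prop) (x : ℕ) : ℕ :=
  if D ≤ dg n R' x then n else
    ((Finset.range n).filter fun t => D ≤ dg n R x * dg n R' t).card

noncomputable def tb (n k : ℕ) (R R' : ℕ → ℕ → Prop) (x r : ℕ) : ℕ :=
  if h : ∃ j, j ≤ k ∧ ∃ t < n, rk n R' t = r ∧ Wk R j x t then Nat.find h else k + 1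

theorem nbrs_iff (n : ℕ) (R : ℕ → ℕ → Prop) (x y : ℕ) :
    (∃ i < dg n R x, nbrs n R x i = y) ↔ y < n ∧ R x y := by
  have h0 : (nb n R x).toList.length = dg n R x := Finset.length_toList _
  have h1 : y ∈ (nb n R x).toList ↔ y < n ∧ R x y := by
    rw [Finset.mem_toList, nb, Finset.mem_filter, Finset.mem_range]
  rw [← h1, List.mem_iff_getElem, ← h0]
  constructor
  · rintro ⟨i, hi, h⟩
    refine ⟨i, hi, ?_⟩
    rw [← h, nbrs, List.getD_eq_getElem _ _ hi]
  · rintro ⟨i, hi, h⟩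
    refine ⟨i, hi, ?_⟩
    rw [← h, nbrs, List.getD_eq_getElem _ _ hi]

theorem rk_lt (n : ℕ) (R : ℕ → ℕ → Prop) {x : ℕ} (hx : x < n) : rk n R x < n := by
  have h : (Finset.range n).filter (fun y => pre n R y x) ⊂ Finset.range n := by
    rw [Finset.ssubset_iff_of_subset (Finset.filter_subset _ _)]
    refine ⟨x, Finset.mem_range.2 hx, ?_⟩
    rw [Finset.mem_filter]
    rintro ⟨_, h1 | ⟨_, h1⟩⟩ <;> omega
  have := Finset.card_lt_card h
  rwa [Finset.card_range] at this

theorem rk_lt_of_pre (n : ℕ) (R : ℕ → ℕ → Prop) {x y : ℕ} (hx : x < n) (h : pre n R x y) :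
    rk n R x < rk n R y := by
  apply Finset.card_lt_card
  rw [Finset.ssubset_iff_of_subset]
  · refine ⟨x, Finset.mem_filter.2 ⟨Finset.mem_range.2 hx, h⟩, ?_⟩
    rw [Finset.mem_filter]
    rintro ⟨_, h1 | ⟨_, h1⟩⟩ <;> omega
  · intro z hz
    rw [Finset.mem_filter] at hz ⊢
    refine ⟨hz.1, ?_⟩
    obtain ⟨_, h1⟩ := hz
    unfold pre at h h1 ⊢
    omega

theorem rk_inj (n : ℕ) (R : ℕ → ℕ → Prop) {x y : ℕ} (hx : x < n) (hy : y < n)
    (h : rk n R x = rk n R y) : x = y := by
  by_contra hne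
  have h1 : pre n R x y ∨ pre n R y x := by
    unfold pre
    omega
  rcases h1 with h1 | h1
  · have := rk_lt_of_pre n R hx h1
    omega
  · have := rk_lt_of_pre n R hy h1
    omega

theorem rk_lt_ct (n D : ℕ) (R R' : ℕ → ℕ → Prop) {x t : ℕ} (ht : t < n)
    (h : D ≤ dg n R x * dg n R' t ∨ D ≤ dg n R' x) : rk n R' t < ct n D R R' x := by
  unfold ct
  split_ifs with h1
  · exact rk_lt n R' ht
  · have h2 : D ≤ dg n R x * dg n R' t := h.resolve_right h1
    apply Finset.card_lt_card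
    rw [Finset.ssubset_iff_of_subset]
    · refine ⟨t, Finset.mem_filter.2 ⟨Finset.mem_range.2 ht, h2⟩, ?_⟩
      rw [Finset.mem_filter]
      rintro ⟨_, h1 | ⟨_, h1⟩⟩ <;> omega
    · intro z hz
      rw [Finset.mem_filter] at hz ⊢
      refine ⟨hz.1, h2.trans (Nat.mul_le_mul_left _ ?_)⟩
      obtain ⟨_, h1⟩ := hz
      unfold pre at h1
      omega

theorem Wk.mono {R : ℕ → ℕ → Prop} {x : ℕ} (hR : R x x) : ∀ {i j y : ℕ}, i ≤ j → Wk R i x y →
    Wk R j x y := by
  intro i j y hij h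
  induction j with
  | zero =>
    have : i = 0 := by omega
    subst this
    exact h
  | succ j ih =>
    rcases Nat.lt_or_ge j i with h1 | h1
    · have : i = j + 1 := by omega
      subst this
      exact h
    · exact ⟨x, hR, ih h1⟩

theorem tb_iff (n k : ℕ) (R R' : ℕ → ℕ → Prop) {x t j : ℕ} (hR : R x x) (ht : t < n)
    (hj : j ≤ k) : tb n k R R' x (rk n R' t) ≤ j ↔ Wk R j x t := by
  unfold tb
  split_ifs with h
  · constructor
    · intro h1
      obtain ⟨h2, t', ht', h3, h4⟩ := Nat.find_spec h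
      have h5 := rk_inj n R' ht' ht h3
      subst h5
      exact h4.mono hR h1
    · intro h1
      exact Nat.find_min' h ⟨hj, t, ht, rfl, h1⟩
  · constructor
    · intro h1
      omega
    · intro h1
      exact absurd ⟨j, hj, t, ht, rfl, h1⟩ h

theorem tb_le (n k : ℕ) (R R' : ℕ → ℕ → Prop) (x r : ℕ) : tb n k R R' x r ≤ k + 1 := by
  unfold tb
  split_ifs with h
  · exact (Nat.find_spec h).1.trans (Nat.le_succ k)
  · exact le_rfl

theorem dg_le (n : ℕ) (R : ℕ → ℕ → Prop) (x : ℕ) : dg n R x ≤ n := by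
  have := Finset.card_filter_le (Finset.range n) (R x)
  rwa [Finset.card_range] at this

theorem ct_le (n D : ℕ) (R R' : ℕ → ℕ → Prop) (x : ℕ) : ct n D R R' x ≤ n := by
  unfold ct
  split_ifs
  · exact le_rfl
  · have := Finset.card_filter_le (Finset.range n) (fun t => D ≤ dg n R x * dg n R' t)
    rwa [Finset.card_range] at this

theorem dg_pos (n : ℕ) (R : ℕ → ℕ → Prop) {x : ℕ} (hx : x < n) (hR : R x x) : 1 ≤ dg n R x :=
  Finset.card_pos.2 ⟨x, Finset.mem_filter.2 ⟨Finset.mem_range.2 hx, hR⟩⟩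

/-- the data of the graph `R` with the reversed graph `R'` -/
noncomputable def datOf (n k D : ℕ) (R R' : ℕ → ℕ → Prop) (hR : ∀ x < n, R x x) : Dat n where
  deg := dg n R
  cnt := ct n D R R'
  rank := rk n R
  nbr := nbrs n R
  tab := tb n k R R'
  hnbr := fun x _ i hi => ((nbrs_iff n R x _).1 ⟨i, hi, rfl⟩).1
  pos := fun _ hx => dg_pos n R hx (hR _ hx)
  small := fun x _ => dg_le n R x

theorem sum_ct (n D N₁ : ℕ) (R R' : ℕ → ℕ → Prop) (h1 : ∑ x ∈ Finset.range n, dg n R x ≤ N₁)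
    (h2 : ∑ x ∈ Finset.range n, dg n R' x ≤ N₁) :
    D * ∑ x ∈ Finset.range n, ct n D R R' x ≤ N₁ * N₁ + n * N₁ := by
  have h3 : ∀ x ∈ Finset.range n, D * ct n D R R' x ≤ dg n R x * N₁ + n * dg n R' x := by
    intro x _
    unfold ct
    split_ifs with h
    · have : D * n ≤ n * dg n R' x := by
        rw [Nat.mul_comm]
        exact Nat.mul_le_mul_left _ h
      omega
    · have h4 : D * ((Finset.range n).filter fun t => D ≤ dg n R x * dg n R' t).card ≤
          ∑ t ∈ (Finset.range n).filter (fun t => D ≤ dg n R x * dg n R' t),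
            dg n R x * dg n R' t := by
        rw [Nat.mul_comm, ← smul_eq_mul]
        exact Finset.card_nsmul_le_sum _ _ _ fun t ht => (Finset.mem_filter.1 ht).2
      have h5 : ∑ t ∈ (Finset.range n).filter (fun t => D ≤ dg n R x * dg n R' t),
            dg n R x * dg n R' t ≤ dg n R x * N₁ := by
        refine (Finset.sum_le_sum_of_subset (Finset.filter_subset _ _)).trans ?_
        rw [← Finset.mul_sum]
        exact Nat.mul_le_mul_left _ h2
      omega
  rw [Finset.mul_sum]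
  refine (Finset.sum_le_sum h3).trans ?_
  rw [Finset.sum_add_distrib, ← Finset.sum_mul, ← Finset.mul_sum]
  exact Nat.add_le_add (Nat.mul_le_mul_right _ h1) (Nat.mul_le_mul_left _ h2)

/-- walks with `j + 1` steps whose inner vertices are low -/
def Lw (R : ℕ → ℕ → Prop) (low : ℕ → Prop) : ℕ → ℕ → ℕ → Prop
  | 0, x, y => R x y
  | j + 1, x, y => ∃ z, R x z ∧ low z ∧ Lw R low j z y

theorem Lw.wk {R : ℕ → ℕ → Prop} {low : ℕ → Prop} : ∀ {j x y : ℕ}, Lw R low j x y →
    Wk R (j + 1) x y := by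
  intro j
  induction j with
  | zero =>
    intro x y h
    exact Wk.one.2 h
  | succ j ih =>
    intro x y h
    obtain ⟨z, h1, _, h3⟩ := h
    exact ⟨z, h1, ih h3⟩

theorem Lw.of_seq {R : ℕ → ℕ → Prop} {low : ℕ → Prop} (v : ℕ → ℕ) (k : ℕ)
    (h : ∀ i < k, R (v i) (v (i + 1))) (hl : ∀ p, 0 < p → p < k → low (v p)) :
    ∀ j i, i + j + 1 ≤ k → Lw R low j (v i) (v (i + j + 1)) := by
  intro j
  induction j with
  | zero =>
    intro i hi
    exact h i (by omega)
  | succ j ih =>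
    intro i hi
    refine ⟨v (i + 1), h i (by omega), hl _ (by omega) (by omega), ?_⟩
    have := ih (i + 1) (by omega)
    rwa [show i + 1 + j + 1 = i + (j + 1) + 1 by ring] at this

theorem card_Lw (n D : ℕ) (R : ℕ → ℕ → Prop) (low : ℕ → Prop) (hRn : ∀ x y, R x y → y < n)
    (hlow : ∀ z, low z → dg n R z ≤ D) : ∀ j x,
    ((Finset.range n).filter fun y => Lw R low j x y).card ≤ dg n R x * D ^ j := by
  intro j
  induction j with
  | zero =>
    intro x
    rw [pow_zero, Nat.mul_one]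
    exact le_rfl
  | succ j ih =>
    intro x
    have h1 : ((Finset.range n).filter fun y => Lw R low (j + 1) x y) ⊆
        ((nb n R x).filter low).biUnion fun z =>
          (Finset.range n).filter fun y => Lw R low j z y := by
      intro y hy
      rw [Finset.mem_filter] at hy
      obtain ⟨hy1, z, h2, h3, h4⟩ := hy
      rw [Finset.mem_biUnion]
      refine ⟨z, ?_, Finset.mem_filter.2 ⟨hy1, h4⟩⟩
      rw [Finset.mem_filter, nb, Finset.mem_filter, Finset.mem_range]
      exact ⟨⟨hRn x z h2, h2⟩, h3⟩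
    refine (Finset.card_le_card h1).trans (Finset.card_biUnion_le.trans ?_)
    refine (Finset.sum_le_card_nsmul _ _ (D * D ^ j) ?_).trans ?_
    · intro z hz
      exact (ih z).trans (Nat.mul_le_mul_right _ (hlow z (Finset.mem_filter.1 hz).2))
    · rw [smul_eq_mul, pow_succ, Nat.mul_comm (D ^ j) D]
      exact Nat.mul_le_mul_right _ (Finset.card_filter_le _ _)

end Pool.Agent.V5helper16.KR
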