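import Pool.Agent.V5helper16.KR.Top

/-! Concatenation of regions of the memory. -/

open Classical

namespace Pool.Agent.V5helper16.KR

/-- concatenation of `K` lists, the `x`-th of length `l x` -/
theorem exists_concat (l : ℕ → ℕ) (f : ℕ → ℕ → ℕ) (Wd : ℕ) (hWd : 0 < Wd) : ∀ K : ℕ,
    (∀ x < K, ∀ i < l x, f x i < Wd) → ∃ g : ℕ → ℕ, (∀ b, g b < Wd) ∧
      (∀ b, ∑ y ∈ Finset.range K, l y ≤ b → g b = 0) ∧
      ∀ x < K, ∀ i < l x, g (∑ y ∈ Finset.range x, l y + i) = f x i := by
  intro K
  induction K with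
  | zero =>
    intro _
    exact ⟨fun _ => 0, fun _ => hWd, fun _ _ => rfl, fun x hx => by omega⟩
  | succ K ih =>
    intro hf
    obtain ⟨g, h1, h2, h3⟩ := ih fun x hx => hf x (by omega)
    refine ⟨fun b => if b < ∑ y ∈ Finset.range K, l y then g b else
      if b < ∑ y ∈ Finset.range (K + 1), l y then f K (b - ∑ y ∈ Finset.range K, l y) else 0,
      ?_, ?_, ?_⟩
    · intro b
      dsimp only
      split_ifs with h4 h5
      · exact h1 b
      · rw [Finset.sum_range_succ] at h5
        exact hf K (by omega) _ (by omega)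
      · exact hWd
    · intro b hb
      have h4 : ∑ y ∈ Finset.range K, l y ≤ ∑ y ∈ Finset.range (K + 1), l y := by
        rw [Finset.sum_range_succ]
        omega
      dsimp only
      rw [if_neg (by omega), if_neg (by omega)]
    · intro x hx i hi
      dsimp only
      rcases Nat.lt_succ_iff_lt_or_eq.1 hx with h4 | h4
      · have h5 : ∑ y ∈ Finset.range x, l y + i < ∑ y ∈ Finset.range K, l y := by
          have h6 : ∑ y ∈ Finset.range (x + 1), l y ≤ ∑ y ∈ Finset.range K, l y :=
            Finset.sum_le_sum_of_subset (by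
              intro a ha
              rw [Finset.mem_range] at ha ⊢
              omega)
          rw [Finset.sum_range_succ] at h6
          omega
        rw [if_pos h5]
        exact h3 x h4 i hi
      · subst h4
        rw [if_neg (by omega), if_pos (by rw [Finset.sum_range_succ]; omega)]
        congr 1
        omega

theorem prefix_lt (l : ℕ → ℕ) {K x i : ℕ} (hx : x < K) (hi : i < l x) :
    ∑ y ∈ Finset.range x, l y + i < ∑ y ∈ Finset.range K, l y := by
  have h6 : ∑ y ∈ Finset.range (x + 1), l y ≤ ∑ y ∈ Finset.range K, l y :=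
    Finset.sum_le_sum_of_subset (by
      intro a ha
      rw [Finset.mem_range] at ha ⊢
      omega)
  rw [Finset.sum_range_succ] at h6
  omega

theorem prefix_le (l : ℕ → ℕ) {K x : ℕ} (hx : x < K) :
    ∑ y ∈ Finset.range x, l y + l x ≤ ∑ y ∈ Finset.range K, l y := by
  have h6 : ∑ y ∈ Finset.range (x + 1), l y ≤ ∑ y ∈ Finset.range K, l y :=
    Finset.sum_le_sum_of_subset (by
      intro a ha
      rw [Finset.mem_range] at ha ⊢
      omega)
  rw [Finset.sum_range_succ] at h6
  omega

/-- the data for one direction of the graph -/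
structure Dat (n : ℕ) where
  deg : ℕ → ℕ
  cnt : ℕ → ℕ
  rank : ℕ → ℕ
  nbr : ℕ → ℕ → ℕ
  tab : ℕ → ℕ → ℕ
  hnbr : ∀ x < n, ∀ i < deg x, nbr x i < n
  pos : ∀ x < n, 1 ≤ deg x
  small : ∀ x < n, deg x ≤ n

/-- the records -/
def Dat.rcd {n : ℕ} (d : Dat n) (O T : ℕ) (x c : ℕ) : ℕ :=
  if c = 0 then O + ∑ y ∈ Finset.range x, d.deg y else if c = 1 then d.deg x else
    if c = 2 then d.cnt x else if c = 3 then T + ∑ y ∈ Finset.range x, d.cnt y else d.rank x

/-- a block from the contents of the memory -/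
noncomputable def mkBlk {n w S : ℕ} {m : ℕ → ℕ} (d : Dat n) (A O T : ℕ) (hSw : S < 2 ^ w)
    (hA : A + 5 * n ≤ S) (hO : O + ∑ y ∈ Finset.range n, d.deg y ≤ S)
    (hT : T + ∑ y ∈ Finset.range n, d.cnt y ≤ S)
    (h1 : ∀ i < 5 * n, m (A + i) = d.rcd O T (i / 5) (i % 5))
    (h2 : ∀ x < n, ∀ i < d.deg x, m (O + (∑ y ∈ Finset.range x, d.deg y + i)) = d.nbr x i)
    (h3 : ∀ x < n, ∀ i < d.cnt x, m (T + (∑ y ∈ Finset.range x, d.cnt y + i)) = d.tab x i) :
    Blk n w S m where
  A := A
  off := fun x => O + ∑ y ∈ Finset.range x, d.deg y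
  deg := d.deg
  cnt := d.cnt
  row := fun x => T + ∑ y ∈ Finset.range x, d.cnt y
  rank := d.rank
  nbr := d.nbr
  tab := d.tab
  hrec := fun x hx => by omega
  h0 := fun x hx => by
    have h := h1 (5 * x) (by omega)
    rw [h, show 5 * x / 5 = x by omega, show 5 * x % 5 = 0 by omega]
    rfl
  h1 := fun x hx => by
    have h := h1 (5 * x + 1) (by omega)
    rw [Nat.add_assoc, h, show (5 * x + 1) / 5 = x by omega, show (5 * x + 1) % 5 = 1 by omega]
    rfl
  h2 := fun x hx => by
    have h := h1 (5 * x + 2) (by omega)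
    rw [Nat.add_assoc, h, show (5 * x + 2) / 5 = x by omega, show (5 * x + 2) % 5 = 2 by omega]
    rfl
  h3 := fun x hx => by
    have h := h1 (5 * x + 3) (by omega)
    rw [Nat.add_assoc, h, show (5 * x + 3) / 5 = x by omega, show (5 * x + 3) % 5 = 3 by omega]
    rfl
  h4 := fun x hx => by
    have h := h1 (5 * x + 4) (by omega)
    rw [Nat.add_assoc, h, show (5 * x + 4) / 5 = x by omega, show (5 * x + 4) % 5 = 4 by omega]
    rfl
  hlt := fun x hx => by
    have h := prefix_le d.deg hx
    omega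
  hoff := fun x hx i hi => by
    have h := prefix_lt d.deg hx hi
    refine ⟨?_, ?_, d.hnbr x hx i hi⟩
    · omega
    · rw [Nat.add_assoc]
      exact h2 x hx i hi
  hrow := fun x hx i hi => by
    have h := prefix_lt d.cnt hx hi
    refine ⟨?_, ?_⟩
    · omega
    · rw [Nat.add_assoc]
      exact h3 x hx i hi
  pos := d.pos
  small := d.small

end Pool.Agent.V5helper16.KR
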