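import Pool.Agent.V5helper16.KR.PTab

/-! The exploration of the pairs does what it should, within the time. -/

open Classical

namespace Pool.Agent.V5helper16.KR

variable {n w S : ℕ} {m : ℕ → ℕ}

theorem ex_succ (P : ℕ → Prop) (j : ℕ) : (∃ i < j + 1, P i) = ((∃ i < j, P i) ∨ P j) := by
  apply propext
  constructor
  · rintro ⟨i, h1, h2⟩
    rcases Nat.lt_succ_iff_lt_or_eq.1 h1 with h | h
    · exact Or.inl ⟨i, h, h2⟩
    · subst h
      exact Or.inr h2
  · rintro (⟨i, h1, h2⟩ | h)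
    · exact ⟨i, by omega, h2⟩
    · exact ⟨j, by omega, h⟩

theorem exec_expand (e : Env n w S m) (F : Blk n w S m) (f : Reg) (hf10 : 10 ≤ f.1)
    (hf30 : f.1 < 30) (hfF : ∀ ans σ, Ok e ans σ → σ.reg f = F.A) (h x R ans : ℕ) (hx : x < n)
    (hR : R ≤ e.bud) (Φ : ℕ → Prop) (c : ℕ) (body : Prog) (σ : St) (hE : Ok e ans σ)
    (hX : σ.reg (rX h) = x) (hP : σ.reg (rP h) = R)
    (hbody : R * F.deg x ≤ e.bud → ∀ z < n, ∀ ans' σ', Ok e ans' σ' → Keep h σ σ' →
      σ'.reg (rX (h + 1)) = z → σ'.reg (rP (h + 1)) = R * F.deg x →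
      Exec w S body σ' c (fun τ => Ok e (if Φ z then 1 else ans') τ ∧ Keep (h + 1) σ' τ)) :
    Exec w S (expand f h body) σ (11 + if R * F.deg x ≤ e.bud then F.deg x * (c + 3) else 0)
      (fun τ => Ok e (if R * F.deg x ≤ e.bud ∧ ∃ i < F.deg x, Φ (F.nbr x i) then 1 else ans) τ ∧
        Keep h σ τ) := by
  have hw := e.hS
  have h8 := e.h8
  have hrec := F.hrec x hx
  have hlt := F.hlt x hx
  have hsm := F.small x hx
  have hfne : ∀ j, j < 10 → f ≠ (j, 0) := by
    rintro j h2 rfl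
    simp at hf10
    omega
  have hRd : R * F.deg x < 2 ^ w :=
    lt_of_le_of_lt (Nat.mul_le_mul hR hsm) e.hbud
  obtain ⟨d, hd⟩ : ∃ d, d = F.deg x := ⟨_, rfl⟩
  obtain ⟨Rd, hRd'⟩ : ∃ Rd, Rd = R * F.deg x := ⟨_, rfl⟩
  rw [← hRd'] at hbody hRd ⊢
  rw [← hd] at hlt ⊢
  obtain ⟨W, hW⟩ : ∃ W, W = (if Rd ≤ e.bud then d * (c + 3) else 0) := ⟨_, rfl⟩
  rw [← hW]
  have K0 : Keep h σ σ := Keep.refl h σ
  unfold expand
  refine exec_seq (T₁ := 4) (T₂ := 7 + W)
    (exec_rd σ rC f (rX h) rOne F.A x 1 hE.five (hfF _ _ hE) hX hE.one (hfne 1 (by norm_num))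
      (by decide) (by omega) (by omega) le_rfl
      (Q := fun σ' => Ok e ans σ' ∧ Keep h σ σ' ∧ σ'.reg rC = d ∧ σ'.reg (rX h) = x ∧
        σ'.reg (rP h) = R) ?_) ?_ (by omega)
  · rw [hE.mem, F.h1 x hx, ← hd]
    exact ⟨(hE.set (by simp)).set (by simp),
      (K0.set (Or.inl (by simp))).set (Or.inl (by simp)), by simp, by simpa using hX,
      by simpa using hP⟩
  rintro σ1 ⟨hE1, K1, c1, x1, p1⟩
  refine exec_seq (T₁ := 1) (T₂ := 6 + W)
    (exec_mul (Q := fun σ' => Ok e ans σ' ∧ Keep h σ σ' ∧ σ'.reg rC = d ∧ σ'.reg (rX h) = x ∧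
        σ'.reg (rP (h + 1)) = Rd) ?_ le_rfl) ?_ (by omega)
  · rw [p1, c1, hd, ← hRd', Nat.mod_eq_of_lt hRd]
    exact ⟨hE1.set (by simp), K1.set (Or.inr (by simp)), by simpa [hd] using c1,
      by simpa using x1, by simp⟩
  rintro σ2 ⟨hE2, K2, c2, x2, p2⟩
  refine exec_if' (T₁ := 1) (T₂ := 5 + W) ?_ ?_
  · intro hlt'
    rw [hE2.bud, p2] at hlt'
    refine ⟨exec_imm ?_ (by norm_num), by omega⟩
    have hn : ¬ (Rd ≤ e.bud ∧ ∃ i < d, Φ (F.nbr x i)) := fun hc => by omega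
    rw [if_neg hn]
    exact ⟨hE2.set (by simp), K2.set (Or.inl (by simp))⟩
  · intro hlt'
    rw [hE2.bud, p2] at hlt'
    have hle : Rd ≤ e.bud := by omega
    have hW' : W = d * (c + 3) := by rw [hW, if_pos hle]
    refine ⟨?_, by omega⟩
    simp only [hle, true_and]
    -- the beginning of the list
    refine exec_seq (T₁ := 1) (T₂ := 4 + W)
      (exec_mul (Q := fun σ' => Ok e ans σ' ∧ Keep h σ σ' ∧ σ'.reg rC = d ∧
        σ'.reg rTmp = 5 * x ∧ σ'.reg (rP (h + 1)) = Rd) ?_ le_rfl) ?_ (by omega)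
    · rw [hE2.five, x2, Nat.mod_eq_of_lt (by omega)]
      exact ⟨hE2.set (by simp), K2.set (Or.inl (by simp)), by simpa using c2,
        by simp, by simpa using p2⟩
    rintro σ3 ⟨hE3, K3, c3, t3, p3⟩
    refine exec_seq (T₁ := 1) (T₂ := 3 + W)
      (exec_add (Q := fun σ' => Ok e ans σ' ∧ Keep h σ σ' ∧ σ'.reg rC = d ∧
        σ'.reg rTmp = F.A + 5 * x ∧ σ'.reg (rP (h + 1)) = Rd) ?_ le_rfl) ?_ (by omega)
    · rw [hfF _ _ hE3, t3, Nat.mod_eq_of_lt (by omega)]
      exact ⟨hE3.set (by simp), K3.set (Or.inl (by simp)), by simpa using c3,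
        by simp; ring, by simpa using p3⟩
    rintro σ4 ⟨hE4, K4, c4, t4, p4⟩
    refine exec_seq (T₁ := 1) (T₂ := 2 + W)
      (exec_load (Q := fun σ' => Ok e ans σ' ∧ Keep h σ σ' ∧ σ'.reg rC = d ∧
        σ'.reg (rI h) = F.off x ∧ σ'.reg (rP (h + 1)) = Rd) (by rw [t4]; omega) ?_ le_rfl) ?_
      (by omega)
    · rw [t4, hE4.mem, F.h0 x hx]
      exact ⟨hE4.set (by simp), K4.set (Or.inr (by simp)), by simpa using c4,
        by simp, by simpa using p4⟩
    rintro σ5 ⟨hE5, K5, c5, i5, p5⟩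
    refine exec_seq (T₁ := 1) (T₂ := 1 + W)
      (exec_add (Q := fun σ' => Ok e ans σ' ∧ Keep h σ σ' ∧ σ'.reg (rI h) = F.off x + 0 ∧
        σ'.reg (rH h) = F.off x + d ∧ σ'.reg (rP (h + 1)) = Rd) ?_ le_rfl) ?_
      (by omega)
    · rw [i5, c5, Nat.mod_eq_of_lt hlt]
      exact ⟨hE5.set (by simp), K5.set (Or.inr (by simp)), by simpa using i5,
        by simp, by simpa using p5⟩
    rintro σ6 ⟨hE6, K6, i6, h6, p6⟩
    refine exec_while₀ (hi := d)
      (Inv := fun i σ' => Ok e (if ∃ i' < i, Φ (F.nbr x i') then 1 else ans) σ' ∧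
        Keep h σ σ' ∧ σ'.reg (rI h) = F.off x + i ∧ σ'.reg (rH h) = F.off x + d ∧
        σ'.reg (rP (h + 1)) = Rd)
      (cost := fun _ => 2 + c) ?_ ?_ ?_ ?_ ?_
    · rintro i σ' hi ⟨_, _, h1, h2, _⟩
      rw [h1, h2]
      omega
    · rintro i σ' hi ⟨hE7, K7, i7, h7, p7⟩
      obtain ⟨ha1, ha2, ha3⟩ := F.hoff x hx i (by omega)
      obtain ⟨y, hy⟩ : ∃ y, y = F.nbr x i := ⟨_, rfl⟩
      obtain ⟨ans', hans'⟩ : ∃ ans', ans' =
        (if ∃ i' < i, Φ (F.nbr x i') then 1 else ans) := ⟨_, rfl⟩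
      rw [← hy] at ha2 ha3
      rw [← hans'] at hE7
      refine exec_seq (T₁ := 1) (T₂ := 1 + c) (exec_load (Q := fun τ =>
        Ok e ans' τ ∧ Keep h σ τ ∧ τ.reg (rI h) = F.off x + i ∧
        τ.reg (rH h) = F.off x + d ∧ τ.reg (rP (h + 1)) = Rd ∧ τ.reg (rX (h + 1)) = y)
        (by rw [i7]; omega) ?_ le_rfl) ?_ (by omega)
      · rw [i7, hE7.mem, ha2]
        exact ⟨hE7.set (by simp), K7.set (Or.inr (by simp)), by simpa using i7,
          by simpa using h7, by simpa using p7, by simp⟩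
      rintro σ8 ⟨hE8, K8, i8, h8', p8, x8⟩
      refine exec_seq (T₁ := c) (T₂ := 1) (hbody hle y ha3 ans' σ8 hE8 K8 x8 p8) ?_ (by omega)
      rintro τ ⟨hEt, Kt⟩
      refine exec_add ?_ le_rfl
      have g1 : τ.reg (rI h) = F.off x + i := by
        rw [Kt (rI h) (by simp) (by simp), i8]
      have g2 : τ.reg (rH h) = F.off x + d := by
        rw [Kt (rH h) (by simp) (by simp), h8']
      have g3 : τ.reg (rP (h + 1)) = Rd := by
        rw [Kt (rP (h + 1)) (by simp) (by simp), p8]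
      have hans : (if Φ y then 1 else ans') =
          (if ∃ i' < i + 1, Φ (F.nbr x i') then 1 else ans) := by
        rw [hans', hy]
        simp only [ex_succ]
        by_cases u1 : Φ (F.nbr x i)
        · simp [u1]
        · simp [u1]
      rw [← hans, g1, hEt.one, Nat.mod_eq_of_lt (by omega)]
      exact ⟨hEt.set (by simp), (K8.trans (Kt.mono (Nat.le_succ h))).set (Or.inr (by simp)),
        by simp; ring, by simpa using g2, by simpa using g3⟩
    · refine ⟨?_, K6, i6, h6, p6⟩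
      simpa using hE6
    · have e1 : ∑ i ∈ Finset.range d, (2 + c + 1) = d * (c + 3) := by
        rw [Finset.sum_const, Finset.card_range, smul_eq_mul]
        ring
      rw [e1, hW']
    · rintro σ' ⟨hE7, K7, _, _, _⟩
      exact ⟨hE7, K7⟩

/-- time of the backward exploration -/
def tB (bud r R : ℕ) : ℕ := 46 * (r + 1) * bud / R

/-- time of the forward exploration -/
def tF (bud r R : ℕ) : ℕ := 62 * (r + 1) ^ 2 * bud / R

theorem one_le_div {bud R : ℕ} (hR : 1 ≤ R) (h : R ≤ bud) : 1 ≤ bud / R :=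
  (Nat.le_div_iff_mul_le hR).2 (by omega)

theorem tB_ge {bud r R : ℕ} (hR : 1 ≤ R) (h : R ≤ bud) : 46 * (r + 1) ≤ tB bud r R := by
  unfold tB
  rw [Nat.le_div_iff_mul_le hR]
  exact Nat.mul_le_mul_left _ h

theorem tF_ge {bud r R : ℕ} (hR : 1 ≤ R) (h : R ≤ bud) : 62 * (r + 1) ^ 2 ≤ tF bud r R := by
  unfold tF
  rw [Nat.le_div_iff_mul_le hR]
  exact Nat.mul_le_mul_left _ h

theorem tB_step {bud r R d : ℕ} (hR : 1 ≤ R) (hd : 1 ≤ d) (h : R * d ≤ bud) :
    43 + d * (tB bud r (R * d) + 3) ≤ tB bud (r + 1) R := by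
  have h1 : R ≤ bud := (Nat.le_mul_of_pos_right R hd).trans h
  have h2 : 1 ≤ bud / R := one_le_div hR h1
  have h3 : d ≤ bud / R := (Nat.le_div_iff_mul_le hR).2 (by rw [Nat.mul_comm]; exact h)
  have h4 : d * tB bud r (R * d) ≤ tB bud r R := by
    unfold tB
    rw [← Nat.div_div_eq_div_mul]
    exact Nat.mul_div_le _ _
  have h5 : 46 * (bud / R) ≤ 46 * bud / R := Nat.mul_div_le_mul_div_assoc _ _ _
  have h6 : 46 * bud / R + tB bud r R ≤ tB bud (r + 1) R := by
    unfold tB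
    refine (Nat.div_add_div_le_add_div).trans (le_of_eq ?_)
    congr 1
    ring
  calc 43 + d * (tB bud r (R * d) + 3) = 43 + 3 * d + d * tB bud r (R * d) := by ring
    _ ≤ 46 * bud / R + tB bud r R := by omega
    _ ≤ _ := h6

theorem tF_step {bud r R d : ℕ} (hR : 1 ≤ R) (hd : 1 ≤ d) (h : R * d ≤ bud) :
    2 + (tB bud (r + 1) R + (11 + d * (tF bud r (R * d) + 3))) ≤ tF bud (r + 1) R := by
  have h1 : R ≤ bud := (Nat.le_mul_of_pos_right R hd).trans h
  have h2 : 1 ≤ bud / R := one_le_div hR h1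
  have h3 : d ≤ bud / R := (Nat.le_div_iff_mul_le hR).2 (by rw [Nat.mul_comm]; exact h)
  have h4 : d * tF bud r (R * d) ≤ tF bud r R := by
    unfold tF
    rw [← Nat.div_div_eq_div_mul]
    exact Nat.mul_div_le _ _
  have h5 : 16 * (bud / R) ≤ 16 * bud / R := Nat.mul_div_le_mul_div_assoc _ _ _
  have h6 : 16 * bud / R + (tB bud (r + 1) R + tF bud r R) ≤ tF bud (r + 1) R := by
    unfold tB tF
    refine (Nat.add_le_add_left Nat.div_add_div_le_add_div _).trans ?_
    refine (Nat.div_add_div_le_add_div).trans ?_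
    refine Nat.div_le_div_right ?_
    have : 16 * bud + (46 * (r + 1 + 1) * bud + 62 * (r + 1) ^ 2 * bud) +
        (78 * r + 78) * bud = 62 * (r + 1 + 1) ^ 2 * bud := by ring
    omega
  calc 2 + (tB bud (r + 1) R + (11 + d * (tF bud r (R * d) + 3))) =
      13 + 3 * d + tB bud (r + 1) R + d * tF bud r (R * d) := by ring
    _ ≤ 16 * bud / R + (tB bud (r + 1) R + tF bud r R) := by omega
    _ ≤ _ := h6

/-- a positive look-up in the backward exploration -/
def Bh (e : Env n w S m) (x : ℕ) : ℕ → ℕ → ℕ → Prop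
  | 0, _, _ => False
  | r + 1, y, R => (e.B.rank y < e.F.cnt x ∧ e.F.tab x (e.B.rank y) ≤ r + 1) ∨
      (e.F.rank x < e.B.cnt y ∧ e.B.tab y (e.F.rank x) ≤ r + 1) ∨
      (R * e.B.deg y ≤ e.bud ∧ ∃ i < e.B.deg y, Bh e x r (e.B.nbr y i) (R * e.B.deg y))

/-- a positive look-up in the forward exploration -/
def Fh (e : Env n w S m) : ℕ → ℕ → ℕ → Prop
  | 0, _, _ => False
  | r + 1, x, R => Bh e x (r + 1) e.t R ∨
      (R * e.F.deg x ≤ e.bud ∧ ∃ i < e.F.deg x, Fh e r (e.F.nbr x i) (R * e.F.deg x))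

theorem exec_bwd (e : Env n w S m) (x i₀ : ℕ) (hx : x < n) : ∀ (r h y R ans : ℕ) (σ : St),
    i₀ < h → y < n → r + 1 < 2 ^ w → 1 ≤ R → R ≤ e.bud → Ok e ans σ → σ.reg (rX i₀) = x →
    σ.reg (rX h) = y → σ.reg (rP h) = R →
    Exec w S (bwd (rX i₀) r h) σ (tB e.bud r R) (fun τ =>
      Ok e (if Bh e x r y R then 1 else ans) τ ∧ Keep h σ τ) := by
  intro r
  induction r with
  | zero =>
    intro h y R ans σ hi hy hr hR1 hR hE hxr hyr hPr
    have h1 := tB_ge (r := 0) hR1 hR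
    refine exec_imm ?_ (by omega)
    have h2 : (if Bh e x 0 y R then 1 else ans) = ans := if_neg (fun h => h)
    rw [h2]
    exact ⟨hE.set (by simp), (Keep.refl h σ).set (Or.inl (by simp))⟩
  | succ r ih =>
    intro h y R ans σ hi hy hr hR1 hR hE hxr hyr hPr
    have hw := e.hS
    -- the two look-ups
    refine exec_seq (T₁ := 16) (T₂ := 27 + (if R * e.B.deg y ≤ e.bud then
        e.B.deg y * (tB e.bud r (R * e.B.deg y) + 3) else 0))
      (exec_pl e e.F e.B rA (rX i₀) rB (rX h) x y (r + 1) h ans hx hy hr σ hE hE.hA hE.hB hxr hyr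
        (by simp) (by simp) (by simp)) ?_ ?_
    swap
    · split_ifs with hle
      · have := tB_step (r := r) hR1 (e.B.pos y hy) hle
        omega
      · have := tB_ge (r := r + 1) hR1 hR
        omega
    rintro σ1 ⟨hE1, K1⟩
    refine exec_seq (T₁ := 16) (T₂ := 11 + (if R * e.B.deg y ≤ e.bud then
        e.B.deg y * (tB e.bud r (R * e.B.deg y) + 3) else 0))
      (exec_pl e e.B e.F rB (rX h) rA (rX i₀) y x (r + 1) h _ hy hx hr σ1 hE1 hE1.hB hE1.hA
        ((K1 (rX h) (by simp) (by simp)).trans hyr)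
        ((K1 (rX i₀) (by simp) (by simp; omega)).trans hxr)
        (by simp) (by simp) (by simp)) ?_ (by omega)
    rintro σ2 ⟨hE2, K2⟩
    have K12 := K1.trans K2
    refine (exec_expand e e.B rB (by simp) (by simp) (fun _ _ h => h.hB) h y R _ hy hR
      (fun z => Bh e x r z (R * e.B.deg y)) (tB e.bud r (R * e.B.deg y)) _ σ2 hE2
      ((K12 (rX h) (by simp) (by simp)).trans hyr)
      ((K12 (rP h) (by simp) (by simp)).trans hPr) ?_).mono le_rfl ?_
    · intro hle z hz ans' σ' hE' K' hz' hP'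
      refine ih (h + 1) z (R * e.B.deg y) ans' σ' (by omega) hz (by omega) ?_ hle hE' ?_ hz' hP'
      · exact Nat.mul_pos hR1 (e.B.pos y hy)
      · exact ((K12.trans K') (rX i₀) (by simp) (by simp; omega)).trans hxr
    · rintro τ ⟨hEt, Kt⟩
      refine ⟨?_, K12.trans Kt⟩
      have hans : (if R * e.B.deg y ≤ e.bud ∧
          ∃ i < e.B.deg y, Bh e x r (e.B.nbr y i) (R * e.B.deg y) then 1 else
          (if e.F.rank x < e.B.cnt y ∧ e.B.tab y (e.F.rank x) ≤ r + 1 then 1 else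
          (if e.B.rank y < e.F.cnt x ∧ e.F.tab x (e.B.rank y) ≤ r + 1 then 1 else ans))) =
          (if Bh e x (r + 1) y R then 1 else ans) := by
        rw [Bh]
        by_cases u1 : e.B.rank y < e.F.cnt x ∧ e.F.tab x (e.B.rank y) ≤ r + 1
        · simp only [u1, and_self, if_true, ite_self, true_or]
        · by_cases u2 : e.F.rank x < e.B.cnt y ∧ e.B.tab y (e.F.rank x) ≤ r + 1
          · simp only [u2, and_self, if_true, ite_self, true_or, or_true]
          · simp only [u1, u2, if_false, false_or]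
      rw [← hans]
      exact hEt

theorem exec_fwd (e : Env n w S m) : ∀ (r h x R ans : ℕ) (σ : St),
    x < n → r + 1 < 2 ^ w → 1 ≤ R → R ≤ e.bud → Ok e ans σ → σ.reg (rX h) = x →
    σ.reg (rP h) = R →
    Exec w S (fwd r h) σ (tF e.bud r R) (fun τ =>
      Ok e (if Fh e r x R then 1 else ans) τ ∧ Keep h σ τ) := by
  intro r
  induction r with
  | zero =>
    intro h x R ans σ hx hr hR1 hR hE hxr hPr
    have h1 := tF_ge (r := 0) hR1 hR
    refine exec_imm ?_ (by omega)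
    have h2 : (if Fh e 0 x R then 1 else ans) = ans := if_neg (fun h => h)
    rw [h2]
    exact ⟨hE.set (by simp), (Keep.refl h σ).set (Or.inl (by simp))⟩
  | succ r ih =>
    intro h x R ans σ hx hr hR1 hR hE hxr hPr
    have hw := e.hS
    have ht := e.ht
    have hrec := e.F.hrec x hx
    have htrec := e.F.hrec e.t e.ht
    have hbn : e.bud ≤ e.bud * n := Nat.le_mul_of_pos_right _ (by omega)
    have hbud := e.hbud
    obtain ⟨W, hW⟩ : ∃ W, W = (if R * e.F.deg x ≤ e.bud then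
        e.F.deg x * (tF e.bud r (R * e.F.deg x) + 3) else 0) := ⟨_, rfl⟩
    have hWle : 2 + (tB e.bud (r + 1) R + (11 + W)) ≤ tF e.bud (r + 1) R := by
      rw [hW]
      split_ifs with hle
      · exact tF_step hR1 (e.F.pos x hx) hle
      · have h1 := tF_step (r := r) (d := 1) (bud := e.bud) hR1 le_rfl (by rw [Nat.mul_one]; exact hR)
        omega
    refine exec_seq (T₁ := 1) (T₂ := 1 + (tB e.bud (r + 1) R + (11 + W)))
      (exec_add (Q := fun σ' => Ok e ans σ' ∧ Keep h σ σ' ∧ σ'.reg (rX (h + 1)) = e.t) ?_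
        le_rfl) ?_ (by omega)
    · rw [hE.hT, hE.zero, Nat.add_zero, Nat.mod_eq_of_lt (by omega)]
      exact ⟨hE.set (by simp), (Keep.refl h σ).set (Or.inr (by simp)), by simp⟩
    rintro σ1 ⟨hE1, K1, x1⟩
    refine exec_seq (T₁ := 1) (T₂ := tB e.bud (r + 1) R + (11 + W))
      (exec_add (Q := fun σ' => Ok e ans σ' ∧ Keep h σ σ' ∧ σ'.reg (rX (h + 1)) = e.t ∧
        σ'.reg (rP (h + 1)) = R) ?_ le_rfl) ?_ (by omega)
    · rw [K1 (rP h) (by simp) (by simp), hPr, hE1.zero, Nat.add_zero,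
        Nat.mod_eq_of_lt (by omega)]
      exact ⟨hE1.set (by simp), K1.set (Or.inr (by simp)), by simpa using x1, by simp⟩
    rintro σ2 ⟨hE2, K2, x2, p2⟩
    refine exec_seq (T₁ := tB e.bud (r + 1) R) (T₂ := 11 + W)
      (exec_bwd e x h hx (r + 1) (h + 1) e.t R ans σ2 (by omega) e.ht hr hR1 hR hE2
        ((K2 (rX h) (by simp) (by simp)).trans hxr) x2 p2) ?_ (by omega)
    rintro σ3 ⟨hE3, K3⟩
    have K123 : Keep h σ σ3 := K2.trans (K3.mono (Nat.le_succ h))
    rw [hW]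
    refine (exec_expand e e.F rA (by simp) (by simp) (fun _ _ h => h.hA) h x R _ hx hR
      (fun z => Fh e r z (R * e.F.deg x)) (tF e.bud r (R * e.F.deg x)) _ σ3 hE3
      ((K123 (rX h) (by simp) (by simp)).trans hxr)
      ((K123 (rP h) (by simp) (by simp)).trans hPr) ?_).mono le_rfl ?_
    · intro hle z hz ans' σ' hE' K' hz' hP'
      exact ih (h + 1) z (R * e.F.deg x) ans' σ' hz (by omega)
        (Nat.mul_pos hR1 (e.F.pos x hx)) hle hE' hz' hP'
    · rintro τ ⟨hEt, Kt⟩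
      refine ⟨?_, K123.trans Kt⟩
      have hans : (if R * e.F.deg x ≤ e.bud ∧
          ∃ i < e.F.deg x, Fh e r (e.F.nbr x i) (R * e.F.deg x) then 1 else
          (if Bh e x (r + 1) e.t R then 1 else ans)) =
          (if Fh e (r + 1) x R then 1 else ans) := by
        rw [Fh]
        by_cases u1 : Bh e x (r + 1) e.t R
        · simp only [u1, if_true, ite_self, true_or]
        · simp only [u1, if_false, false_or]
      rw [← hans]
      exact hEt

end Pool.Agent.V5helper16.KR
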