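import Pool.Agent.V5helper16.KR.Exec

/-! The query program: tables, registers, programs. -/

open Classical

namespace Pool.Agent.V5helper16.KR

/-- the answer -/
abbrev rAns : Reg := (0, 0)
abbrev rTmp : Reg := (1, 0)
abbrev rC : Reg := (2, 0)
abbrev rE : Reg := (3, 0)
abbrev rR : Reg := (4, 0)
abbrev rZero : Reg := (10, 0)
abbrev rOne : Reg := (11, 0)
abbrev rTwo : Reg := (12, 0)
abbrev rFive : Reg := (13, 0)
abbrev rFour : Reg := (14, 0)
/-- the budget -/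
abbrev rBud : Reg := (15, 0)
/-- the address of the records for the outgoing edges -/
abbrev rA : Reg := (16, 0)
/-- the address of the records for the incoming edges -/
abbrev rB : Reg := (17, 0)
/-- the target -/
abbrev rT : Reg := (18, 0)
/-- current vertex, product of the degrees, loop counter, end of the loop -/
abbrev rX (h : ℕ) : Reg := (30, h)
abbrev rP (h : ℕ) : Reg := (31, h)
abbrev rI (h : ℕ) : Reg := (32, h)
abbrev rH (h : ℕ) : Reg := (33, h)

/-- `rTmp := f + 5 * x + c` -/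
def fld (f x c : Reg) : Prog :=
  .seq (.mul rTmp rFive x) (.seq (.add rTmp rTmp f) (.add rTmp rTmp c))

/-- read a field of a record -/
def rd (r f x c : Reg) : Prog := .seq (fld f x c) (.load r rTmp)

/-- compare an entry of the table with `r` -/
def lookup (r : ℕ) : Prog :=
  .seq (.add rTmp rTmp rOne) (.seq (.load rTmp rTmp) (.seq (.add rTmp rTmp rR)
    (.seq (.load rC rTmp) (.seq (.imm rE (r + 1)) (.ifLt rC rE (.imm rAns 1) (.imm rC 0))))))

/-- look up the pair `(x, y)` in the table of the block `f` -/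
def pl (f x g y : Reg) (r : ℕ) : Prog :=
  .seq (rd rR g y rFour) (.seq (rd rC f x rTwo) (.ifLt rR rC (lookup r) (.imm rTmp 0)))

/-- for all neighbours, if the budget allows it -/
def expand (f : Reg) (h : ℕ) (body : Prog) : Prog :=
  .seq (rd rC f (rX h) rOne) (.seq (.mul (rP (h + 1)) (rP h) rC)
    (.ifLt rBud (rP (h + 1)) (.imm rTmp 0)
      (.seq (.mul rTmp rFive (rX h)) (.seq (.add rTmp rTmp f) (.seq (.load (rI h) rTmp)
        (.seq (.add (rH h) (rI h) rC)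
          (.whileLt (rI h) (rH h) (.seq (.load (rX (h + 1)) (rI h))
            (.seq body (.add (rI h) (rI h) rOne))))))))))

/-- backward exploration; `xr` is the register of the first vertex of the pair -/
def bwd (xr : Reg) : ℕ → ℕ → Prog
  | 0, _ => .imm rTmp 0
  | r + 1, h => .seq (pl rA xr rB (rX h) (r + 1)) (.seq (pl rB (rX h) rA xr (r + 1))
      (expand rB h (bwd xr r (h + 1))))

/-- forward exploration -/
def fwd : ℕ → ℕ → Prog
  | 0, _ => .imm rTmp 0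
  | r + 1, h => .seq (.add (rX (h + 1)) rT rZero) (.seq (.add (rP (h + 1)) (rP h) rZero)
      (.seq (bwd (rX h) (r + 1) (h + 1)) (expand rA h (fwd r (h + 1)))))

/-- the part of the data structure for one direction of the graph: record of `x` at `A + 5 * x`
with the address of the list of neighbours, its length, the length and the address of the row of
`x` in the table, and the rank of `x` -/
structure Blk (n w S : ℕ) (m : ℕ → ℕ) where
  A : ℕ
  off : ℕ → ℕ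
  deg : ℕ → ℕ
  cnt : ℕ → ℕ
  row : ℕ → ℕ
  rank : ℕ → ℕ
  nbr : ℕ → ℕ → ℕ
  tab : ℕ → ℕ → ℕ
  hrec : ∀ x < n, A + 5 * x + 4 < S
  h0 : ∀ x < n, m (A + 5 * x) = off x
  h1 : ∀ x < n, m (A + 5 * x + 1) = deg x
  h2 : ∀ x < n, m (A + 5 * x + 2) = cnt x
  h3 : ∀ x < n, m (A + 5 * x + 3) = row x
  h4 : ∀ x < n, m (A + 5 * x + 4) = rank x
  hlt : ∀ x < n, off x + deg x < 2 ^ w
  hoff : ∀ x < n, ∀ i < deg x, off x + i < S ∧ m (off x + i) = nbr x i ∧ nbr x i < n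
  hrow : ∀ x < n, ∀ r < cnt x, row x + r < S ∧ m (row x + r) = tab x r
  pos : ∀ x < n, 1 ≤ deg x
  small : ∀ x < n, deg x ≤ n

/-- the environment of the exploration -/
structure Env (n w S : ℕ) (m : ℕ → ℕ) where
  F : Blk n w S m
  B : Blk n w S m
  bud : ℕ
  t : ℕ
  ht : t < n
  hS : S ≤ 2 ^ w
  h8 : 8 ≤ 2 ^ w
  hbud : bud * n < 2 ^ w
  hbud1 : 1 ≤ bud

variable {n w S : ℕ} {m : ℕ → ℕ}

/-- the registers of the constants -/
structure Ok (e : Env n w S m) (ans : ℕ) (σ : St) : Prop where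
  mem : σ.mem = m
  ans : σ.reg rAns = ans
  zero : σ.reg rZero = 0
  one : σ.reg rOne = 1
  two : σ.reg rTwo = 2
  five : σ.reg rFive = 5
  four : σ.reg rFour = 4
  bud : σ.reg rBud = e.bud
  hA : σ.reg rA = e.F.A
  hB : σ.reg rB = e.B.A
  hT : σ.reg rT = e.t

theorem Ok.set {e : Env n w S m} {ans : ℕ} {σ : St} (h : Ok e ans σ) {r : Reg} {v : ℕ}
    (hr : (1 ≤ r.1 ∧ r.1 < 10) ∨ 30 ≤ r.1) : Ok e ans (σ.set r v) := by
  have key : ∀ q : Reg, (q.1 = 0 ∨ 10 ≤ q.1 ∧ q.1 < 30) → (σ.set r v).reg q = σ.reg q := by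
    intro q hq
    rw [set_reg, if_neg]
    rintro rfl
    omega
  exact ⟨h.mem, (key _ (by simp)).trans h.ans, (key _ (by simp)).trans h.zero,
    (key _ (by simp)).trans h.one, (key _ (by simp)).trans h.two, (key _ (by simp)).trans h.five,
    (key _ (by simp)).trans h.four, (key _ (by simp)).trans h.bud, (key _ (by simp)).trans h.hA,
    (key _ (by simp)).trans h.hB, (key _ (by simp)).trans h.hT⟩

theorem Ok.setAns {e : Env n w S m} {ans : ℕ} {σ : St} (h : Ok e ans σ) {v : ℕ} :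
    Ok e v (σ.set rAns v) := by
  have key : ∀ q : Reg, q ≠ rAns → (σ.set rAns v).reg q = σ.reg q := by
    intro q hq
    rw [set_reg, if_neg hq]
  exact ⟨h.mem, by simp, (key _ (by decide)).trans h.zero,
    (key _ (by decide)).trans h.one, (key _ (by decide)).trans h.two,
    (key _ (by decide)).trans h.five,
    (key _ (by decide)).trans h.four, (key _ (by decide)).trans h.bud,
    (key _ (by decide)).trans h.hA,
    (key _ (by decide)).trans h.hB, (key _ (by decide)).trans h.hT⟩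

/-- registers which are not changed by the code at stack height `h` -/
def Keep (h : ℕ) (σ σ' : St) : Prop :=
  ∀ r : Reg, 10 ≤ r.1 → ¬ (30 ≤ r.1 ∧ (h < r.2 ∨ (h = r.2 ∧ 32 ≤ r.1))) → σ'.reg r = σ.reg r

theorem Keep.refl (i : ℕ) (σ : St) : Keep i σ σ := fun _ _ _ => rfl

theorem Keep.trans {i : ℕ} {σ₁ σ₂ σ₃ : St} (h : Keep i σ₁ σ₂) (h' : Keep i σ₂ σ₃) :
    Keep i σ₁ σ₃ := fun r h1 h2 => (h' r h1 h2).trans (h r h1 h2)

theorem Keep.mono {i j : ℕ} (hij : i ≤ j) {σ₁ σ₂ : St} (h : Keep j σ₁ σ₂) :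
    Keep i σ₁ σ₂ := fun r h1 h2 => h r h1 (by omega)

theorem Keep.set {i : ℕ} {σ₁ σ₂ : St} (h : Keep i σ₁ σ₂) {r : Reg} {v : ℕ}
    (hr : r.1 < 10 ∨ (30 ≤ r.1 ∧ (i < r.2 ∨ (i = r.2 ∧ 32 ≤ r.1)))) :
    Keep i σ₁ (σ₂.set r v) := by
  intro s h1 h2
  rw [set_reg, if_neg, h s h1 h2]
  rintro rfl
  omega

theorem set_set (σ : St) (r : Reg) (a b : ℕ) : (σ.set r a).set r b = σ.set r b := by
  simp [St.set]

theorem exec_fld (σ : St) (f x c : Reg) (A X cc : ℕ) (h5 : σ.reg rFive = 5) (hf : σ.reg f = A)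
    (hx : σ.reg x = X) (hc : σ.reg c = cc) (hf' : f ≠ rTmp) (hc' : c ≠ rTmp)
    (hlt : A + 5 * X + cc < 2 ^ w) :
    Exec w S (fld f x c) σ 3 (fun σ' => σ' = σ.set rTmp (A + 5 * X + cc)) := by
  refine exec_seq (T₁ := 1) (T₂ := 2) (exec_mul (Q := fun σ' => σ' = σ.set rTmp (5 * X))
    ?_ le_rfl) ?_ (by norm_num)
  · rw [h5, hx, Nat.mod_eq_of_lt (by omega)]
  rintro _ rfl
  refine exec_seq (T₁ := 1) (T₂ := 1) (exec_add (Q := fun σ' => σ' = σ.set rTmp (A + 5 * X))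
    ?_ le_rfl) ?_ (by norm_num)
  · rw [set_reg, if_pos rfl, set_reg, if_neg hf', hf, Nat.mod_eq_of_lt (by omega), set_set,
      Nat.add_comm]
  rintro _ rfl
  refine exec_add ?_ le_rfl
  rw [set_reg, if_pos rfl, set_reg, if_neg hc', hc, Nat.mod_eq_of_lt (by omega), set_set]

theorem exec_rd (σ : St) (r f x c : Reg) (A X cc : ℕ) (h5 : σ.reg rFive = 5) (hf : σ.reg f = A)
    (hx : σ.reg x = X) (hc : σ.reg c = cc) (hf' : f ≠ rTmp) (hc' : c ≠ rTmp)
    (hlt : A + 5 * X + cc < 2 ^ w) (hS : A + 5 * X + cc < S) {Q : St → Prop} {T : ℕ} (hT : 4 ≤ T)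
    (hQ : Q ((σ.set rTmp (A + 5 * X + cc)).set r (σ.mem (A + 5 * X + cc)))) :
    Exec w S (rd r f x c) σ T Q := by
  refine exec_seq (T₁ := 3) (T₂ := 1) (exec_fld σ f x c A X cc h5 hf hx hc hf' hc' hlt) ?_
    (by omega)
  rintro _ rfl
  refine exec_load ?_ ?_ le_rfl
  · rw [set_reg, if_pos rfl]
    exact hS
  · rw [set_reg, if_pos rfl, set_mem]
    exact hQ

theorem exec_lookup (e : Env n w S m) (B : Blk n w S m) (ρ x r : ℕ) (hx : x < n) (h : ℕ) (σ : St)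
    (ans : ℕ) (hE : Ok e ans σ) (hT : σ.reg rTmp = B.A + 5 * x + 2)
    (hR : σ.reg rR = ρ) (hρ : ρ < B.cnt x) (hrem : r + 1 < 2 ^ w) :
    Exec w S (lookup r) σ 7 (fun σ' =>
      Ok e (if B.tab x ρ ≤ r then 1 else ans) σ' ∧ Keep h σ σ') := by
  have hw := e.hS
  have h8 := e.h8
  have hrec := B.hrec x hx
  obtain ⟨hr2, hr3⟩ := B.hrow x hx ρ hρ
  have K0 : Keep h σ σ := Keep.refl h σ
  -- 1
  refine exec_seq (T₁ := 1) (T₂ := 6) (exec_add (Q := fun σ' => Ok e ans σ' ∧ Keep h σ σ' ∧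
    σ'.reg rTmp = B.A + 5 * x + 3 ∧ σ'.reg rR = ρ) ?_ le_rfl) ?_ (by norm_num)
  · rw [hT, hE.one, Nat.mod_eq_of_lt (by omega)]
    exact ⟨hE.set (by simp), K0.set (Or.inl (by simp)), by simp, by simpa using hR⟩
  rintro σ1 ⟨hE1, K1, t1, r1⟩
  -- 2
  refine exec_seq (T₁ := 1) (T₂ := 5) (exec_load (Q := fun σ' => Ok e ans σ' ∧ Keep h σ σ' ∧
    σ'.reg rTmp = B.row x ∧ σ'.reg rR = ρ) (by rw [t1]; omega) ?_ le_rfl) ?_ (by norm_num)
  · rw [t1, hE1.mem, B.h3 x hx]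
    exact ⟨hE1.set (by simp), K1.set (Or.inl (by simp)), by simp, by simpa using r1⟩
  rintro σ2 ⟨hE2, K2, t2, r2⟩
  -- 3
  refine exec_seq (T₁ := 1) (T₂ := 4) (exec_add (Q := fun σ' => Ok e ans σ' ∧ Keep h σ σ' ∧
    σ'.reg rTmp = B.row x + ρ) ?_ le_rfl) ?_ (by norm_num)
  · rw [t2, r2, Nat.mod_eq_of_lt (by omega)]
    exact ⟨hE2.set (by simp), K2.set (Or.inl (by simp)), by simp⟩
  rintro σ3 ⟨hE3, K3, t3⟩
  -- 4
  refine exec_seq (T₁ := 1) (T₂ := 3) (exec_load (Q := fun σ' => Ok e ans σ' ∧ Keep h σ σ' ∧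
    σ'.reg rC = B.tab x ρ) (by rw [t3]; omega) ?_ le_rfl) ?_ (by norm_num)
  · rw [t3, hE3.mem, hr3]
    exact ⟨hE3.set (by simp), K3.set (Or.inl (by simp)), by simp⟩
  rintro σ4 ⟨hE4, K4, t4⟩
  -- 5
  refine exec_seq (T₁ := 1) (T₂ := 2) (exec_imm (Q := fun σ' => Ok e ans σ' ∧ Keep h σ σ' ∧
    σ'.reg rC = B.tab x ρ ∧ σ'.reg rE = r + 1) ?_ le_rfl) ?_ (by norm_num)
  · rw [Nat.mod_eq_of_lt hrem]
    exact ⟨hE4.set (by simp), K4.set (Or.inl (by simp)), by simpa using t4, by simp⟩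
  rintro σ5 ⟨hE5, K5, t5, u5⟩
  refine exec_if (T' := 1) ?_ ?_ (by norm_num)
  · intro hlt
    rw [t5, u5] at hlt
    refine exec_imm ?_ le_rfl
    rw [Nat.mod_eq_of_lt (by omega), if_pos (by omega)]
    exact ⟨hE5.setAns, K5.set (Or.inl (by simp))⟩
  · intro hlt
    rw [t5, u5] at hlt
    refine exec_imm ?_ le_rfl
    rw [Nat.mod_eq_of_lt (by omega), if_neg (by omega)]
    exact ⟨hE5.set (by simp), K5.set (Or.inl (by simp))⟩

theorem exec_pl (e : Env n w S m) (F G : Blk n w S m) (f x g y : Reg) (X Y r h ans : ℕ)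
    (hX : X < n) (hY : Y < n) (hrem : r + 1 < 2 ^ w) (σ : St) (hE : Ok e ans σ)
    (hf : σ.reg f = F.A) (hg : σ.reg g = G.A) (hx : σ.reg x = X) (hy : σ.reg y = Y)
    (hf1 : 10 ≤ f.1) (hg1 : 10 ≤ g.1) (hx1 : 10 ≤ x.1) :
    Exec w S (pl f x g y r) σ 16 (fun σ' =>
      Ok e (if G.rank Y < F.cnt X ∧ F.tab X (G.rank Y) ≤ r then 1 else ans) σ' ∧
        Keep h σ σ') := by
  have hw := e.hS
  have hrecY := G.hrec Y hY
  have hrecX := F.hrec X hX
  have K0 : Keep h σ σ := Keep.refl h σ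
  have hne : ∀ q : Reg, 10 ≤ q.1 → ∀ j, j < 10 → q ≠ (j, 0) := by
    rintro q h1 j h2 rfl
    simp at h1
    omega
  refine exec_seq (T₁ := 4) (T₂ := 12)
    (exec_rd σ rR g y rFour G.A Y 4 hE.five hg hy hE.four (hne g hg1 1 (by norm_num)) (by decide)
      (by omega) (by omega) le_rfl
      (Q := fun σ' => Ok e ans σ' ∧ Keep h σ σ' ∧ σ'.reg rR = G.rank Y ∧ σ'.reg f = F.A ∧
        σ'.reg x = X) ?_) ?_ (by omega)
  · rw [hE.mem, G.h4 Y hY]
    refine ⟨(hE.set (by simp)).set (by simp),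
      (K0.set (Or.inl (by simp))).set (Or.inl (by simp)), by simp, ?_, ?_⟩
    · rw [set_reg, if_neg (hne f hf1 4 (by norm_num)), set_reg,
        if_neg (hne f hf1 1 (by norm_num)), hf]
    · rw [set_reg, if_neg (hne x hx1 4 (by norm_num)), set_reg,
        if_neg (hne x hx1 1 (by norm_num)), hx]
  rintro σ1 ⟨hE1, K1, r1, f1, x1⟩
  refine exec_seq (T₁ := 4) (T₂ := 8)
    (exec_rd σ1 rC f x rTwo F.A X 2 hE1.five f1 x1 hE1.two (hne f hf1 1 (by norm_num)) (by decide)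
      (by omega) (by omega) le_rfl
      (Q := fun σ' => Ok e ans σ' ∧ Keep h σ σ' ∧ σ'.reg rR = G.rank Y ∧
        σ'.reg rC = F.cnt X ∧ σ'.reg rTmp = F.A + 5 * X + 2) ?_) ?_ (by omega)
  · rw [hE1.mem, F.h2 X hX]
    exact ⟨(hE1.set (by simp)).set (by simp),
      (K1.set (Or.inl (by simp))).set (Or.inl (by simp)), by simpa using r1, by simp,
      by simp⟩
  rintro σ2 ⟨hE2, K2, r2, c2, t2⟩
  refine exec_if (T' := 7) ?_ ?_ (by norm_num)
  · intro hlt
    rw [r2, c2] at hlt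
    refine (exec_lookup e F (G.rank Y) X r hX h σ2 ans hE2 t2 r2 hlt hrem).mono le_rfl ?_
    rintro τ ⟨hEt, Kt⟩
    refine ⟨?_, K2.trans Kt⟩
    simp only [hlt, true_and]
    exact hEt
  · intro hlt
    rw [r2, c2] at hlt
    refine exec_imm ?_ (by norm_num)
    simp only [hlt, false_and, if_false]
    exact ⟨hE2.set (by simp), K2.set (Or.inl (by simp))⟩

end Pool.Agent.V5helper16.KR
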