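import Pool.Agent.V5helper16.KR.Comb

/-! The whole query program. -/

open Classical

namespace Pool.Agent.V5helper16.KR

variable {n w S : ℕ} {m : ℕ → ℕ}

abbrev rZ : Reg := (20, 0)
abbrev rW : Reg := (21, 0)
abbrev rQ : Reg := (22, 0)

/-- initialisation -/
def initP : Prog :=
  .seq (.imm rZero 0) (.seq (.imm rOne 1) (.seq (.imm rTwo 2) (.seq (.imm rFive 5)
    (.seq (.imm rFour 4) (.seq (.imm rTmp 3) (.seq (.load rBud rZero) (.seq (.load rA rOne)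
      (.seq (.load rB rTwo) (.seq (.load rZ rTmp) (.seq (.load rW rFour) (.seq (.load rQ rFive)
        (.seq (.add (rX 0) (0, 0) rZero) (.seq (.add rT (0, 1) rZero) (.seq (.imm (rP 0) 1)
          (.imm rAns 0)))))))))))))))

/-- the dictionary -/
def dictP : Prog :=
  .seq (.mul rTmp rTwo rT) (.seq (.add rTmp rTmp rZ) (.seq (.load rC rTmp)
    (.seq (.add rTmp rTmp rOne) (.seq (.load rE rTmp) (.seq (.mul rTmp rW (rX 0))
      (.seq (.add rTmp rTmp rC) (.seq (.add rTmp rTmp rQ) (.seq (.load rTmp rTmp)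
        (.seq (.add rTmp rTmp rE) (.seq (.load rC rTmp)
          (.ifLt rZero rC (.imm rAns 1) (.imm rTmp 0))))))))))))

/-- the query program for `k`-reachability -/
def query (k : ℕ) : Prog := .seq initP (.seq dictP (fwd k 0))

/-- the dictionary for the relation `Low` -/
structure Dic (n w S : ℕ) (m : ℕ → ℕ) (Low : ℕ → ℕ → Prop) where
  Z : ℕ
  W : ℕ
  Q : ℕ
  qd : ℕ → ℕ
  rm : ℕ → ℕ
  ptr : ℕ → ℕ → ℕ
  hZ : ∀ t < n, Z + 2 * t + 1 < S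
  hq : ∀ t < n, m (Z + 2 * t) = qd t
  hr : ∀ t < n, m (Z + 2 * t + 1) = rm t
  hp : ∀ s < n, ∀ t < n, Q + (W * s + qd t) < S ∧ m (Q + (W * s + qd t)) = ptr s t
  hd : ∀ s < n, ∀ t < n, ptr s t + rm t < S ∧ (0 < m (ptr s t + rm t) ↔ Low s t)

theorem exec_init (e : Env n w S m) {Low : ℕ → ℕ → Prop} (d : Dic n w S m Low) (s : ℕ)
    (hs : s < n) (hS6 : 6 ≤ S) (h0 : m 0 = e.bud) (h1 : m 1 = e.F.A) (h2 : m 2 = e.B.A)
    (h3 : m 3 = d.Z) (h4 : m 4 = d.W) (h5 : m 5 = d.Q) :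
    Exec w S initP (start m s e.t) 16 (fun σ => Ok e 0 σ ∧ σ.reg (rX 0) = s ∧
      σ.reg (rP 0) = 1 ∧ σ.reg rZ = d.Z ∧ σ.reg rW = d.W ∧ σ.reg rQ = d.Q) := by
  have hw := e.hS
  have h8 := e.h8
  have hrec := e.F.hrec s hs
  have htrec := e.F.hrec e.t e.ht
  unfold initP
  refine exec_seq (T₁ := 1) (T₂ := 15) (exec_imm (Q := fun σ => σ.mem = m ∧
    σ.reg (0, 0) = s ∧ σ.reg (0, 1) = e.t ∧ σ.reg rZero = 0) ?_ le_rfl) ?_ (by norm_num)
  · exact ⟨rfl, by simp [start], by simp [start], by simp⟩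
  rintro σ1 ⟨m1, a1, b1, z1⟩
  refine exec_seq (T₁ := 1) (T₂ := 14) (exec_imm (Q := fun σ => σ.mem = m ∧
    σ.reg (0, 0) = s ∧ σ.reg (0, 1) = e.t ∧ σ.reg rZero = 0 ∧ σ.reg rOne = 1) ?_ le_rfl) ?_
    (by norm_num)
  · rw [Nat.mod_eq_of_lt (by omega)]
    exact ⟨m1, by simpa using a1, by simpa using b1, by simpa using z1, by simp⟩
  rintro σ2 ⟨m2, a2, b2, z2, o2⟩
  refine exec_seq (T₁ := 1) (T₂ := 13) (exec_imm (Q := fun σ => σ.mem = m ∧
    σ.reg (0, 0) = s ∧ σ.reg (0, 1) = e.t ∧ σ.reg rZero = 0 ∧ σ.reg rOne = 1 ∧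
    σ.reg rTwo = 2) ?_ le_rfl) ?_ (by norm_num)
  · rw [Nat.mod_eq_of_lt (by omega)]
    exact ⟨m2, by simpa using a2, by simpa using b2, by simpa using z2, by simpa using o2,
      by simp⟩
  rintro σ3 ⟨m3, a3, b3, z3, o3, t3⟩
  refine exec_seq (T₁ := 1) (T₂ := 12) (exec_imm (Q := fun σ => σ.mem = m ∧
    σ.reg (0, 0) = s ∧ σ.reg (0, 1) = e.t ∧ σ.reg rZero = 0 ∧ σ.reg rOne = 1 ∧
    σ.reg rTwo = 2 ∧ σ.reg rFive = 5) ?_ le_rfl) ?_ (by norm_num)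
  · rw [Nat.mod_eq_of_lt (by omega)]
    exact ⟨m3, by simpa using a3, by simpa using b3, by simpa using z3, by simpa using o3,
      by simpa using t3, by simp⟩
  rintro σ4 ⟨m4, a4, b4, z4, o4, t4, f4⟩
  refine exec_seq (T₁ := 1) (T₂ := 11) (exec_imm (Q := fun σ => σ.mem = m ∧
    σ.reg (0, 0) = s ∧ σ.reg (0, 1) = e.t ∧ σ.reg rZero = 0 ∧ σ.reg rOne = 1 ∧
    σ.reg rTwo = 2 ∧ σ.reg rFive = 5 ∧ σ.reg rFour = 4) ?_ le_rfl) ?_ (by norm_num)
  · rw [Nat.mod_eq_of_lt (by omega)]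
    exact ⟨m4, by simpa using a4, by simpa using b4, by simpa using z4, by simpa using o4,
      by simpa using t4, by simpa using f4, by simp⟩
  rintro σ5 ⟨m5, a5, b5, z5, o5, t5, f5, g5⟩
  refine exec_seq (T₁ := 1) (T₂ := 10) (exec_imm (Q := fun σ => σ.mem = m ∧
    σ.reg (0, 0) = s ∧ σ.reg (0, 1) = e.t ∧ σ.reg rZero = 0 ∧ σ.reg rOne = 1 ∧
    σ.reg rTwo = 2 ∧ σ.reg rFive = 5 ∧ σ.reg rFour = 4 ∧ σ.reg rTmp = 3) ?_ le_rfl) ?_
    (by norm_num)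
  · rw [Nat.mod_eq_of_lt (by omega)]
    exact ⟨m5, by simpa using a5, by simpa using b5, by simpa using z5, by simpa using o5,
      by simpa using t5, by simpa using f5, by simpa using g5, by simp⟩
  rintro σ6 ⟨m6, a6, b6, z6, o6, t6, f6, g6, c6⟩
  refine exec_seq (T₁ := 1) (T₂ := 9) (exec_load (Q := fun σ => σ.mem = m ∧
    σ.reg (0, 0) = s ∧ σ.reg (0, 1) = e.t ∧ σ.reg rZero = 0 ∧ σ.reg rOne = 1 ∧
    σ.reg rTwo = 2 ∧ σ.reg rFive = 5 ∧ σ.reg rFour = 4 ∧ σ.reg rTmp = 3 ∧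
    σ.reg rBud = e.bud) (by rw [z6]; omega) ?_ le_rfl) ?_ (by norm_num)
  · rw [z6, m6, h0]
    exact ⟨m6, by simpa using a6, by simpa using b6, by simpa using z6, by simpa using o6,
      by simpa using t6, by simpa using f6, by simpa using g6, by simpa using c6, by simp⟩
  rintro σ7 ⟨m7, a7, b7, z7, o7, t7, f7, g7, c7, u7⟩
  refine exec_seq (T₁ := 1) (T₂ := 8) (exec_load (Q := fun σ => σ.mem = m ∧
    σ.reg (0, 0) = s ∧ σ.reg (0, 1) = e.t ∧ σ.reg rZero = 0 ∧ σ.reg rOne = 1 ∧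
    σ.reg rTwo = 2 ∧ σ.reg rFive = 5 ∧ σ.reg rFour = 4 ∧ σ.reg rTmp = 3 ∧
    σ.reg rBud = e.bud ∧ σ.reg rA = e.F.A) (by rw [o7]; omega) ?_ le_rfl) ?_ (by norm_num)
  · rw [o7, m7, h1]
    exact ⟨m7, by simpa using a7, by simpa using b7, by simpa using z7, by simpa using o7,
      by simpa using t7, by simpa using f7, by simpa using g7, by simpa using c7,
      by simpa using u7, by simp⟩
  rintro σ8 ⟨m8, a8, b8, z8, o8, t8, f8, g8, c8, u8, v8⟩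
  refine exec_seq (T₁ := 1) (T₂ := 7) (exec_load (Q := fun σ => σ.mem = m ∧
    σ.reg (0, 0) = s ∧ σ.reg (0, 1) = e.t ∧ σ.reg rZero = 0 ∧ σ.reg rOne = 1 ∧
    σ.reg rTwo = 2 ∧ σ.reg rFive = 5 ∧ σ.reg rFour = 4 ∧ σ.reg rTmp = 3 ∧
    σ.reg rBud = e.bud ∧ σ.reg rA = e.F.A ∧ σ.reg rB = e.B.A) (by rw [t8]; omega) ?_ le_rfl) ?_
    (by norm_num)
  · rw [t8, m8, h2]
    exact ⟨m8, by simpa using a8, by simpa using b8, by simpa using z8, by simpa using o8,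
      by simpa using t8, by simpa using f8, by simpa using g8, by simpa using c8,
      by simpa using u8, by simpa using v8, by simp⟩
  rintro σ9 ⟨m9, a9, b9, z9, o9, t9, f9, g9, c9, u9, v9, w9⟩
  refine exec_seq (T₁ := 1) (T₂ := 6) (exec_load (Q := fun σ => σ.mem = m ∧
    σ.reg (0, 0) = s ∧ σ.reg (0, 1) = e.t ∧ σ.reg rZero = 0 ∧ σ.reg rOne = 1 ∧
    σ.reg rTwo = 2 ∧ σ.reg rFive = 5 ∧ σ.reg rFour = 4 ∧ σ.reg rZ = d.Z ∧
    σ.reg rBud = e.bud ∧ σ.reg rA = e.F.A ∧ σ.reg rB = e.B.A) (by rw [c9]; omega) ?_ le_rfl) ?_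
    (by norm_num)
  · rw [c9, m9, h3]
    exact ⟨m9, by simpa using a9, by simpa using b9, by simpa using z9, by simpa using o9,
      by simpa using t9, by simpa using f9, by simpa using g9, by simp,
      by simpa using u9, by simpa using v9, by simpa using w9⟩
  rintro σa ⟨ma, aa, ba, za, oa, ta, fa, ga, ca, ua, va, wa⟩
  refine exec_seq (T₁ := 1) (T₂ := 5) (exec_load (Q := fun σ => σ.mem = m ∧
    σ.reg (0, 0) = s ∧ σ.reg (0, 1) = e.t ∧ σ.reg rZero = 0 ∧ σ.reg rOne = 1 ∧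
    σ.reg rTwo = 2 ∧ σ.reg rFive = 5 ∧ σ.reg rFour = 4 ∧ σ.reg rZ = d.Z ∧
    σ.reg rBud = e.bud ∧ σ.reg rA = e.F.A ∧ σ.reg rB = e.B.A ∧ σ.reg rW = d.W)
    (by rw [ga]; omega) ?_ le_rfl) ?_ (by norm_num)
  · rw [ga, ma, h4]
    exact ⟨ma, by simpa using aa, by simpa using ba, by simpa using za, by simpa using oa,
      by simpa using ta, by simpa using fa, by simpa using ga, by simpa using ca,
      by simpa using ua, by simpa using va, by simpa using wa, by simp⟩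
  rintro σb ⟨mb, ab, bb, zb, ob, tb, fb, gb, cb, ub, vb, wb, xb⟩
  refine exec_seq (T₁ := 1) (T₂ := 4) (exec_load (Q := fun σ => σ.mem = m ∧
    σ.reg (0, 0) = s ∧ σ.reg (0, 1) = e.t ∧ σ.reg rZero = 0 ∧ σ.reg rOne = 1 ∧
    σ.reg rTwo = 2 ∧ σ.reg rFive = 5 ∧ σ.reg rFour = 4 ∧ σ.reg rZ = d.Z ∧
    σ.reg rBud = e.bud ∧ σ.reg rA = e.F.A ∧ σ.reg rB = e.B.A ∧ σ.reg rW = d.W ∧
    σ.reg rQ = d.Q)
    (by rw [fb]; omega) ?_ le_rfl) ?_ (by norm_num)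
  · rw [fb, mb, h5]
    exact ⟨mb, by simpa using ab, by simpa using bb, by simpa using zb, by simpa using ob,
      by simpa using tb, by simpa using fb, by simpa using gb, by simpa using cb,
      by simpa using ub, by simpa using vb, by simpa using wb, by simpa using xb, by simp⟩
  rintro σc ⟨mc, ac, bc, zc, oc, tc, fc, gc, cc, uc, vc, wc, xc, yc⟩
  refine exec_seq (T₁ := 1) (T₂ := 3) (exec_add (Q := fun σ => σ.mem = m ∧
    σ.reg (rX 0) = s ∧ σ.reg (0, 1) = e.t ∧ σ.reg rZero = 0 ∧ σ.reg rOne = 1 ∧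
    σ.reg rTwo = 2 ∧ σ.reg rFive = 5 ∧ σ.reg rFour = 4 ∧ σ.reg rZ = d.Z ∧
    σ.reg rBud = e.bud ∧ σ.reg rA = e.F.A ∧ σ.reg rB = e.B.A ∧ σ.reg rW = d.W ∧
    σ.reg rQ = d.Q) ?_ le_rfl) ?_ (by norm_num)
  · rw [ac, zc, Nat.add_zero, Nat.mod_eq_of_lt (by omega)]
    exact ⟨mc, by simp, by simpa using bc, by simpa using zc, by simpa using oc,
      by simpa using tc, by simpa using fc, by simpa using gc, by simpa using cc,
      by simpa using uc, by simpa using vc, by simpa using wc, by simpa using xc,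
      by simpa using yc⟩
  rintro σd ⟨md, ad, bd, zd, od, td, fd, gd, cd, ud, vd, wd, xd, yd⟩
  refine exec_seq (T₁ := 1) (T₂ := 2) (exec_add (Q := fun σ => σ.mem = m ∧
    σ.reg (rX 0) = s ∧ σ.reg rT = e.t ∧ σ.reg rZero = 0 ∧ σ.reg rOne = 1 ∧
    σ.reg rTwo = 2 ∧ σ.reg rFive = 5 ∧ σ.reg rFour = 4 ∧ σ.reg rZ = d.Z ∧
    σ.reg rBud = e.bud ∧ σ.reg rA = e.F.A ∧ σ.reg rB = e.B.A ∧ σ.reg rW = d.W ∧
    σ.reg rQ = d.Q) ?_ le_rfl) ?_ (by norm_num)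
  · rw [bd, zd, Nat.add_zero, Nat.mod_eq_of_lt (by omega)]
    exact ⟨md, by simpa using ad, by simp, by simpa using zd, by simpa using od,
      by simpa using td, by simpa using fd, by simpa using gd, by simpa using cd,
      by simpa using ud, by simpa using vd, by simpa using wd, by simpa using xd,
      by simpa using yd⟩
  rintro σe ⟨me, ae, be, ze, oe, te, fe, ge, ce, ue, ve, we, xe, ye⟩
  refine exec_seq (T₁ := 1) (T₂ := 1) (exec_imm (Q := fun σ => σ.mem = m ∧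
    σ.reg (rX 0) = s ∧ σ.reg rT = e.t ∧ σ.reg rZero = 0 ∧ σ.reg rOne = 1 ∧
    σ.reg rTwo = 2 ∧ σ.reg rFive = 5 ∧ σ.reg rFour = 4 ∧ σ.reg rZ = d.Z ∧
    σ.reg rBud = e.bud ∧ σ.reg rA = e.F.A ∧ σ.reg rB = e.B.A ∧ σ.reg rW = d.W ∧
    σ.reg rQ = d.Q ∧ σ.reg (rP 0) = 1) ?_ le_rfl) ?_ (by norm_num)
  · rw [Nat.mod_eq_of_lt (by omega)]
    exact ⟨me, by simpa using ae, by simpa using be, by simpa using ze, by simpa using oe,
      by simpa using te, by simpa using fe, by simpa using ge, by simpa using ce,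
      by simpa using ue, by simpa using ve, by simpa using we, by simpa using xe,
      by simpa using ye, by simp⟩
  rintro σf ⟨mf, af, bf, zf, of, tf, ff, gf, cf, uf, vf, wf, xf, yf, pf⟩
  refine exec_imm ?_ le_rfl
  rw [Nat.mod_eq_of_lt (by omega)]
  exact ⟨⟨mf, by simp, by simpa using zf, by simpa using of, by simpa using tf,
    by simpa using ff, by simpa using gf, by simpa using uf, by simpa using vf,
    by simpa using wf, by simpa using bf⟩, by simpa using af, by simpa using pf,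
    by simpa using cf, by simpa using xf, by simpa using yf⟩

theorem exec_dict (e : Env n w S m) {Low : ℕ → ℕ → Prop} (d : Dic n w S m Low) (s : ℕ)
    (hs : s < n) (σ : St) (hE : Ok e 0 σ) (hx : σ.reg (rX 0) = s) (hp : σ.reg (rP 0) = 1)
    (hZ : σ.reg rZ = d.Z) (hW : σ.reg rW = d.W) (hQ : σ.reg rQ = d.Q) :
    Exec w S dictP σ 13 (fun σ => Ok e (if Low s e.t then 1 else 0) σ ∧ σ.reg (rX 0) = s ∧
      σ.reg (rP 0) = 1) := by
  have hw := e.hS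
  have h8 := e.h8
  have ht := e.ht
  have hZt := d.hZ e.t ht
  obtain ⟨hp1, hp2⟩ := d.hp s hs e.t ht
  obtain ⟨hd1, hd2⟩ := d.hd s hs e.t ht
  unfold dictP
  refine exec_seq (T₁ := 1) (T₂ := 12) (exec_mul (Q := fun τ => Ok e 0 τ ∧ τ.reg (rX 0) = s ∧
    τ.reg (rP 0) = 1 ∧ τ.reg rZ = d.Z ∧ τ.reg rW = d.W ∧ τ.reg rQ = d.Q ∧
    τ.reg rTmp = 2 * e.t) ?_ le_rfl) ?_ (by norm_num)
  · rw [hE.two, hE.hT, Nat.mod_eq_of_lt (by omega)]
    exact ⟨hE.set (by simp), by simpa using hx, by simpa using hp, by simpa using hZ,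
      by simpa using hW, by simpa using hQ, by simp⟩
  rintro σ1 ⟨e1, x1, p1, z1, w1, q1, t1⟩
  refine exec_seq (T₁ := 1) (T₂ := 11) (exec_add (Q := fun τ => Ok e 0 τ ∧ τ.reg (rX 0) = s ∧
    τ.reg (rP 0) = 1 ∧ τ.reg rW = d.W ∧ τ.reg rQ = d.Q ∧
    τ.reg rTmp = d.Z + 2 * e.t) ?_ le_rfl) ?_ (by norm_num)
  · rw [t1, z1, Nat.mod_eq_of_lt (by omega)]
    exact ⟨e1.set (by simp), by simpa using x1, by simpa using p1,
      by simpa using w1, by simpa using q1, by simp; ring⟩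
  rintro σ2 ⟨e2, x2, p2, w2, q2, t2⟩
  refine exec_seq (T₁ := 1) (T₂ := 10) (exec_load (Q := fun τ => Ok e 0 τ ∧ τ.reg (rX 0) = s ∧
    τ.reg (rP 0) = 1 ∧ τ.reg rW = d.W ∧ τ.reg rQ = d.Q ∧
    τ.reg rTmp = d.Z + 2 * e.t ∧ τ.reg rC = d.qd e.t) (by rw [t2]; omega) ?_ le_rfl) ?_
    (by norm_num)
  · rw [t2, e2.mem, d.hq e.t ht]
    exact ⟨e2.set (by simp), by simpa using x2, by simpa using p2,
      by simpa using w2, by simpa using q2, by simpa using t2, by simp⟩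
  rintro σ3 ⟨e3, x3, p3, w3, q3, t3, c3⟩
  refine exec_seq (T₁ := 1) (T₂ := 9) (exec_add (Q := fun τ => Ok e 0 τ ∧ τ.reg (rX 0) = s ∧
    τ.reg (rP 0) = 1 ∧ τ.reg rW = d.W ∧ τ.reg rQ = d.Q ∧
    τ.reg rTmp = d.Z + 2 * e.t + 1 ∧ τ.reg rC = d.qd e.t) ?_ le_rfl) ?_
    (by norm_num)
  · rw [t3, e3.one, Nat.mod_eq_of_lt (by omega)]
    exact ⟨e3.set (by simp), by simpa using x3, by simpa using p3,
      by simpa using w3, by simpa using q3, by simp, by simpa using c3⟩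
  rintro σ4 ⟨e4, x4, p4, w4, q4, t4, c4⟩
  refine exec_seq (T₁ := 1) (T₂ := 8) (exec_load (Q := fun τ => Ok e 0 τ ∧ τ.reg (rX 0) = s ∧
    τ.reg (rP 0) = 1 ∧ τ.reg rW = d.W ∧ τ.reg rQ = d.Q ∧
    τ.reg rE = d.rm e.t ∧ τ.reg rC = d.qd e.t) (by rw [t4]; omega) ?_ le_rfl) ?_
    (by norm_num)
  · rw [t4, e4.mem, d.hr e.t ht]
    exact ⟨e4.set (by simp), by simpa using x4, by simpa using p4,
      by simpa using w4, by simpa using q4, by simp, by simpa using c4⟩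
  rintro σ5 ⟨e5, x5, p5, w5, q5, t5, c5⟩
  refine exec_seq (T₁ := 1) (T₂ := 7) (exec_mul (Q := fun τ => Ok e 0 τ ∧ τ.reg (rX 0) = s ∧
    τ.reg (rP 0) = 1 ∧ τ.reg rQ = d.Q ∧ τ.reg rTmp = d.W * s ∧
    τ.reg rE = d.rm e.t ∧ τ.reg rC = d.qd e.t) ?_ le_rfl) ?_
    (by norm_num)
  · rw [w5, x5, Nat.mod_eq_of_lt (by omega)]
    exact ⟨e5.set (by simp), by simpa using x5, by simpa using p5,
      by simpa using q5, by simp, by simpa using t5, by simpa using c5⟩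
  rintro σ6 ⟨e6, x6, p6, q6, t6, r6, c6⟩
  refine exec_seq (T₁ := 1) (T₂ := 6) (exec_add (Q := fun τ => Ok e 0 τ ∧ τ.reg (rX 0) = s ∧
    τ.reg (rP 0) = 1 ∧ τ.reg rQ = d.Q ∧ τ.reg rTmp = d.W * s + d.qd e.t ∧
    τ.reg rE = d.rm e.t) ?_ le_rfl) ?_
    (by norm_num)
  · rw [t6, c6, Nat.mod_eq_of_lt (by omega)]
    exact ⟨e6.set (by simp), by simpa using x6, by simpa using p6,
      by simpa using q6, by simp, by simpa using r6⟩
  rintro σ7 ⟨e7, x7, p7, q7, t7, r7⟩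
  refine exec_seq (T₁ := 1) (T₂ := 5) (exec_add (Q := fun τ => Ok e 0 τ ∧ τ.reg (rX 0) = s ∧
    τ.reg (rP 0) = 1 ∧ τ.reg rTmp = d.Q + (d.W * s + d.qd e.t) ∧
    τ.reg rE = d.rm e.t) ?_ le_rfl) ?_
    (by norm_num)
  · rw [t7, q7, Nat.mod_eq_of_lt (by omega)]
    exact ⟨e7.set (by simp), by simpa using x7, by simpa using p7,
      by simp; ring, by simpa using r7⟩
  rintro σ8 ⟨e8, x8, p8, t8, r8⟩
  refine exec_seq (T₁ := 1) (T₂ := 4) (exec_load (Q := fun τ => Ok e 0 τ ∧ τ.reg (rX 0) = s ∧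
    τ.reg (rP 0) = 1 ∧ τ.reg rTmp = d.ptr s e.t ∧
    τ.reg rE = d.rm e.t) (by rw [t8]; omega) ?_ le_rfl) ?_
    (by norm_num)
  · rw [t8, e8.mem, hp2]
    exact ⟨e8.set (by simp), by simpa using x8, by simpa using p8,
      by simp, by simpa using r8⟩
  rintro σ9 ⟨e9, x9, p9, t9, r9⟩
  refine exec_seq (T₁ := 1) (T₂ := 3) (exec_add (Q := fun τ => Ok e 0 τ ∧ τ.reg (rX 0) = s ∧
    τ.reg (rP 0) = 1 ∧ τ.reg rTmp = d.ptr s e.t + d.rm e.t) ?_ le_rfl) ?_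
    (by norm_num)
  · rw [t9, r9, Nat.mod_eq_of_lt (by omega)]
    exact ⟨e9.set (by simp), by simpa using x9, by simpa using p9, by simp⟩
  rintro σa ⟨ea, xa, pa, ta⟩
  refine exec_seq (T₁ := 1) (T₂ := 2) (exec_load (Q := fun τ => Ok e 0 τ ∧ τ.reg (rX 0) = s ∧
    τ.reg (rP 0) = 1 ∧ τ.reg rC = m (d.ptr s e.t + d.rm e.t)) (by rw [ta]; omega) ?_ le_rfl) ?_
    (by norm_num)
  · rw [ta, ea.mem]
    exact ⟨ea.set (by simp), by simpa using xa, by simpa using pa, by simp⟩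
  rintro σb ⟨eb, xb, pb, cb⟩
  refine exec_if (T' := 1) ?_ ?_ (by norm_num)
  · intro hlt
    rw [eb.zero, cb, hd2] at hlt
    refine exec_imm ?_ le_rfl
    rw [Nat.mod_eq_of_lt (by omega), if_pos hlt]
    exact ⟨eb.setAns, by simpa using xb, by simpa using pb⟩
  · intro hlt
    rw [eb.zero, cb, hd2] at hlt
    refine exec_imm ?_ le_rfl
    rw [Nat.mod_eq_of_lt (by omega), if_neg hlt]
    exact ⟨eb.set (by simp), by simpa using xb, by simpa using pb⟩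

/-- the specification of the query program -/
theorem exec_query (e : Env n w S m) {Low : ℕ → ℕ → Prop} (d : Dic n w S m Low) (k s : ℕ)
    (hs : s < n) (hS6 : 6 ≤ S) (h0 : m 0 = e.bud) (h1 : m 1 = e.F.A) (h2 : m 2 = e.B.A)
    (h3 : m 3 = d.Z) (h4 : m 4 = d.W) (h5 : m 5 = d.Q) (hk : k + 1 < 2 ^ w) :
    Exec w S (query k) (start m s e.t) (29 + tF e.bud k 1) (fun σ => σ.mem = m ∧
      σ.reg (0, 0) = if Fh e k s 1 ∨ Low s e.t then 1 else 0) := by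
  refine exec_seq (T₁ := 16) (T₂ := 13 + tF e.bud k 1)
    (exec_init e d s hs hS6 h0 h1 h2 h3 h4 h5) ?_ (by omega)
  rintro σ1 ⟨e1, x1, p1, z1, w1, q1⟩
  refine exec_seq (T₁ := 13) (T₂ := tF e.bud k 1) (exec_dict e d s hs σ1 e1 x1 p1 z1 w1 q1) ?_
    (by omega)
  rintro σ2 ⟨e2, x2, p2⟩
  refine (exec_fwd e k 0 s 1 _ σ2 hs hk le_rfl e.hbud1 e2 x2 p2).mono le_rfl ?_
  rintro τ ⟨hEt, _⟩
  refine ⟨hEt.mem, hEt.ans.trans ?_⟩
  by_cases u1 : Fh e k s 1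
  · simp [u1]
  · simp [u1]

end Pool.Agent.V5helper16.KR
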