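import Pool.Agent.V5helper16.KR.Asm

/-! The trade-off. -/

open Classical

namespace Pool.Agent.V5helper16.KR

theorem two_pow_w (n : ℕ) : n ^ 4 < 2 ^ (4 * (Nat.log 2 n + 1)) := by
  have h1 : n < 2 ^ (Nat.log 2 n + 1) := Nat.lt_pow_succ_log_self (by norm_num) n
  have h2 : 2 ^ (4 * (Nat.log 2 n + 1)) = (2 ^ (Nat.log 2 n + 1)) ^ 4 := by
    rw [← pow_mul, Nat.mul_comm]
  rw [h2]
  exact Nat.pow_lt_pow_left h1 (by norm_num)

/-- **The trade-off.** -/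
theorem tradeoff (k C n M : ℕ) (hk : 1 ≤ k) (hM : 1 ≤ M) (hMn : M ^ (k * (k + 1)) ≤ n)
    (hn : 6 * (C + 1) + k + 8 ≤ n) :
    Solves k C n (4 * (Nat.log 2 n + 1)) (32 * (C + 1) ^ 2 * (n ^ 2 / M ^ k))
      (100 * (k + 1) ^ 2 * M ^ (k ^ 2 / 4)) (query k) := by
  obtain ⟨D, hD⟩ : ∃ D, D = M ^ k := ⟨_, rfl⟩
  have hDpos : 1 ≤ D := by rw [hD]; exact Nat.pow_pos hM
  have hDn : D ^ (k + 1) ≤ n := by rw [hD, ← pow_mul]; exact hMn
  obtain ⟨q, hq⟩ : ∃ q, q = n ^ 2 / D := ⟨_, rfl⟩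
  have hDk : D * D ^ k ≤ n := by rw [← pow_succ']; exact hDn
  have hDk1 : 1 ≤ D ^ k := Nat.pow_pos hDpos
  have hDn1 : D ≤ n := (Nat.le_mul_of_pos_right D hDk1).trans hDk
  have hnq : n ≤ q := by
    rw [hq, Nat.le_div_iff_mul_le hDpos, sq]
    exact Nat.mul_le_mul_left n hDn1
  have hqD : n * n < D * (q + 1) := by
    have := Nat.lt_mul_div_succ (n ^ 2) hDpos
    rw [sq, ← sq, ← hq, sq] at this
    exact this
  have hw := two_pow_w n
  obtain ⟨w, hwdef⟩ : ∃ w, w = 4 * (Nat.log 2 n + 1) := ⟨_, rfl⟩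
  rw [← hwdef] at hw ⊢
  have hn2 : n * n ≤ n ^ 4 := by
    have h1 : n * n = n * n * 1 := by ring
    have h2 : n ^ 4 = n * n * (n * n) := by ring
    rw [h2]
    exact Nat.le_mul_of_pos_right _ (Nat.mul_pos (by omega) (by omega))
  have hnn : n ≤ n * n := Nat.le_mul_of_pos_right n (by omega)
  have hk1 : M ^ (k ^ 2 / 4) ≤ n := by
    refine (Nat.pow_le_pow_right hM ?_).trans hMn
    refine (Nat.div_le_self _ _).trans ?_
    nlinarith
  have hS : 32 * (C + 1) ^ 2 * q < 2 ^ w := by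
    refine lt_of_le_of_lt ?_ hw
    have h1 : q ≤ n * n := by rw [hq, sq]; exact Nat.div_le_self _ _
    have h2 : 32 * (C + 1) ^ 2 ≤ n * n := by
      have : 6 * (C + 1) ≤ n := by omega
      have := Nat.mul_le_mul this this
      nlinarith
    calc 32 * (C + 1) ^ 2 * q ≤ n * n * (n * n) := Nat.mul_le_mul h2 h1
      _ = n ^ 4 := by ring
  have hmain := solves_of (k := k) (C := C) (n := n) (M := M) (w := w)
    (S := 32 * (C + 1) ^ 2 * q) hk hM (by omega) hS (by omega) (by omega)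
    (lt_of_le_of_lt ((Nat.mul_le_mul_right n hk1).trans hn2) hw) ?_
  · rw [← hD, ← hq]
    intro G hG
    obtain ⟨m, h1, h2, h3⟩ := hmain G hG
    refine ⟨m, h1, h2, fun u v => ?_⟩
    obtain ⟨t, σ, ht, h4⟩ := h3 u v
    refine ⟨t, σ, ht.trans ?_, h4⟩
    unfold tF
    rw [Nat.div_one]
    have h5 : 1 ≤ M ^ (k ^ 2 / 4) := Nat.pow_pos hM
    have h6 : 1 ≤ (k + 1) ^ 2 := Nat.pow_pos (by omega)
    have h7 : 1 ≤ (k + 1) ^ 2 * M ^ (k ^ 2 / 4) := Nat.mul_pos h6 h5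
    have h8 : 62 * (k + 1) ^ 2 * M ^ (k ^ 2 / 4) = 62 * ((k + 1) ^ 2 * M ^ (k ^ 2 / 4)) := by ring
    have h9 : 100 * (k + 1) ^ 2 * M ^ (k ^ 2 / 4) = 100 * ((k + 1) ^ 2 * M ^ (k ^ 2 / 4)) := by
      ring
    omega
  · intro sF sB cF cB L h1 h2 h3 h4 h5
    rw [← hD] at h3 h4 h5 ⊢
    obtain ⟨c, hc⟩ : ∃ c, c = C + 1 := ⟨_, rfl⟩
    rw [← hc] at h1 h2 h3 h4 h5 ⊢
    have hc1 : 1 ≤ c := by omega
    have hq1 : 1 ≤ q := by omega
    have hcF : ∀ x, D * x ≤ c * n * (c * n) + n * (c * n) → x ≤ 4 * c ^ 2 * q := by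
      intro x hx
      have g1 : c * n * (c * n) + n * (c * n) ≤ 2 * c ^ 2 * (n * n) := by
        have : c * (n * n) ≤ c ^ 2 * (n * n) := Nat.mul_le_mul_right _ (by nlinarith)
        calc c * n * (c * n) + n * (c * n) = c ^ 2 * (n * n) + c * (n * n) := by ring
          _ ≤ c ^ 2 * (n * n) + c ^ 2 * (n * n) := by omega
          _ = _ := by ring
      have g2 : D * x ≤ D * (2 * c ^ 2 * (q + 1)) := by
        calc D * x ≤ 2 * c ^ 2 * (n * n) := hx.trans g1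
          _ ≤ 2 * c ^ 2 * (D * (q + 1)) := Nat.mul_le_mul_left _ hqD.le
          _ = _ := by ring
      have g3 : x ≤ 2 * c ^ 2 * (q + 1) := Nat.le_of_mul_le_mul_left g2 hDpos
      have g4 : 2 * c ^ 2 * (q + 1) ≤ 2 * c ^ 2 * (2 * q) := Nat.mul_le_mul_left _ (by omega)
      have g5 : 2 * c ^ 2 * (2 * q) = 4 * c ^ 2 * q := by ring
      omega
    have h6 := hcF cF h3
    have h7 := hcF cB h4
    have h8 : c * n ≤ c * q := Nat.mul_le_mul_left _ hnq
    have h9 : n * (n / D + 1) ≤ 2 * q := by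
      have g1 : n * (n / D) ≤ q := by
        rw [hq, sq]
        exact Nat.mul_div_le_mul_div_assoc _ _ _
      rw [Nat.mul_add, Nat.mul_one]
      omega
    have h10 : L ≤ c * q := by
      have g1 : D * (c * n * D ^ (k - 1)) = c * (n * D ^ k) := by
        obtain ⟨k', rfl⟩ : ∃ k', k = k' + 1 := ⟨k - 1, by omega⟩
        rw [Nat.add_sub_cancel, pow_succ]
        ring
      have g2 : n * D ^ k ≤ q := by
        rw [hq, Nat.le_div_iff_mul_le hDpos, sq]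
        calc n * D ^ k * D = n * (D * D ^ k) := by ring
          _ ≤ n * n := Nat.mul_le_mul_left _ hDk
      rw [g1] at h5
      exact h5.trans (Nat.mul_le_mul_left _ g2)
    have h11 : c * q ≤ c ^ 2 * q := Nat.mul_le_mul_right _ (by nlinarith)
    have h12 : q ≤ c * q := Nat.le_mul_of_pos_left _ hc1
    have h13 : 32 * c ^ 2 * q = 32 * (c ^ 2 * q) := by ring
    have h14 : 4 * c ^ 2 * q = 4 * (c ^ 2 * q) := by ring
    rw [h14] at h6 h7
    rw [h13]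
    omega

end Pool.Agent.V5helper16.KR
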